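import Mathlib

/-! A smooth cutoff as a Fourier integral. -/

set_option autoImplicit false

namespace Pool.Agent.Lib.MP_31bf45_nt.Lf

open Complex Finset MeasureTheory Metric
open scoped FourierTransform SchwartzMap

theorem bump : ∃ (Θ : ℝ → ℝ) (ν : ℝ → ℂ), (∀ y, 0 ≤ Θ y ∧ Θ y ≤ 1) ∧
    (∀ y, 0 ≤ y → y ≤ 1 → Θ y = 1) ∧ (∀ y, 11 / 10 ≤ y → Θ y = 0) ∧ Continuous ν ∧
    (∀ k : ℕ, Integrable fun x => ‖ν x‖ * (1 + |x|) ^ k) ∧
    ∀ y, (Θ y : ℂ) = ∫ x, ν x * exp ((2 * Real.pi * x * y : ℝ) * I) := by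
  let b : ContDiffBump (1 / 2 : ℝ) := ⟨1 / 2, 3 / 5, by norm_num, by norm_num⟩
  let f : 𝓢(ℝ, ℂ) := (b.hasCompactSupport.comp_left (g := ofReal) ofReal_zero).toSchwartzMap
    (ofRealCLM.contDiff.comp b.contDiff)
  refine ⟨b, (𝓕 f : 𝓢(ℝ, ℂ)), fun y => ⟨b.nonneg, b.le_one⟩, fun y h0 h1 => ?_, fun y h => ?_,
    (𝓕 f : 𝓢(ℝ, ℂ)).continuous, fun k => ?_, fun y => ?_⟩
  · refine b.one_of_mem_closedBall ?_
    rw [mem_closedBall, Real.dist_eq, abs_le]
    constructor <;> simp only [b] <;> linarith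
  · refine b.zero_of_le_dist ?_
    rw [Real.dist_eq]
    refine le_trans ?_ (le_abs_self _)
    simp only [b]
    linarith
  · simp_rw [add_pow, mul_sum]
    refine integrable_finsetSum _ fun i _ => ?_
    refine (((𝓕 f : 𝓢(ℝ, ℂ)).integrable_pow_mul volume (k - i)).mul_const
      (k.choose i : ℝ)).congr (Filter.Eventually.of_forall fun x => ?_)
    simp only [Real.norm_eq_abs]
    ring
  · have e := congrFun (f.continuous.fourierInv_fourier_eq f.integrable
      (𝓕 f : 𝓢(ℝ, ℂ)).integrable) y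
    rw [Real.fourierInv_eq'] at e
    refine Eq.trans (show (b y : ℂ) = f y from rfl) (e.symm.trans ?_)
    refine integral_congr_ae (Filter.Eventually.of_forall fun x => ?_)
    simp only [smul_eq_mul, RCLike.inner_apply, conj_trivial]
    rw [mul_comm, SchwartzMap.fourier_coe]
    congr 4
    ring

end Pool.Agent.Lib.MP_31bf45_nt.Lf
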