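import Pool.Agent.Lib.MP_31bf45_nt.Lf.Def

/-! The kernel `(exp z - 1) / z` and the weights. -/

set_option autoImplicit false

namespace Pool.Agent.Lib.MP_31bf45_nt.Lf

open Complex Finset MeasureTheory Metric Om Cl Pool.Agent.Lib.MP_b09185_nt.Sh
open Pool.Agent.Lib.MP_b09185_nt.Mai (EE)
open scoped ComplexConjugate

theorem lk_ne {z : ℂ} (h : z ≠ 0) : dslope exp 0 z = (exp z - 1) / z := by
  rw [dslope_of_ne _ h, slope_def_field, exp_zero, sub_zero]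

theorem lk_zero : dslope exp 0 0 = 1 := by
  rw [dslope_same, Complex.deriv_exp, exp_zero]

theorem lk_sub (z : ℂ) : ‖exp z - 1‖ ≤ 1 + Real.exp z.re := by
  have := norm_sub_le (exp z) 1
  rw [norm_exp, norm_one] at this
  linarith

theorem EW_diff (l : ℝ) : Differentiable ℂ (EW l) :=
  (differentiableOn_univ.1 ((differentiableOn_dslope Filter.univ_mem).2
    differentiable_exp.differentiableOn)).comp (f := fun w : ℂ => l * w) (by fun_prop)

theorem EW_zero (l : ℝ) : EW l 0 = 1 := by rw [EW, mul_zero, lk_zero]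

theorem EW_le (l : ℝ) (w : ℂ) : ‖EW l w‖ ≤ 2 + Real.exp (l * w.re) := by
  rw [EW, ← re_ofReal_mul]
  generalize (l : ℂ) * w = z
  have h1 := Real.exp_pos z.re
  rcases eq_or_ne z 0 with rfl | h0
  · rw [lk_zero, norm_one]
    linarith
  rw [lk_ne h0, norm_div, div_le_iff₀ (norm_pos_iff.2 h0)]
  rcases le_total ‖z‖ 1 with h2 | h2
  · nlinarith [norm_exp_sub_one_le h2, norm_nonneg z]
  · nlinarith [lk_sub z]

theorem EW_mul {l : ℝ} (h : 0 ≤ l) (w : ℂ) :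
    ‖EW l w‖ * (l * ‖w‖) ≤ 1 + Real.exp (l * w.re) := by
  have e : l * ‖w‖ = ‖(l : ℂ) * w‖ := by rw [norm_mul, norm_real, Real.norm_of_nonneg h]
  rw [EW, e, ← re_ofReal_mul]
  generalize (l : ℂ) * w = z
  rcases eq_or_ne z 0 with rfl | h0
  · rw [norm_zero, mul_zero]
    positivity
  · rw [lk_ne h0, norm_div, div_mul_cancel₀ _ (norm_ne_zero_iff.2 h0)]
    exact lk_sub z

theorem cau_int {κ : ℝ} (h : 0 < κ) : (Integrable fun v : ℝ => κ / (1 + κ ^ 2 * v ^ 2)) ∧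
    ∫ v : ℝ, κ / (1 + κ ^ 2 * v ^ 2) = Real.pi := by
  simp only [div_eq_mul_inv, ← mul_pow]
  refine ⟨(integrable_inv_one_add_sq.comp_mul_left' h.ne').const_mul _, ?_⟩
  rw [integral_const_mul, Measure.integral_comp_mul_left (fun v : ℝ => (1 + v ^ 2)⁻¹),
    integral_univ_inv_one_add_sq, abs_of_pos (inv_pos.2 h), smul_eq_mul,
    mul_inv_cancel_left₀ h.ne']

theorem lk_gs : Integrable gs := integrable_exp_neg_mul_sq (b := 1 / 2) (by norm_num)

theorem lk_mass : ∫ u, gs u ≤ 3 := by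
  unfold gs
  rw [integral_gaussian, Real.sqrt_le_iff]
  exact ⟨by norm_num, by linarith [Real.pi_le_four]⟩

theorem lk_one (u : ℝ) : gs u ≤ 1 := Real.exp_le_one_iff.2 (by nlinarith [sq_nonneg u])

theorem lk_EE (x σ u : ℝ) : ‖EE x (σ + u * I)‖ = Real.exp (σ ^ 2 / 2 + x * σ) * gs u := by
  rw [Pool.Agent.Lib.MP_b09185_nt.Mai.EE, norm_exp, gs, ← Real.exp_add]
  congr 1
  simp [sq]
  ring

theorem lk_line {F : ℂ → ℂ} {l : ℝ} (hl : 0 ≤ l) (hF : ∀ w : ℂ, 0 < w.re → DifferentiableAt ℂ F w)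
    (hb : ∀ w : ℂ, 1 ≤ ‖w‖ → ‖F w‖ ≤ ‖EW l w‖) (x : ℝ) {a b : ℝ} (ha : 0 < a) (hab : a ≤ b) :
    ∫ u : ℝ, F (a + u * I) * EE x (a + u * I) = ∫ u : ℝ, F (b + u * I) * EE x (b + u * I) := by
  refine (shift_line (C := 2 + Real.exp (l * b)) x hab
    (fun w hw => (hF w (ha.trans_le hw.1.1)).differentiableWithinAt) fun s hs y hy => ?_).2
  have h1 : 1 ≤ ‖(s : ℂ) + y * I‖ := hy.trans (by simpa using abs_im_le_norm (s + y * I))
  have h2 := EW_le l (s + y * I)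
  have h3 : Real.exp (l * ((s : ℂ) + y * I).re) ≤ Real.exp (l * b) :=
    Real.exp_le_exp.2 (mul_le_mul_of_nonneg_left (by simpa using hs.2) hl)
  refine (hb _ h1).trans (le_trans (by linarith) (le_mul_of_one_le_right (by positivity) ?_))
  exact Real.one_le_exp (by positivity)

theorem lk_far {F : ℂ → ℂ} {l : ℝ} (hl : 0 ≤ l) (hb : ∀ w : ℂ, 1 ≤ ‖w‖ → ‖F w‖ ≤ ‖EW l w‖)
    (x : ℝ) : ‖∫ u : ℝ, F ((200 : ℝ) + u * I) * EE x ((200 : ℝ) + u * I)‖ ≤
      16 * Real.exp (200 ^ 2 / 2) * Real.exp (200 * (x + l)) := by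
  have e1 := Real.one_le_exp (by positivity : 0 ≤ l * 200)
  refine (norm_integral_le_of_norm_le (lk_gs.const_mul
    (3 * Real.exp (l * 200) * Real.exp (200 ^ 2 / 2 + x * 200))) (.of_forall fun u => ?_)).trans ?_
  · have h1 : 1 ≤ ‖((200 : ℝ) : ℂ) + u * I‖ :=
      le_trans (by norm_num) (re_le_norm (((200 : ℝ) : ℂ) + u * I))
    have h2 := EW_le l ((200 : ℝ) + u * I)
    rw [show (((200 : ℝ) : ℂ) + u * I).re = 200 by simp] at h2
    rw [norm_mul, lk_EE, ← mul_assoc]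
    have := (gs_pos u).le
    gcongr
    linarith [hb _ h1]
  · rw [integral_const_mul, Real.exp_add, show 200 * (x + l) = l * 200 + x * 200 by ring,
      Real.exp_add]
    have h1 := lk_mass
    have h2 : 0 < Real.exp (l * 200) * (Real.exp (200 ^ 2 / 2) * Real.exp (x * 200)) := by
      positivity
    nlinarith

theorem W_bd : ∃ C : ℝ, 1 ≤ C ∧ ∀ l x : ℝ, 1 ≤ l →
    (x ≤ 550 * l → ‖W1 l x‖ ≤ C ∧ ‖W2 l x‖ ≤ C) ∧ ‖W1 l x‖ ≤ C * Real.exp (200 * (x + l)) ∧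
      ‖W2 l x‖ ≤ C * Real.exp (200 * (x + l)) := by
  have e0 := Real.one_le_exp (by positivity : (0 : ℝ) ≤ 200 ^ 2 / 2)
  refine ⟨16 * Real.exp (200 ^ 2 / 2), by linarith, fun l x hl => ?_⟩
  have l0 : 0 < l := by linarith
  have d1 : ∀ w : ℂ, 0 < w.re → DifferentiableAt ℂ (fun w => w⁻¹ * EW l w) w := fun w hw =>
    (differentiableAt_inv (fun e => by simp [e] at hw)).mul (EW_diff l w)
  have b1 : ∀ w : ℂ, 1 ≤ ‖w‖ → ‖w⁻¹ * EW l w‖ ≤ ‖EW l w‖ := fun w hw => by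
    rw [norm_mul, norm_inv]
    exact mul_le_of_le_one_left (norm_nonneg _) (inv_le_one_of_one_le₀ hw)
  have d2 : ∀ w : ℂ, 0 < w.re → DifferentiableAt ℂ (EW l) w := fun w _ => EW_diff l w
  have b2 : ∀ w : ℂ, 1 ≤ ‖w‖ → ‖EW l w‖ ≤ ‖EW l w‖ := fun _ _ => le_rfl
  refine ⟨fun hx => ?_, ?_, ?_⟩
  · have a0 : 0 < l⁻¹ := inv_pos.2 l0
    have a1 : l⁻¹ ≤ 1 := inv_le_one_of_one_le₀ hl
    have a2 : l * l⁻¹ = 1 := mul_inv_cancel₀ l0.ne'
    have a3 : Real.exp (l⁻¹ ^ 2 / 2 + x * l⁻¹) ≤ Real.exp (200 ^ 2 / 2) :=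
      Real.exp_le_exp.2 (by nlinarith [mul_le_mul_of_nonneg_right hx a0.le])
    have a4 : ∀ u : ℝ, Real.exp (l * (((l⁻¹ : ℝ) : ℂ) + u * I).re) ≤ 3 := fun u => by
      rw [show (((l⁻¹ : ℝ) : ℂ) + u * I).re = l⁻¹ by simp, a2]
      linarith [Real.exp_one_lt_d9]
    constructor
    · rw [W1, ← lk_line l0.le d1 b1 x a0 (a1.trans one_le_two)]
      refine (norm_integral_le_of_norm_le ((cau_int l0).1.const_mul (4 * Real.exp (200 ^ 2 / 2)))
        (.of_forall fun u => ?_)).trans ?_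
      · have h1 := EW_mul l0.le ((l⁻¹ : ℝ) + u * I)
        have h2 : ‖((l⁻¹ : ℝ) : ℂ) + u * I‖ ^ 2 = l⁻¹ ^ 2 + u ^ 2 := by
          rw [Complex.sq_norm, normSq_add_mul_I]
        have h3 : 0 < ‖((l⁻¹ : ℝ) : ℂ) + u * I‖ :=
          a0.trans_le (by simpa using re_le_norm (((l⁻¹ : ℝ) : ℂ) + u * I))
        have h4 : ‖(((l⁻¹ : ℝ) : ℂ) + u * I)⁻¹ * EW l ((l⁻¹ : ℝ) + u * I)‖ ≤
            4 * (l / (1 + l ^ 2 * u ^ 2)) := by
          have : 1 + l ^ 2 * u ^ 2 = l ^ 2 * ‖((l⁻¹ : ℝ) : ℂ) + u * I‖ ^ 2 := by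
            rw [h2]; field_simp
          have h5 := a4 u
          rw [norm_mul, norm_inv, this]
          generalize ‖((l⁻¹ : ℝ) : ℂ) + u * I‖ = n at *
          rw [← mul_div_assoc, inv_mul_eq_div, div_le_div_iff₀ h3 (by positivity)]
          nlinarith [mul_le_mul_of_nonneg_right (h1.trans (by linarith : _ ≤ (4 : ℝ)))
            (mul_pos l0 h3).le]
        rw [norm_mul, lk_EE, mul_right_comm]
        exact mul_le_mul h4 ((mul_le_of_le_one_right (Real.exp_pos _).le (lk_one u)).trans a3)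
          (mul_pos (Real.exp_pos _) (gs_pos u)).le (by positivity)
      · rw [integral_const_mul, (cau_int l0).2]
        nlinarith [Real.pi_le_four]
    · rw [W2, ← lk_line l0.le d2 b2 x a0 (a1.trans one_le_two)]
      refine (norm_integral_le_of_norm_le (lk_gs.const_mul (5 * Real.exp (200 ^ 2 / 2)))
        (.of_forall fun u => ?_)).trans ?_
      · rw [norm_mul, lk_EE, ← mul_assoc]
        have := (gs_pos u).le
        gcongr
        linarith [EW_le l ((l⁻¹ : ℝ) + u * I), a4 u]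
      · rw [integral_const_mul]
        nlinarith [lk_mass]
  · rw [W1, lk_line l0.le d1 b1 x two_pos (by norm_num : (2 : ℝ) ≤ 200)]
    exact lk_far l0.le b1 x
  · rw [W2, lk_line l0.le d2 b2 x two_pos (by norm_num : (2 : ℝ) ≤ 200)]
    exact lk_far l0.le b2 x

theorem om_nonneg {l : ℝ} (h : 0 ≤ l) (δ u : ℝ) : 0 ≤ om l δ u :=
  mul_nonneg (by positivity) (gs_pos u).le

theorem om_cont {l δ : ℝ} (h : 0 < l) (h' : 0 < δ) : Continuous (om l δ) :=
  ((continuous_const.div (by fun_prop) fun u => by positivity).add continuous_const).mul cont_gs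

theorem lk_om {l δ : ℝ} (h : 0 < l) (h' : 0 < δ) (u : ℝ) :
    om l δ u ≤ 4 / (δ * l) * (2 / δ / (1 + (2 / δ) ^ 2 * u ^ 2)) + gs u := by
  have e : 4 / (δ * l) * (2 / δ / (1 + (2 / δ) ^ 2 * u ^ 2)) = 2 / (l * (δ ^ 2 / 4 + u ^ 2)) := by
    field_simp
    ring
  rw [e, om, add_mul, one_mul]
  exact add_le_add (mul_le_of_le_one_right (by positivity) (lk_one u)) le_rfl

theorem om_int {l δ : ℝ} (h : 0 < l) (h' : 0 < δ) : Integrable (om l δ) :=
  (((cau_int (by positivity : 0 < 2 / δ)).1.const_mul (4 / (δ * l))).add lk_gs).mono'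
    (om_cont h h').aestronglyMeasurable (.of_forall fun u => by
      rw [Real.norm_of_nonneg (om_nonneg h.le δ u)]
      exact lk_om h h' u)

theorem om_le {l δ : ℝ} (h' : 0 < δ) (h : 1 ≤ δ * l) : ∫ u, om l δ u ≤ 16 := by
  have l0 : 0 < l := (pos_iff_pos_of_mul_pos (one_pos.trans_le h)).1 h'
  have i1 := (cau_int (by positivity : 0 < 2 / δ)).1.const_mul (4 / (δ * l))
  refine (integral_mono (om_int l0 h') (i1.add lk_gs) (lk_om l0 h')).trans ?_
  simp only [Pi.add_apply]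
  rw [integral_add i1 lk_gs, integral_const_mul, (cau_int (by positivity : 0 < 2 / δ)).2]
  have h1 : 4 / (δ * l) ≤ 4 := div_le_self (by norm_num) h
  nlinarith [lk_mass, Real.pi_lt_d2, Real.pi_pos]

end Pool.Agent.Lib.MP_31bf45_nt.Lf
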