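import Pool.Agent.Lib.MP_31bf45_nt.Lf.Def
import Pool.Agent.Lib.MP_31bf45_nt.Lf.Ker

/-! The map from a disc to a long thin region and the weight on the circle. -/

set_option autoImplicit false

namespace Pool.Agent.Lib.MP_31bf45_nt.Lf

open Complex Finset MeasureTheory Metric Om Cl Pool.Agent.Lib.MP_b09185_nt.Sh
open Pool.Agent.Lib.MP_b09185_nt.Mai (EE)
open scoped ComplexConjugate

section Circ
variable {κ : ℝ}

theorem circ_pos (κ : ℝ) : 0 < RA κ := Real.exp_pos _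

theorem circ_re {R : ℝ} {v : ℂ} (hv : v ∈ closedBall (R : ℂ) R) : 1 ≤ (1 + v).re := by
  rw [mem_closedBall, dist_eq_norm] at hv
  have h1 := (abs_le.1 ((abs_re_le_norm (v - R)).trans hv)).1
  simp only [sub_re, ofReal_re] at h1
  simp only [add_re, one_re]
  linarith

theorem circ_slit {R : ℝ} {v : ℂ} (hv : v ∈ closedBall (R : ℂ) R) : 1 + v ∈ slitPlane :=
  Or.inl (lt_of_lt_of_le one_pos (circ_re hv))

theorem circ_one {R : ℝ} {v : ℂ} (hv : v ∈ closedBall (R : ℂ) R) : 1 ≤ ‖1 + v‖ :=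
  (circ_re hv).trans (re_le_norm _)

theorem circ_mem (κ θ : ℝ) : circleMap (RA κ) (RA κ) θ ∈ closedBall (RA κ : ℂ) (RA κ) :=
  circleMap_mem_closedBall _ (circ_pos κ).le θ

theorem circ_fi (κ : ℝ) (v : ℂ) :
    (fi κ v).re = Real.log ‖1 + v‖ / (8 * κ) ∧ (fi κ v).im = arg (1 + v) / (8 * κ) := by
  have e : (8 * κ : ℂ) = ((8 * κ : ℝ) : ℂ) := by push_cast; ring
  unfold fi
  rw [e, div_ofReal_re, div_ofReal_im, log_re, log_im]
  exact ⟨rfl, rfl⟩

theorem fi_an (h : 1 ≤ κ) {v : ℂ} (hv : v ∈ closedBall (RA κ : ℂ) (RA κ)) :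
    AnalyticAt ℂ (fi κ) v ∧ deriv (fi κ) v ≠ 0 := by
  have hs := circ_slit hv
  have hk : (8 * κ : ℂ) ≠ 0 :=
    mul_ne_zero (by norm_num) (ofReal_ne_zero.2 (by linarith))
  constructor
  · have a1 : AnalyticAt ℂ (fun z : ℂ => log (1 + z)) v :=
      AnalyticAt.clog (f := fun z : ℂ => 1 + z) (by fun_prop) hs
    exact a1.div analyticAt_const hk
  · have d1 : HasDerivAt (fun z : ℂ => log (1 + z)) (1 / (1 + v)) v :=
      HasDerivAt.clog (f := fun z : ℂ => 1 + z) ((hasDerivAt_id v).const_add 1) hs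
    have d2 : HasDerivAt (fi κ) (1 / (1 + v) / (8 * κ)) v := d1.div_const _
    rw [d2.deriv]
    exact div_ne_zero (one_div_ne_zero (slitPlane_ne_zero hs)) hk

theorem fi_bd (h : 1 ≤ κ) {v : ℂ} (hv : v ∈ closedBall (RA κ : ℂ) (RA κ)) :
    0 ≤ (fi κ v).re ∧ (fi κ v).re ≤ 17 / 4 ∧ |(fi κ v).im| ≤ 1 / 4 := by
  obtain ⟨e1, e2⟩ := circ_fi κ v
  have hk : 0 < 8 * κ := by linarith
  have h1 := circ_one hv
  have hR : 1 ≤ RA κ := Real.one_le_exp (by linarith)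
  rw [e1, e2]
  refine ⟨div_nonneg (Real.log_nonneg h1) hk.le, ?_, ?_⟩
  · have h2 : ‖1 + v‖ ≤ Real.exp (34 * κ) := by
      rw [mem_closedBall, dist_eq_norm] at hv
      have a1 : ‖1 + v‖ ≤ ‖(1 : ℂ)‖ + ‖(RA κ : ℂ)‖ + ‖v - RA κ‖ := by
        have : 1 + v = 1 + (RA κ : ℂ) + (v - RA κ) := by ring
        rw [this]
        exact norm_add₃_le
      rw [norm_one, norm_real, Real.norm_of_nonneg (circ_pos κ).le] at a1
      have a2 : Real.exp (34 * κ) = RA κ * Real.exp (2 * κ) := by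
        unfold RA
        rw [← Real.exp_add]
        ring_nf
      have a3 := Real.add_one_le_exp (2 * κ)
      rw [a2]
      nlinarith
    have h3 := (Real.log_le_iff_le_exp (by linarith)).2 h2
    rw [div_le_iff₀ hk]
    linarith
  · have h2 : |arg (1 + v)| ≤ Real.pi / 2 :=
      abs_arg_le_pi_div_two_iff.2 (by linarith [circ_re hv])
    rw [abs_div, abs_of_pos hk, div_le_iff₀ hk]
    linarith [Real.pi_le_four]

theorem fi_c (h : 1 ≤ κ) : 4 ≤ (fi κ (RA κ)).re := by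
  have hk : 0 < 8 * κ := by linarith
  have h1 : RA κ ≤ ‖1 + (RA κ : ℂ)‖ := by
    have := re_le_norm (1 + (RA κ : ℂ))
    simp only [add_re, one_re, ofReal_re] at this
    linarith
  have h2 := Real.log_le_log (circ_pos κ) h1
  have h3 : Real.log (RA κ) = 32 * κ := Real.log_exp _
  rw [(circ_fi κ _).1, le_div_iff₀ hk]
  linarith

theorem fc_bd (h : 1 ≤ κ) (θ : ℝ) :
    0 ≤ (fc κ θ).re ∧ (fc κ θ).re ≤ 17 / 4 ∧ |(fc κ θ).im| ≤ 1 / 4 :=
  fi_bd h (circ_mem κ θ)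

theorem fc_cont (κ : ℝ) : Continuous (fc κ) := by
  have c1 : Continuous fun θ => 1 + circleMap (RA κ) (RA κ) θ :=
    continuous_const.add (continuous_circleMap _ _)
  exact (c1.clog fun θ => circ_slit (circ_mem κ θ)).div_const _

theorem vp_cont (κ : ℝ) : Continuous (vp κ) := by
  have c1 : Continuous fun θ => 1 + circleMap (RA κ) (RA κ) θ :=
    continuous_const.add (continuous_circleMap _ _)
  refine continuous_const.div (c1.norm.pow 2) fun θ => ?_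
  have := circ_one (circ_mem κ θ)
  positivity

theorem vp_nonneg (κ θ : ℝ) : 0 ≤ vp κ θ := div_nonneg (circ_pos κ).le (by positivity)

theorem circ_sq (R θ : ℝ) :
    ‖1 + circleMap (R : ℂ) R θ‖ ^ 2 = 1 + 2 * R * (1 + R) * (1 + Real.cos θ) := by
  rw [Complex.sq_norm, normSq_apply]
  simp only [circleMap, add_re, add_im, one_re, one_im, ofReal_re, ofReal_im, mul_re, mul_im,
    exp_ofReal_mul_I_re, exp_ofReal_mul_I_im]
  linear_combination R ^ 2 * Real.sin_sq_add_cos_sq θ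

theorem circ_vp (κ : ℝ) {θ : ℝ} (hθ : θ ∈ Set.Ioc 0 (2 * Real.pi)) :
    vp κ θ ≤ Real.pi / 2 * (2 * RA κ / Real.pi /
      (1 + (2 * RA κ / Real.pi) ^ 2 * (θ - Real.pi) ^ 2)) := by
  have hp := Real.pi_pos
  have hR := circ_pos κ
  have h1 : |θ - Real.pi| ≤ Real.pi := abs_le.2 ⟨by linarith [hθ.1], by linarith [hθ.2]⟩
  have h2 := Real.cos_le_one_sub_mul_cos_sq h1
  rw [Real.cos_sub_pi] at h2
  have h3 : 2 / Real.pi ^ 2 * (θ - Real.pi) ^ 2 ≤ 1 + Real.cos θ := by linarith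
  have h4 : 0 ≤ 2 / Real.pi ^ 2 * (θ - Real.pi) ^ 2 := by positivity
  have h5 : 1 + (2 * RA κ / Real.pi) ^ 2 * (θ - Real.pi) ^ 2 ≤
      1 + 2 * RA κ * (1 + RA κ) * (1 + Real.cos θ) := by
    have e : (2 * RA κ / Real.pi) ^ 2 * (θ - Real.pi) ^ 2 =
        2 * RA κ * RA κ * (2 / Real.pi ^ 2 * (θ - Real.pi) ^ 2) := by ring
    rw [e]
    gcongr
    linarith
  have e2 : Real.pi / 2 * (2 * RA κ / Real.pi /
      (1 + (2 * RA κ / Real.pi) ^ 2 * (θ - Real.pi) ^ 2)) =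
      RA κ / (1 + (2 * RA κ / Real.pi) ^ 2 * (θ - Real.pi) ^ 2) := by
    rw [← mul_div_assoc]
    congr 1
    field_simp
  rw [e2]
  unfold vp
  rw [circ_sq]
  exact div_le_div_of_nonneg_left hR.le (by positivity) h5

theorem vp_le (κ : ℝ) : ∫ θ in Set.Ioc 0 (2 * Real.pi), vp κ θ ≤ 5 := by
  have hp := Real.pi_pos
  have hR := circ_pos κ
  obtain ⟨i1, i2⟩ := cau_int (κ := 2 * RA κ / Real.pi) (by positivity)
  have i3 := (i1.comp_sub_right Real.pi).const_mul (Real.pi / 2)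
  have i4 : IntegrableOn (vp κ) (Set.Ioc 0 (2 * Real.pi)) :=
    ((vp_cont κ).integrableOn_Icc).mono_set Set.Ioc_subset_Icc_self
  have h1 := setIntegral_mono_on i4 i3.integrableOn measurableSet_Ioc fun θ hθ => circ_vp κ hθ
  have h2 := setIntegral_le_integral (s := Set.Ioc 0 (2 * Real.pi)) i3
    (Filter.Eventually.of_forall fun θ => by positivity)
  have h4 : ∫ θ : ℝ, Real.pi / 2 * (2 * RA κ / Real.pi /
      (1 + (2 * RA κ / Real.pi) ^ 2 * (θ - Real.pi) ^ 2)) = Real.pi / 2 * Real.pi := by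
    rw [integral_const_mul, integral_sub_right_eq_self
      (fun v : ℝ => 2 * RA κ / Real.pi / (1 + (2 * RA κ / Real.pi) ^ 2 * v ^ 2)), i2]
  rw [h4] at h2
  have h3 := Real.pi_lt_d2
  nlinarith

theorem vp_ge (h : 1 ≤ κ) {l : ℝ} (hl : 16 * κ ≤ l) (θ : ℝ) :
    RA κ * Real.exp (-l * (fc κ θ).re) ≤ vp κ θ := by
  have hk : 0 < 8 * κ := by linarith
  have h1 := circ_one (circ_mem κ θ)
  have h2 := Real.log_nonneg h1
  unfold fc vp
  rw [(circ_fi κ _).1, div_eq_mul_inv (RA κ)]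
  generalize ‖1 + circleMap (RA κ) (RA κ) θ‖ = N at h1 h2
  refine mul_le_mul_of_nonneg_left ?_ (circ_pos κ).le
  have h3 : 2 * Real.log N ≤ l * (Real.log N / (8 * κ)) := by
    rw [← mul_div_assoc, le_div_iff₀ hk]
    nlinarith
  have h4 : Real.exp (-(2 * Real.log N)) = (N ^ 2)⁻¹ := by
    rw [Real.exp_neg, two_mul, Real.exp_add, Real.exp_log (by linarith), sq]
  rw [← h4]
  exact Real.exp_le_exp.2 (by linarith)

end Circ

end Pool.Agent.Lib.MP_31bf45_nt.Lf
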