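import Pool.Agent.Lib.MP_31bf45_nt.Lf.Circ

/-! Jensen's formula on the image of a disc in a long thin region. -/

set_option autoImplicit false

namespace Pool.Agent.Lib.MP_31bf45_nt.Lf

open Complex Finset MeasureTheory Metric Om Cl Pool.Agent.Lib.MP_b09185_nt.Sh
open Pool.Agent.Lib.MP_b09185_nt.Mai (EE)
open scoped ComplexConjugate

theorem jen_log {R E : ℝ} (hR : 0 < R) {v : ℂ} (hv : v ≠ R) (h : ‖R - v‖ ^ 2 ≤ R ^ 2 - R * E) :
    E / (2 * R) ≤ Real.log (R * ‖R - v‖⁻¹) := by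
  have n0 : 0 < ‖(R : ℂ) - v‖ := norm_pos_iff.2 (sub_ne_zero.2 hv.symm)
  generalize ‖(R : ℂ) - v‖ = n at *
  have h1 := Real.log_le_sub_one_of_pos (x := (n / R) ^ 2) (by positivity)
  have h2 : Real.log (R * n⁻¹) = -Real.log (n / R) := by
    rw [← Real.log_inv]; congr 1; field_simp
  rw [Real.log_pow] at h1
  have h3 : (n / R) ^ 2 - 1 ≤ -(E / R) := by
    rw [div_pow, ← sub_nonneg, show -(E / R) - (n ^ 2 / R ^ 2 - 1) =
      (R ^ 2 - R * E - n ^ 2) / R ^ 2 by field_simp; ring]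
    exact div_nonneg (by linarith) (by positivity)
  rw [h2, show E / (2 * R) = E / R / 2 by field_simp]
  push_cast at h1
  linarith

theorem jen_pt {κ q β θ : ℝ} (h : 1 ≤ κ) (h1 : q ≤ 1 / 8) (h2 : Real.exp (-κ) ≤ q)
    (b1 : 4 * q ≤ β) (b2 : β ≤ 4 * κ) (t : |θ| ≤ 4 * q) :
    exp (β + θ * I) - 1 ≠ RA κ ∧
      ‖(RA κ : ℂ) - (exp (β + θ * I) - 1)‖ ^ 2 ≤ RA κ ^ 2 - RA κ * (Real.exp β * q) := by
  have q0 : 0 < q := (Real.exp_pos _).trans_le h2
  have R0 : 0 < RA κ := Real.exp_pos _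
  have e0 := Real.exp_pos β
  have e1 : 1 + 4 * q ≤ Real.exp β := by linarith [Real.add_one_le_exp β]
  have c1 : 1 - q ≤ Real.cos θ := by
    have := Real.one_sub_sq_div_two_le_cos (x := θ)
    have : θ ^ 2 ≤ (4 * q) ^ 2 := by rw [← sq_abs θ]; gcongr
    nlinarith
  have hre : (exp (β + θ * I) - 1).re = Real.exp β * Real.cos θ - 1 := by
    simp [exp_re]
  have hn : ‖exp (β + θ * I) - 1‖ ≤ 2 * Real.exp β := by
    refine (norm_sub_le _ _).trans ?_
    rw [norm_exp, norm_one]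
    simp only [add_re, ofReal_re, mul_re, I_re, mul_zero, ofReal_im, I_im, sub_self, add_zero,
      zero_mul]
    linarith
  have r1 : Real.exp β * q ≤ (exp (β + θ * I) - 1).re := by
    rw [hre]
    have : Real.exp β * (1 - q) ≤ Real.exp β * Real.cos θ := by gcongr
    have : (1 + 4 * q) * (1 - 2 * q) ≤ Real.exp β * (1 - 2 * q) := by
      gcongr; linarith
    nlinarith
  have k : 4 * Real.exp β ≤ RA κ * q := by
    have a1 : Real.exp β ≤ Real.exp (4 * κ) := Real.exp_le_exp.2 b2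
    have a2 : 4 ≤ Real.exp (27 * κ) := by linarith [Real.add_one_le_exp (27 * κ)]
    have a3 : RA κ * Real.exp (-κ) = Real.exp (27 * κ) * Real.exp (4 * κ) := by
      rw [RA, ← Real.exp_add, ← Real.exp_add]; congr 1; ring
    calc _ ≤ Real.exp (27 * κ) * Real.exp (4 * κ) := by gcongr
      _ ≤ _ := by rw [← a3]; gcongr
  generalize exp (β + θ * I) - 1 = v at *
  generalize RA κ = R at *
  generalize Real.exp β = E at *
  have n2 : ‖v‖ ^ 2 ≤ R * (E * q) := by
    calc _ ≤ (2 * E) ^ 2 := by gcongr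
      _ = 4 * E * E := by ring
      _ ≤ R * q * E := by gcongr
      _ = _ := by ring
  refine ⟨fun c => ?_, ?_⟩
  · rw [c, norm_real, Real.norm_of_nonneg R0.le] at hn
    nlinarith
  · have : ‖(R : ℂ) - v‖ ^ 2 = R ^ 2 - 2 * R * v.re + ‖v‖ ^ 2 := by
      rw [Complex.sq_norm, Complex.sq_norm, normSq_apply, normSq_apply]
      simp only [sub_re, sub_im, ofReal_re, ofReal_im]; ring
    rw [this]
    nlinarith

theorem jen_gen {G : ℂ → ℂ} {R d : ℝ} (hR : 0 < R) (hG : AnalyticOnNhd ℂ G (closedBall (R : ℂ) R))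
    (hd : ‖G R - 1‖ ≤ d) (hd' : d ≤ 1 / 2) {J : ℝ → ℝ}
    (hJ : IntegrableOn J (Set.Ioc 0 (2 * Real.pi)))
    (hb : ∀ θ, ‖G (circleMap R R θ) - 1‖ ≤ J θ) (S : Finset ℂ) (v : ℂ → ℂ) (hv : Set.InjOn v S)
    (m : ℂ → ℕ) (hS : ∀ a ∈ S, v a ∈ closedBall (R : ℂ) R ∧ (m a : ℕ∞) ≤ analyticOrderAt G (v a)) :
    ∑ a ∈ S, m a * Real.log (R * ‖R - v a‖⁻¹) ≤
      (2 * Real.pi)⁻¹ * (∫ θ in Set.Ioc 0 (2 * Real.pi), J θ) + 2 * d := by
  classical
  have pi0 := Real.pi_pos
  have aR : |R| = R := abs_of_pos hR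
  have n1 : 1 - d ≤ ‖G R‖ := by
    have := norm_sub_norm_le (1 : ℂ) (G R)
    rw [norm_one, norm_sub_rev] at this
    linarith
  have d0 : 0 ≤ d := (norm_nonneg _).trans hd
  have n0 : 0 < ‖G R‖ := by linarith
  have g0 : G R ≠ 0 := norm_pos_iff.1 n0
  have hG' : AnalyticOnNhd ℂ G (closedBall (R : ℂ) |R|) := by rwa [aR]
  have jn := hG'.circleAverage_log_norm hR.ne' g0
  rw [aR] at jn
  have l1 : -(2 * d) ≤ Real.log ‖G R‖ := by
    refine le_trans ?_ (Real.one_sub_inv_le_log_of_pos n0)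
    have : ‖G R‖⁻¹ ≤ 1 + 2 * d := by
      rw [inv_le_iff_one_le_mul₀ n0]
      nlinarith
    linarith
  have l2 : Real.circleAverage (fun x => Real.log ‖G x‖) R R ≤
      (2 * Real.pi)⁻¹ * ∫ θ in Set.Ioc 0 (2 * Real.pi), J θ := by
    rw [Real.circleAverage_def, smul_eq_mul, intervalIntegral.integral_of_le (by positivity)]
    refine mul_le_mul_of_nonneg_left (setIntegral_mono ?_ hJ fun θ => le_trans ?_ (hb θ))
      (by positivity)
    · exact (intervalIntegrable_iff_integrableOn_Ioc_of_le (by positivity)).1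
        (hG'.mono sphere_subset_closedBall).meromorphicOn.circleIntegrable_log_norm
    · rcases eq_or_ne (G (circleMap R R θ)) 0 with c | c
      · simp [c]
      · have := norm_sub_norm_le (G (circleMap R R θ)) 1
        rw [norm_one] at this
        exact (Real.log_le_sub_one_of_pos (norm_pos_iff.2 c)).trans this
  have lg : ∀ u ∈ closedBall (R : ℂ) R, 0 ≤ Real.log (R * ‖R - u‖⁻¹) := fun u hu => by
    rcases (norm_nonneg ((R : ℂ) - u)).eq_or_lt with c | c
    · simp [← c]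
    · rw [mem_closedBall, dist_eq_norm, norm_sub_rev] at hu
      exact Real.log_nonneg (by rw [← div_eq_mul_inv, one_le_div c]; exact hu)
  have fs := (MeromorphicOn.divisor G (closedBall (R : ℂ) R)).finiteSupport
    (isCompact_closedBall _ _)
  have dn := MeromorphicOn.AnalyticOnNhd.divisor_nonneg hG
  have l3 : ∑ a ∈ S, m a * Real.log (R * ‖R - v a‖⁻¹) ≤ ∑ᶠ u,
      MeromorphicOn.divisor G (closedBall (R : ℂ) R) u * Real.log (R * ‖R - u‖⁻¹) := by
    rw [finsum_eq_sum_of_support_subset (s := fs.toFinset ∪ S.image v) _ (fun u hu => by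
      simp only [coe_union, Set.Finite.coe_toFinset]
      exact Or.inl fun c => hu (by simp [c]))]
    refine le_trans ?_ (sum_le_sum_of_subset_of_nonneg subset_union_right fun u _ _ => ?_)
    · rw [sum_image hv]
      refine sum_le_sum fun a ha => mul_le_mul_of_nonneg_right ?_ (lg _ (hS a ha).1)
      have o := hG.analyticOrderAt_ne_top_of_isPreconnected (convex_closedBall _ _).isPreconnected
        (mem_closedBall_self hR.le) (hS a ha).1 (by
          rw [(hG _ (mem_closedBall_self hR.le)).analyticOrderAt_eq_zero.2 g0]; simp)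
      rw [MeromorphicOn.AnalyticOnNhd.divisor_apply hG (hS a ha).1]
      have := (hS a ha).2
      obtain ⟨k, hk⟩ := ENat.ne_top_iff_exists.1 o
      rw [← hk] at this ⊢
      simpa using this
    · by_cases hu : u ∈ closedBall (R : ℂ) R
      · exact mul_nonneg (by exact_mod_cast dn u) (lg u hu)
      · simp [hu]
  linarith

section Circ
variable {κ : ℝ}

theorem jen {F : ℂ → ℂ} {δ y d : ℝ} (h : 1 ≤ κ) (h0 : 0 < δ) (h1 : δ * κ ≤ 1 / 8)
    (h2 : Real.exp (-κ) ≤ δ * κ) (hF : AnalyticOnNhd ℂ F {s | |s.im - y| < 1})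
    (hd : ‖F ((1 / 2 + δ / 2 : ℝ) + y * I + fi κ (RA κ)) - 1‖ ≤ d) (hd' : d ≤ 1 / 2)
    {J : ℝ → ℝ} (hJ : IntegrableOn J (Set.Ioc 0 (2 * Real.pi)))
    (hb : ∀ θ, ‖F ((1 / 2 + δ / 2 : ℝ) + y * I + fc κ θ) - 1‖ ≤ J θ) (S : Finset ℂ) (m : ℂ → ℕ)
    (hS : ∀ a ∈ S, 1 / 2 + δ ≤ a.re ∧ a.re ≤ 1 ∧ |a.im - y| ≤ δ / 2 ∧
      (m a : ℕ∞) ≤ analyticOrderAt F a) :
    ∑ a ∈ S, m a * Real.exp (4 * κ * (a.re - 1 / 2)) ≤ 2 * RA κ / (δ * κ) *
      ((2 * Real.pi)⁻¹ * (∫ θ in Set.Ioc 0 (2 * Real.pi), J θ) + 2 * d) := by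
  have k0 : 0 < κ := by linarith
  have R0 : 0 < RA κ := Real.exp_pos _
  have q0 : 0 < δ * κ := by positivity
  set s : ℂ := (1 / 2 + δ / 2 : ℝ) + y * I with hs
  let g : ℂ → ℂ := fun v => s + fi κ v
  have ga : ∀ v ∈ closedBall (RA κ : ℂ) (RA κ), AnalyticAt ℂ g v ∧ deriv g v ≠ 0 := fun v hv =>
    ⟨analyticAt_const.add (fi_an h hv).1, by
      simp only [g, deriv_const_add]; exact (fi_an h hv).2⟩
  have hG : AnalyticOnNhd ℂ (F ∘ g) (closedBall (RA κ : ℂ) (RA κ)) := fun v hv =>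
    (hF _ (by
      have := (fi_bd h hv).2.2
      simp only [g, hs, Set.mem_ofPred_eq, add_im, ofReal_im, mul_im, ofReal_re, I_im, I_re,
        mul_one, mul_zero, add_zero, zero_add, add_sub_cancel_left]
      linarith)).comp (ga v hv).1
  let β : ℂ → ℝ := fun a => 8 * κ * (a.re - 1 / 2 - δ / 2)
  let θ : ℂ → ℝ := fun a => 8 * κ * (a.im - y)
  let v : ℂ → ℂ := fun a => exp (β a + θ a * I) - 1
  have ht : ∀ a ∈ S, |θ a| ≤ 4 * (δ * κ) := fun a ha => by
    simp only [θ]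
    rw [abs_mul, abs_of_pos (by positivity : 0 < 8 * κ)]
    nlinarith [(hS a ha).2.2.1]
  have gv : ∀ a ∈ S, g (v a) = a := fun a ha => by
    have t := abs_le.1 (ht a ha)
    have := Real.two_le_pi
    have e : (β a + θ a * I : ℂ).im = θ a := by simp
    simp only [g, v, fi]
    rw [add_sub_cancel, log_exp (by rw [e]; linarith) (by rw [e]; linarith), hs]
    have : (κ : ℂ) ≠ 0 := ofReal_ne_zero.2 k0.ne'
    conv_rhs => rw [← re_add_im a]
    simp only [β, θ]
    push_cast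
    field_simp
    ring
  have pt := fun a (ha : a ∈ S) => jen_pt (β := β a) (θ := θ a) h h1 h2
    (by simp only [β]; nlinarith [(hS a ha).1]) (by simp only [β]; nlinarith [(hS a ha).2.1])
    (ht a ha)
  have vb : ∀ a ∈ S, v a ∈ closedBall (RA κ : ℂ) (RA κ) := fun a ha => by
    rw [mem_closedBall, dist_eq_norm, norm_sub_rev]
    refine (pow_le_pow_iff_left₀ (norm_nonneg _) R0.le two_ne_zero).1 ((pt a ha).2.trans ?_)
    have := Real.exp_pos (β a)
    exact sub_le_self _ (by positivity)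
  have key := jen_gen R0 hG hd hd' hJ hb S v
    (fun a ha b hb c => by rw [← gv a ha, c, gv b hb]) m fun a ha => ⟨vb a ha, by
      rw [analyticOrderAt_comp_of_deriv_ne_zero (ga _ (vb a ha)).1 (ga _ (vb a ha)).2, gv a ha]
      exact (hS a ha).2.2.2⟩
  refine le_trans ?_ (mul_le_mul_of_nonneg_left key (by positivity))
  rw [mul_sum]
  refine sum_le_sum fun a ha => ?_
  have l := jen_log R0 (pt a ha).1 (pt a ha).2
  have e : Real.exp (4 * κ * (a.re - 1 / 2)) ≤ Real.exp (β a) :=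
    Real.exp_le_exp.2 (by simp only [β]; nlinarith [(hS a ha).1])
  rw [mul_left_comm]
  refine mul_le_mul_of_nonneg_left (e.trans (le_trans (le_of_eq ?_)
    (mul_le_mul_of_nonneg_left l (by positivity)))) (Nat.cast_nonneg _)
  field_simp

end Circ

end Pool.Agent.Lib.MP_31bf45_nt.Lf
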