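import Pool.Agent.Lib.MP_31bf45_nt.Lf.Def
import Pool.Agent.Lib.MP_31bf45_nt.Cl.Fac

/-! Orders of reflected zeros, and the zeros off the line on both sides. -/

set_option autoImplicit false

namespace Pool.Agent.Lib.MP_31bf45_nt.Lf

open Complex Finset MeasureTheory Metric Om Cl Pool.Agent.Lib.MP_b09185_nt.Sh
open Pool.Agent.Lib.MP_b09185_nt.Mai (EE)
open scoped ComplexConjugate

theorem ord_fin {a : ℂ} (h : a ≠ 1) : analyticOrderAt riemannZeta a ≠ ⊤ :=
  analyticOn_riemannZeta.analyticOrderAt_ne_top_of_isPreconnected (x := 2)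
    (isConnected_compl_singleton_of_one_lt_rank (by simp) 1).isPreconnected (by simp) h (by
      rw [(analyticOn_riemannZeta 2 (by simp)).analyticOrderAt_eq_zero.2
        (riemannZeta_ne_zero_of_one_le_re (by norm_num))]
      exact ENat.zero_ne_top)

theorem ord_refl {a : ℂ} (h0 : 0 < a.re) (h1 : a.im ≠ 0) :
    analyticOrderNatAt riemannZeta a ≤ analyticOrderNatAt riemannZeta (1 - conj a) := by
  have a1 : a ≠ 1 := fun e => h1 (by simp [e])
  have s1 : 1 - conj a ≠ 1 := fun e => h1 (by simpa using congrArg im e)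
  have s0 : 1 - conj a ≠ 0 := fun e => h1 (by simpa using congrArg im e)
  obtain ⟨g, hg, -, e⟩ := (analyticOn_riemannZeta a a1).analyticOrderAt_ne_top.1 (ord_fin a1)
  rw [← ENat.natCast_le_natCast, Nat.cast_analyticOrderNatAt (ord_fin s1),
    natCast_le_analyticOrderAt (analyticOn_riemannZeta _ s1)]
  generalize analyticOrderNatAt riemannZeta a = n at e ⊢
  have t : Filter.Tendsto (fun z : ℂ => conj (1 - z)) (nhds (1 - conj a)) (nhds a) :=
    (continuous_conj.comp (continuous_const.sub continuous_id)).tendsto' _ _ (by simp)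
  have r : ∀ᶠ z : ℂ in nhds (1 - conj a), z.re < 1 :=
    (isOpen_lt continuous_re continuous_const).mem_nhds (by simpa using h0)
  refine ⟨fun z => (-1) ^ n * chi z * (conj ∘ g ∘ conj) (1 - z),
    analyticAt_iff_eventually_differentiableAt.2 ?_, ?_⟩
  · filter_upwards [r, t.eventually hg.eventually_analyticAt] with z h2 h3
    exact ((differentiableAt_const _).mul (chi_diffAt h2)).mul
      ((differentiableAt_conj_conj_iff.2 h3.differentiableAt).comp z (by fun_prop))
  · filter_upwards [r, t.eventually e, eventually_ne_nhds s0] with z h2 h3 h4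
    have := congrArg conj h3
    rw [riemannZeta_conj, conj_conj, smul_eq_mul, map_mul, map_pow, map_sub, conj_conj,
      show 1 - z - conj a = -1 * (z - (1 - conj a)) by ring, mul_pow] at this
    rw [zeta_refl h2 h4, this, smul_eq_mul, Function.comp_apply, Function.comp_apply]
    ring

theorem ord_sum {n : ℕ} {σ : Fin n → ℂ} {κ δ t B : ℝ} (hB : Bad κ δ t B) (T : Finset (Fin n))
    (h : ∀ i ∈ T, (1 / 2 + δ ≤ (σ i).re ∧ (σ i).re ≤ 1 ∧ |(σ i).im - t| ≤ 5) ∧
      #{j | σ j = σ i} ≤ analyticOrderNatAt riemannZeta (σ i)) :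
    ∑ i ∈ T, Real.exp (4 * κ * ((σ i).re - 1 / 2)) / (1 + κ ^ 2 * ((σ i).im - t) ^ 2) ≤ B := by
  rw [sum_comp (fun a : ℂ => Real.exp (4 * κ * (a.re - 1 / 2)) / (1 + κ ^ 2 * (a.im - t) ^ 2)) σ]
  refine le_trans (sum_le_sum fun a ha => ?_) (hB (T.image σ) fun a ha => ?_)
  · obtain ⟨i, hi, rfl⟩ := mem_image.1 ha
    rw [nsmul_eq_mul]
    refine mul_le_mul_of_nonneg_right (Nat.cast_le.2 (le_trans ?_ (h i hi).2)) (by positivity)
    exact card_le_card (filter_subset_filter _ (subset_univ T))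
  · obtain ⟨i, hi, rfl⟩ := mem_image.1 ha
    exact (h i hi).1

theorem bad {n : ℕ} {ρ : Fin n → ℂ} {κ δ t B : ℝ} (ht : 20 ≤ t) (h0 : 0 ≤ δ)
    (hρ : ∀ i, riemannZeta (ρ i) = 0 ∧ |(ρ i).im - t| ≤ 5)
    (ho : ∀ i, analyticOrderNatAt riemannZeta (ρ i) = #{j | ρ j = ρ i}) (hB : Bad κ δ t B) :
    ∑ i with δ < |(ρ i).re - 1 / 2|, Real.exp (4 * κ * |(ρ i).re - 1 / 2|) /
      (1 + κ ^ 2 * ((ρ i).im - t) ^ 2) ≤ 2 * B := by
  have i0 (i : Fin n) : (ρ i).im ≠ 0 := fun e => by
    have := (abs_le.1 (hρ i).2).1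
    linarith
  have r1 (i : Fin n) : (ρ i).re < 1 :=
    not_le.1 fun h => riemannZeta_ne_zero_of_one_le_re h (hρ i).1
  have r0 (i : Fin n) : 0 < (ρ i).re := by
    have := not_le.1 fun h => riemannZeta_ne_zero_of_one_le_re h (refl (hρ i).1 (i0 i))
    simp only [sub_re, one_re, conj_re] at this
    linarith
  rw [← sum_filter_add_sum_filter_not _ fun i => 1 / 2 ≤ (ρ i).re, two_mul]
  refine add_le_add (le_trans (le_of_eq (sum_congr rfl fun i hi => ?_))
    (ord_sum (σ := ρ) hB _ fun i hi => ?_)) (le_trans (le_of_eq (sum_congr rfl fun i hi => ?_))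
    (ord_sum (σ := fun i => 1 - conj (ρ i)) hB _ fun i hi => ?_))
  · rw [abs_of_nonneg (sub_nonneg.2 (mem_filter.1 hi).2)]
  · have := (mem_filter.1 (mem_filter.1 hi).1).2
    rw [abs_of_nonneg (sub_nonneg.2 (mem_filter.1 hi).2)] at this
    exact ⟨⟨by linarith, (r1 i).le, (hρ i).2⟩, (ho i).ge⟩
  · rw [abs_of_neg (sub_neg.2 (not_le.1 (mem_filter.1 hi).2))]
    simp only [sub_re, one_re, conj_re, sub_im, one_im, conj_im, zero_sub, neg_neg]
    ring_nf
  · have := (mem_filter.1 (mem_filter.1 hi).1).2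
    rw [abs_of_neg (sub_neg.2 (not_le.1 (mem_filter.1 hi).2))] at this
    refine ⟨?_, le_trans (le_of_eq ?_) ((ho i).ge.trans (ord_refl (r0 i) (i0 i)))⟩
    · simp only [sub_re, one_re, conj_re, sub_im, one_im, conj_im, zero_sub, neg_neg]
      exact ⟨by linarith, by linarith [r0 i], (hρ i).2⟩
    · simp only [sub_right_inj, (starRingEnd ℂ).injective.eq_iff]

end Pool.Agent.Lib.MP_31bf45_nt.Lf
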