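import Pool.Agent.Lib.MP_31bf45_nt.Lf.Sm
import Pool.Agent.Lib.MP_31bf45_nt.Lf.Ker
import Pool.Agent.Lib.MP_31bf45_nt.Lf.Circ

/-! The majorants of the number of zeros off the line have small weighted means. -/

set_option autoImplicit false

namespace Pool.Agent.Lib.MP_31bf45_nt.Lf

open Complex Finset MeasureTheory Metric Om Cl Pool.Agent.Lib.MP_b09185_nt.Sh
open Pool.Agent.Lib.MP_b09185_nt.Mai (EE)
open scoped ComplexConjugate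

theorem ph_log {Z : ℕ} (hZ : 3 ≤ Z) : 0 < Real.log Z :=
  Real.log_pos (by exact_mod_cast (by omega : 1 < Z))

theorem ph_QP (K : ℕ) {e : ℕ → ℂ} {g : ℕ → ℝ} (h : ∀ n, ‖e n‖ ≤ g n) (y : ℝ) :
    ‖QP K e y‖ ^ 2 ≤ (∑ n ∈ Icc 1 K, g n / √n) ^ 2 := by
  gcongr
  refine (norm_sum_le _ _).trans (sum_le_sum fun n _ => ?_)
  rw [norm_mul, norm_ee, mul_one, norm_div, norm_real, Real.norm_of_nonneg (Real.sqrt_nonneg _)]
  exact div_le_div_of_nonneg_right (h n) (Real.sqrt_nonneg _)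

theorem ph_sh {Z : ℕ} (hZ : 3 ≤ Z) (b : ℕ → ℂ) {σ : ℝ} (h : 1 / 2 ≤ σ) (n : ℕ) :
    ‖sh Z b σ n‖ ≤ ‖b n‖ := by
  unfold sh
  split_ifs with hn
  · rw [norm_mul, norm_real, Real.norm_of_nonneg (Real.exp_pos _).le]
    refine mul_le_of_le_one_right (norm_nonneg _) (Real.exp_le_one_iff.2 ?_)
    have : Real.log Z ≤ Real.log n :=
      Real.log_le_log (by exact_mod_cast (by omega : 0 < Z)) (by exact_mod_cast hn.le)
    exact mul_nonpos_of_nonpos_of_nonneg (by linarith) (by linarith)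
  · simp

theorem ph_add {r f q : ℝ → ℝ} (hr : Continuous r) (hf : Continuous f) (hq : Continuous q)
    {R M M' : ℝ} (r0 : ∀ x, 0 ≤ r x ∧ r x ≤ R) (f0 : ∀ x, 0 ≤ f x ∧ f x ≤ M)
    (q0 : ∀ x, 0 ≤ q x ∧ q x ≤ M') :
    ∫ x, r x * (f x + q x) * gs x = (∫ x, r x * f x * gs x) + ∫ x, r x * q x * gs x := by
  have i : ∀ {f : ℝ → ℝ} {M : ℝ}, Continuous f → (∀ x, 0 ≤ f x ∧ f x ≤ M) →
      Integrable fun x => r x * f x * gs x := fun {f M} hf f0 =>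
    co_int (R := R * M) (hr.mul hf) fun x => by
      rw [abs_of_nonneg (mul_nonneg (r0 x).1 (f0 x).1)]
      exact mul_le_mul (r0 x).2 (f0 x).2 (f0 x).1 ((r0 x).1.trans (r0 x).2)
  rw [← integral_add (i hf f0) (i hq q0)]
  congr 1
  funext x
  ring

theorem ph_one {r s : ℝ → ℝ} (hr : Continuous r) (hs : Continuous s) {R E : ℝ}
    (r0 : ∀ x, 0 ≤ r x ∧ r x ≤ R) (h1 : ∫ x, r x * gs x ≤ E) {K : ℕ} {e : ℕ → ℂ} {v : ℝ}
    (h2 : ∫ x, r x * ‖QP K e (s x + v)‖ ^ 2 * gs x ≤ E) :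
    ∫ x, r x * (1 + ‖QP K e (s x + v)‖ ^ 2) * gs x ≤ 2 * E := by
  obtain ⟨M, hM⟩ := co_QP_le K e
  have hq := co_QP K e
  rw [ph_add (f := fun _ => 1) (q := fun x => ‖QP K e (s x + v)‖ ^ 2) (M := 1) (M' := M) hr
    continuous_const (by fun_prop) r0 (fun _ => ⟨zero_le_one, le_rfl⟩)
    fun x => ⟨by positivity, hM _⟩]
  simp only [mul_one]
  linarith

theorem ph_in {r s : ℝ → ℝ} (hr : Continuous r) (hs : Continuous s) {R E A l δ : ℝ}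
    (r0 : ∀ x, 0 ≤ r x ∧ r x ≤ R) (h1 : ∫ x, r x * gs x ≤ E) {K : ℕ} {c : ℕ → ℂ}
    (h2 : ∀ v, ∫ x, r x * ‖QP K c (s x + v)‖ ^ 2 * gs x ≤ E) (hl : 0 < l) (h0 : 0 < δ)
    (hA : ∫ u, om l δ u ≤ A) :
    Sm r s (A * (2 * E)) fun y => ∫ u, (1 + ‖QP K c (y + u)‖ ^ 2) * om l δ u := by
  obtain ⟨M, hM⟩ := co_QP_le K c
  have hq := co_QP K c
  refine conv (Φ := fun u y => 1 + ‖QP K c (y + u)‖ ^ 2) (M := 1 + M) hr hs r0 (by fun_prop)
    (fun u y => ⟨by positivity, add_le_add le_rfl (hM _)⟩) (fun u v => ?_) (om_nonneg hl.le δ)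
    (om_int hl h0) hA
  simp only [add_assoc]
  exact ph_one hr hs r0 h1 (h2 _)

section Ph
variable {Z : ℕ} {b c : ℕ → ℂ} {κ δ : ℝ}

theorem Ph0_cont (hZ : 3 ≤ Z) (h0 : 0 < δ) :
    Continuous fun p : ℝ × ℝ => Ph0 Z b c δ p.1 p.2 := by
  have h1 := (ph_in (r := fun _ => 0) (s := id) (R := 0) (E := 0) (K := Z ^ 560) (c := c)
    continuous_const continuous_id (fun _ => ⟨le_rfl, le_rfl⟩) (by simp) (by simp) (ph_log hZ) h0
    le_rfl).1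
  have h2 : ∀ n, Continuous fun σ => sh Z b σ n := fun n => by
    unfold sh
    split_ifs <;> fun_prop
  have h3 : Continuous fun p : ℝ × ℝ => QP (Z ^ 560) (sh Z b p.1) p.2 := by
    unfold QP
    exact continuous_finsetSum _ fun n _ =>
      (((h2 n).comp continuous_fst).div_const _).mul ((cont_ee n).comp continuous_snd)
  exact (continuous_const.add (h3.norm.pow 2)).add (h1.comp continuous_snd)

theorem sm2 {r s : ℝ → ℝ} (hr : Continuous r) (hs : Continuous s) {R E : ℝ}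
    (r0 : ∀ x, 0 ≤ r x ∧ r x ≤ R) {g : ℕ → ℝ} (h1 : ∫ x, r x * gs x ≤ E)
    (h2 : ∀ e : ℕ → ℂ, (∀ n, ‖e n‖ ≤ g n) → ∀ v,
      ∫ x, r x * ‖QP (Z ^ 560) e (s x + v)‖ ^ 2 * gs x ≤ E) (hb : ∀ n, ‖b n‖ ≤ g n)
    (hc : ∀ n, ‖c n‖ ≤ g n) (hZ : 3 ≤ Z) (hκ : 1 ≤ κ) (h0 : 0 < δ) (hl : 1 ≤ δ * Real.log Z) :
    Sm r s (170 * E) (Ph2 Z b c κ δ) ∧ Sm r s (700 * E) (Ph3 Z b c κ δ) := by
  obtain ⟨cJ, ⟨M, hM⟩, hJ⟩ := ph_in hr hs r0 h1 (h2 c hc) (ph_log hZ) h0 (om_le h0 hl)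
  have hσ : ∀ θ, 1 / 2 ≤ 1 / 2 + δ / 2 + (fc κ θ).re := fun θ => by
    linarith [(fc_bd hκ θ).1]
  have hs' : ∀ θ n, ‖sh Z b (1 / 2 + δ / 2 + (fc κ θ).re) n‖ ≤ g n := fun θ n =>
    (ph_sh hZ b (hσ θ) n).trans (hb n)
  have hf := fc_cont κ
  have a2 : Sm r s (5 * (2 * E + 16 * (2 * E))) (Ph2 Z b c κ δ) := by
    refine conv (Φ := fun θ y => Ph0 Z b c δ (1 / 2 + δ / 2 + (fc κ θ).re) (y + (fc κ θ).im))
      (M := 1 + (∑ n ∈ Icc 1 (Z ^ 560), g n / √n) ^ 2 + M) hr hs r0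
      ((Ph0_cont hZ h0).comp (f := fun p : ℝ × ℝ =>
        (1 / 2 + δ / 2 + (fc κ p.1).re, p.2 + (fc κ p.1).im)) (by fun_prop))
      (fun θ y => ⟨add_nonneg (by positivity) (hM _).1,
        add_le_add (add_le_add le_rfl (ph_QP _ (hs' θ) _)) (hM _).2⟩) (fun θ v => ?_)
      (vp_nonneg κ) ((vp_cont κ).integrableOn_Icc.mono_set Set.Ioc_subset_Icc_self) (vp_le κ)
    have hq := co_QP (Z ^ 560) (sh Z b (1 / 2 + δ / 2 + (fc κ θ).re))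
    have e := ph_add (f := fun x => 1 + ‖QP (Z ^ 560) (sh Z b (1 / 2 + δ / 2 + (fc κ θ).re))
      (s x + (v + (fc κ θ).im))‖ ^ 2) hr (by fun_prop)
      (cJ.comp (hs.add (continuous_const (y := v + (fc κ θ).im)))) r0
      (fun x => ⟨by positivity, add_le_add le_rfl (ph_QP _ (hs' θ) _)⟩) fun x => hM _
    have k := add_le_add (ph_one hr hs r0 h1 (h2 _ (hs' θ) (v + (fc κ θ).im)))
      (hJ (v + (fc κ θ).im))
    simp only [add_assoc (s _) v]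
    exact e.trans_le k
  rw [show 5 * (2 * E + 16 * (2 * E)) = 170 * E by ring] at a2
  refine ⟨a2, ?_⟩
  obtain ⟨c2, ⟨M2, hM2⟩, hE2⟩ := a2
  have hκ0 : 0 < κ := by linarith
  rw [show 700 * E = 70 / 17 * (170 * E) by ring]
  refine conv (Φ := fun v t => Ph2 Z b c κ δ (t + v)) (M := M2) hr hs r0 (by fun_prop)
    (fun _ _ => hM2 _) (fun u v => ?_) (fun v => by positivity) (cau_int hκ0).1
    ((cau_int hκ0).2.trans_le (by linarith [Real.pi_le_four]))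
  simp only [add_assoc]
  exact hE2 _

theorem Ph2_reg (hZ : 3 ≤ Z) (hκ : 1 ≤ κ) (h0 : 0 < δ) (hl : 1 ≤ δ * Real.log Z) :
    Continuous (Ph2 Z b c κ δ) ∧ ∃ M, ∀ y, 0 ≤ Ph2 Z b c κ δ y ∧ Ph2 Z b c κ δ y ≤ M := by
  have h := (sm2 (r := fun _ => 0) (s := id) (R := 0) (E := 0) (b := b) (c := c)
    (g := fun n => ‖b n‖ + ‖c n‖) continuous_const continuous_id (fun _ => ⟨le_rfl, le_rfl⟩)
    (by simp) (by simp) (fun n => le_add_of_nonneg_right (norm_nonneg _))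
    (fun n => le_add_of_nonneg_left (norm_nonneg _)) hZ hκ h0 hl).1
  exact ⟨h.1, h.2.1⟩

end Ph

end Pool.Agent.Lib.MP_31bf45_nt.Lf
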