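import Pool.Agent.Lib.MP_31bf45_nt.Lf.Ker

/-! From short windows to a weighted sum. -/

set_option autoImplicit false

namespace Pool.Agent.Lib.MP_31bf45_nt.Lf

open Complex Finset MeasureTheory Metric Om Cl Pool.Agent.Lib.MP_b09185_nt.Sh
open Pool.Agent.Lib.MP_b09185_nt.Mai (EE)
open scoped ComplexConjugate

theorem win {κ δ t : ℝ} (hκ : 1 ≤ κ) (h0 : 0 < δ) (h1 : δ * κ ≤ 1 / 8) {S : Finset ℂ} {m : ℂ → ℝ}
    (hS : ∀ a ∈ S, 0 ≤ m a ∧ |a.im - t| ≤ 5) {J : ℝ → ℝ} (hJ : Continuous J) {M : ℝ}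
    (hM : ∀ y, 0 ≤ J y ∧ J y ≤ M)
    (h : ∀ y, |y - t| ≤ 6 → ∑ a ∈ S with |a.im - y| ≤ δ / 2, m a ≤ J y) :
    ∑ a ∈ S, m a / (1 + κ ^ 2 * (a.im - t) ^ 2) ≤
      2 / (δ * κ) * ∫ v, J (t + v) * (κ / (1 + κ ^ 2 * v ^ 2)) := by
  have k0 : 0 < κ := by linarith
  have d1 : δ ≤ 1 / 8 := by nlinarith
  let f : ℂ → ℝ → ℝ := fun a => (Set.Icc (a.im - t - δ / 2) (a.im - t + δ / 2)).indicator
    fun _ => m a * (κ / (2 * (1 + κ ^ 2 * (a.im - t) ^ 2)))
  have fi' : ∀ a, Integrable (f a) := fun a =>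
    (integrable_indicator_iff measurableSet_Icc).2 (integrableOn_const (by simp))
  have fv : ∀ a, ∫ v, f a v = δ * (m a * (κ / (2 * (1 + κ ^ 2 * (a.im - t) ^ 2)))) := fun a => by
    simp only [f]
    rw [integral_indicator_const _ measurableSet_Icc, Real.volume_real_Icc_of_le (by linarith),
      smul_eq_mul]
    congr 1; ring
  have Ji : Integrable fun v => J (t + v) * (κ / (1 + κ ^ 2 * v ^ 2)) :=
    (cau_int k0).1.bdd_mul (c := M) (by fun_prop) (Filter.Eventually.of_forall fun v => by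
      rw [Real.norm_of_nonneg (hM _).1]; exact (hM _).2)
  have pw : ∀ v, ∑ a ∈ S, f a v ≤ J (t + v) * (κ / (1 + κ ^ 2 * v ^ 2)) := fun v => by
    have s1 : ∑ a ∈ S with |a.im - (t + v)| ≤ δ / 2, m a ≤ J (t + v) := by
      by_cases c : |v| ≤ 6
      · exact h _ (by rwa [add_sub_cancel_left])
      · rw [sum_eq_zero]
        · exact (hM _).1
        · intro a ha
          obtain ⟨a1, a2⟩ := mem_filter.1 ha
          have := abs_le.1 (hS a a1).2
          have := abs_le.1 a2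
          exact absurd (abs_le.2 ⟨by linarith, by linarith⟩) c
    refine le_trans ?_ (mul_le_mul_of_nonneg_right s1 (by positivity))
    rw [sum_filter, sum_mul]
    refine sum_le_sum fun a ha => ?_
    simp only [f, Set.indicator_apply, Set.mem_Icc]
    split_ifs with c1 c2 c2
    · refine mul_le_mul_of_nonneg_left (div_le_div_of_nonneg_left k0.le (by positivity) ?_)
        (hS a ha).1
      have e1 : (v - (a.im - t)) ^ 2 ≤ (δ / 2) ^ 2 := sq_le_sq' (by linarith) (by linarith)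
      have e2 : v ^ 2 ≤ 2 * (a.im - t) ^ 2 + 2 * (δ / 2) ^ 2 := by
        nlinarith [sq_nonneg (v - 2 * (a.im - t))]
      have e3 : κ ^ 2 * v ^ 2 ≤ κ ^ 2 * (2 * (a.im - t) ^ 2 + 2 * (δ / 2) ^ 2) := by gcongr
      have e4 : (δ * κ) ^ 2 ≤ (1 / 8) ^ 2 := by gcongr
      nlinarith
    · exact absurd (abs_le.2 ⟨by linarith, by linarith⟩) c2
    · have := (hS a ha).1
      positivity
    · simp
  have key := integral_mono (integrable_finsetSum S fun a _ => fi' a) Ji pw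
  rw [integral_finsetSum S fun a _ => fi' a] at key
  refine le_trans (le_of_eq ?_) (mul_le_mul_of_nonneg_left key (by positivity))
  rw [mul_sum]
  refine sum_congr rfl fun a _ => ?_
  rw [fv]
  field_simp

end Pool.Agent.Lib.MP_31bf45_nt.Lf
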