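import Pool.Agent.Lib.MP_31bf45_nt.Lf.Rep
import Pool.Agent.Lib.MP_31bf45_nt.Lf.Jen
import Pool.Agent.Lib.MP_31bf45_nt.Lf.Ph
import Pool.Agent.Lib.MP_31bf45_nt.Lf.Win
import Pool.Agent.Lib.MP_31bf45_nt.Lf.Ord

/-! The weighted count of the zeros to the right of the line. -/

set_option autoImplicit false

namespace Pool.Agent.Lib.MP_31bf45_nt.Lf

open Complex Finset MeasureTheory Metric Om Cl Pool.Agent.Lib.MP_b09185_nt.Sh
open Pool.Agent.Lib.MP_b09185_nt.Mai (EE)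
open scoped ComplexConjugate

theorem cnt_nn {Z : ℕ} {b c : ℕ → ℂ} {δ σ y : ℝ} : 0 ≤ Ph0 Z b c δ σ y :=
  add_nonneg (by positivity) (integral_nonneg fun u =>
    mul_nonneg (by positivity) (om_nonneg (Real.log_natCast_nonneg Z) δ u))

theorem cnt_one {Z : ℕ} {a : ℕ → ℝ} {b c : ℕ → ℂ} {C κ δ y : ℝ} (hZ : 4 ≤ Z) (ha : Mo Z a)
    (C1 : 1 ≤ C) (hκ : 1 ≤ κ) (h0 : 0 < δ) (h1 : δ * κ ≤ 1 / 8) (h2 : Real.exp (-κ) ≤ δ * κ)
    (h4 : 16 * κ ≤ Real.log Z) (y1 : (Z : ℝ) ^ 900 + 1 ≤ y) (y2 : y + 1 ≤ (Z : ℝ) ^ 1000)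
    (hb : ∀ σ y : ℝ, 1 / 2 + δ / 2 ≤ σ → σ ≤ 5 → (Z : ℝ) ^ 900 ≤ y → y ≤ (Z : ℝ) ^ 1000 →
      ‖DM Z a (σ + y * I)‖ ≤ C / Z + C * Real.exp (-Real.log Z * (σ - 1 / 2)) * Ph0 Z b c δ σ y)
    (S : Finset ℂ) (hS : ∀ s ∈ S, 1 / 2 + δ ≤ s.re ∧ s.re ≤ 1 ∧ |s.im - y| ≤ δ / 2) :
    ∑ s ∈ S, analyticOrderNatAt riemannZeta s * Real.exp (4 * κ * (s.re - 1 / 2)) ≤
      2 / (δ * κ) * (RA κ * (C + 4) / Z +
        C * Real.exp (-Real.log Z * (δ / 2)) * Ph2 Z b c κ δ y) := by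
  have z4 : (4 : ℝ) ≤ Z := by exact_mod_cast hZ
  have p0 : (0 : ℝ) < (Z : ℝ) ^ 900 := by positivity
  generalize (Z : ℝ) ^ 900 = A at *
  generalize (Z : ℝ) ^ 1000 = A' at *
  have d1 : δ ≤ 1 / 8 := by nlinarith
  have R0 : 0 < RA κ := Real.exp_pos _
  have n1 {s : ℂ} (h : |s.im - y| < 1) : s ≠ 1 := fun e => by
    have := (abs_lt.1 h).1
    rw [e, one_im] at this
    linarith
  have aP (s : ℂ) : AnalyticAt ℂ (PL (Z ^ 2) a) s := (PL_diff _ a).analyticAt s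
  have ci : Continuous fun θ => Ph0 Z b c δ (1 / 2 + δ / 2 + (fc κ θ).re) (y + (fc κ θ).im) *
      vp κ θ := ((Ph0_cont (b := b) (c := c) (by omega) h0).comp
    ((continuous_const.add (continuous_re.comp (fc_cont κ))).prodMk
      (continuous_const.add (continuous_im.comp (fc_cont κ))))).mul (vp_cont κ)
  obtain ⟨E, hE⟩ : ∃ E, E = Real.exp (-Real.log Z * (δ / 2)) := ⟨_, rfl⟩
  have E0 : 0 < E := hE ▸ Real.exp_pos _
  have k := jen (F := riemannZeta * PL (Z ^ 2) a) (y := y) (d := 2 / Z) hκ h0 h1 h2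
    (fun s hs => (analyticOn_riemannZeta s (n1 hs)).mul (aP s))
    (far (by omega) ha (by
      have := fi_c hκ
      simp only [add_re, ofReal_re, mul_re, I_re, ofReal_im, I_im]
      linarith))
    (by rw [div_le_iff₀ (by linarith)]; linarith)
    (J := fun θ => C / Z + C * E / RA κ * (Ph0 Z b c δ (1 / 2 + δ / 2 + (fc κ θ).re)
      (y + (fc κ θ).im) * vp κ θ))
    (continuous_const.add (continuous_const.mul ci)).integrableOn_Ioc (fun θ => ?_) S
    (analyticOrderNatAt riemannZeta) fun s hs => ?_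
  · rw [integral_add continuous_const.integrableOn_Ioc (ci.integrableOn_Ioc.const_mul _),
      integral_const_mul, setIntegral_const, Real.volume_real_Ioc_of_le (by positivity), sub_zero,
      smul_eq_mul, ← Ph2] at k
    have P0 : 0 ≤ Ph2 Z b c κ δ y := integral_nonneg fun θ => mul_nonneg cnt_nn (vp_nonneg κ θ)
    rw [← hE]
    generalize Ph2 Z b c κ δ y = P at *
    refine k.trans ?_
    have e : 2 * RA κ / (δ * κ) * ((2 * Real.pi)⁻¹ * (2 * Real.pi * (C / Z) + C * E / RA κ * P) +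
        2 * (2 / Z)) = 2 / (δ * κ) * (RA κ * (C + 4) / Z + (2 * Real.pi)⁻¹ * (C * E * P)) := by
      field_simp
      ring
    rw [e]
    exact mul_le_mul_of_nonneg_left (add_le_add le_rfl (mul_le_of_le_one_left (by positivity)
      (inv_le_one_of_one_le₀ (by linarith [Real.pi_gt_three])))) (by positivity)
  · obtain ⟨f0, f1, f2⟩ := fc_bd hκ θ
    have f3 := abs_le.1 f2
    have := hb (1 / 2 + δ / 2 + (fc κ θ).re) (y + (fc κ θ).im) (by linarith) (by linarith)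
      (by linarith) (by linarith)
    have e : ((1 / 2 + δ / 2 : ℝ) + y * I + fc κ θ : ℂ) =
        (1 / 2 + δ / 2 + (fc κ θ).re : ℝ) + (y + (fc κ θ).im : ℝ) * I := by
      apply Complex.ext <;> simp
    rw [e]
    refine this.trans (add_le_add le_rfl ?_)
    have v := mul_le_mul_of_nonneg_left (vp_ge hκ h4 θ) (cnt_nn (Z := Z) (b := b) (c := c)
      (δ := δ) (σ := 1 / 2 + δ / 2 + (fc κ θ).re) (y := y + (fc κ θ).im))
    refine le_trans (le_of_eq ?_) (mul_le_mul_of_nonneg_left v (by positivity))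
    rw [show -Real.log Z * (1 / 2 + δ / 2 + (fc κ θ).re - 1 / 2) =
      -Real.log Z * (δ / 2) + -Real.log Z * (fc κ θ).re by ring, Real.exp_add, ← hE]
    field_simp
  · obtain ⟨s1, s2, s3⟩ := hS s hs
    have s4 := n1 (s3.trans_lt (by linarith))
    refine ⟨s1, s2, s3, ?_⟩
    rw [analyticOrderAt_mul (analyticOn_riemannZeta s s4) (aP s),
      Nat.cast_analyticOrderNatAt (ord_fin s4)]
    exact le_self_add

theorem cnt : ∃ C : ℝ, 1 ≤ C ∧ ∀ Z : ℕ, 4 ≤ Z → ∀ a V : ℕ → ℝ, Mo Z a → Hd Z V → ∃ b : ℕ → ℂ,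
    (∀ n, ‖b n‖ ≤ |c1 a n|) ∧ ∀ κ δ t : ℝ, 1 ≤ κ → 0 < δ → δ * κ ≤ 1 / 8 →
      Real.exp (-κ) ≤ δ * κ → 1 ≤ δ * Real.log Z → 16 * κ ≤ Real.log Z →
      (Z : ℝ) ^ 900 + 7 ≤ t → t + 7 ≤ (Z : ℝ) ^ 1000 →
      Bad κ δ t (C / (δ * κ) ^ 2 * (RA κ / Z + Real.exp (-Real.log Z * (δ / 2)) *
        Ph3 Z b (fun n => c2 a V n) κ δ t)) := by
  obtain ⟨C, C1, hC⟩ := rep
  refine ⟨16 * (C + 4), by linarith, fun Z hZ a V ha hV => ?_⟩
  obtain ⟨b, b1, hb⟩ := hC Z (by omega) a V ha hV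
  refine ⟨b, b1, fun κ δ t hκ h0 h1 h2 h3 h4 t1 t2 S hS => ?_⟩
  obtain ⟨pc, M, hM⟩ := Ph2_reg (b := b) (c := fun n => c2 a V n) (by omega) hκ h0 h3
  have R0 : 0 < RA κ := Real.exp_pos _
  have z0 : (0 : ℝ) < Z := by positivity
  obtain ⟨ki, ke⟩ := cau_int (by linarith : 0 < κ)
  have k := win (t := t) hκ h0 h1 (S := S)
    (m := fun s => analyticOrderNatAt riemannZeta s * Real.exp (4 * κ * (s.re - 1 / 2)))
    (fun s hs => ⟨by positivity, (hS s hs).2.2⟩)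
    (J := fun y => 2 / (δ * κ) * (RA κ * (C + 4) / Z + C * Real.exp (-Real.log Z * (δ / 2)) *
      Ph2 Z b (fun n => c2 a V n) κ δ y))
    (continuous_const.mul (continuous_const.add (continuous_const.mul pc)))
    (M := 2 / (δ * κ) * (RA κ * (C + 4) / Z + C * Real.exp (-Real.log Z * (δ / 2)) * M))
    (fun y => ⟨by have := (hM y).1; positivity, by have := (hM y).2; gcongr⟩) fun y hy =>
      cnt_one hZ ha C1 hκ h0 h1 h2 h4 (by linarith [(abs_le.1 hy).1])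
        (by linarith [(abs_le.1 hy).2]) (fun σ y => hb δ σ y h0) _ fun s hs =>
          ⟨(hS s (mem_filter.1 hs).1).1, (hS s (mem_filter.1 hs).1).2.1, (mem_filter.1 hs).2⟩
  have pi : Integrable fun v => Ph2 Z b (fun n => c2 a V n) κ δ (t + v) *
      (κ / (1 + κ ^ 2 * v ^ 2)) :=
    ki.bdd_mul (c := M) (pc.comp (continuous_const.add continuous_id)).aestronglyMeasurable
      (Filter.Eventually.of_forall fun v => by
        rw [Real.norm_of_nonneg (hM _).1]; exact (hM _).2)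
  have P0 : 0 ≤ Ph3 Z b (fun n => c2 a V n) κ δ t :=
    integral_nonneg fun v => mul_nonneg (hM _).1 (by positivity)
  simp only [mul_assoc (2 / (δ * κ)), add_mul, mul_assoc (C * Real.exp _)] at k
  rw [integral_const_mul, integral_add (ki.const_mul _) (pi.const_mul _), integral_const_mul,
    integral_const_mul, ke, ← Ph3] at k
  refine le_trans (le_of_eq (sum_congr rfl fun s _ => (mul_div_assoc _ _ _).symm)) (k.trans ?_)
  have E0 := Real.exp_pos (-Real.log Z * (δ / 2))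
  generalize Ph3 Z b (fun n => c2 a V n) κ δ t = P, Real.exp (-Real.log Z * (δ / 2)) = E at *
  have e : 2 / (δ * κ) * (2 / (δ * κ) * (RA κ * (C + 4) / Z * Real.pi + C * E * P)) =
      1 / (δ * κ) ^ 2 * (4 * Real.pi * (C + 4) * (RA κ / Z) + 4 * C * (E * P)) := by
    field_simp
    ring
  rw [e, div_eq_mul_one_div (16 * (C + 4)), mul_comm (16 * (C + 4)), mul_assoc _ (16 * (C + 4)),
    mul_add (16 * (C + 4))]
  gcongr
  · linarith [Real.pi_le_four]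
  · norm_num
  · linarith

end Pool.Agent.Lib.MP_31bf45_nt.Lf
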