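import Pool.Agent.Lib.MP_31bf45_nt.Cl.Def
import Pool.Agent.Lib.MP_b09185_nt.ShDet

/-! Zeros off the line counted without loss of a logarithm: definitions. -/

set_option autoImplicit false

namespace Pool.Agent.Lib.MP_31bf45_nt.Lf

open Complex Finset MeasureTheory Om Pool.Agent.Lib.MP_b09185_nt.Sh
open Pool.Agent.Lib.MP_b09185_nt.Mai (EE)

noncomputable section

/-- a sieve weight -/
def GG (r : ℝ) (n : ℕ) : ℝ := ∏ p ∈ n.primeFactors, min 2 (r * Real.log p)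

/-- admissible majorants of coefficients -/
def Gd (K : ℕ) (X : ℝ) (g : ℕ → ℝ) : Prop := (∀ n, 0 ≤ g n) ∧
  (∀ m n, m ≠ 0 → n ≠ 0 → g (m * n) ≤ #m.divisors * g n) ∧ ∑ n ∈ Icc 1 K, g n ^ 2 / n ≤ X

/-- coefficients of a mollifier -/
def Mo (Z : ℕ) (a : ℕ → ℝ) : Prop := (∀ d, |a d| ≤ 1) ∧
  (∀ d, d ≤ Z → a d = ArithmeticFunction.moebius d) ∧ ∀ d, Z ^ 2 < d → a d = 0

/-- coefficients of the head of the series of zeta -/
def Hd (Z : ℕ) (V : ℕ → ℝ) : Prop := (∀ e, 0 ≤ V e ∧ V e ≤ 1) ∧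
  (∀ e, e ≤ Z ^ 500 → V e = 1) ∧ ∀ e, Z ^ 550 < e → V e = 0

/-- a Dirichlet polynomial with real coefficients -/
def PL (N : ℕ) (a : ℕ → ℝ) (s : ℂ) : ℂ := ∑ d ∈ Icc 1 N, a d * (d : ℂ) ^ (-s)

/-- coefficients of zeta times the mollifier -/
def c1 (a : ℕ → ℝ) (n : ℕ) : ℝ := ∑ d ∈ n.divisors, a d

/-- coefficients of the head times the mollifier -/
def c2 (a V : ℕ → ℝ) (n : ℕ) : ℝ := ∑ x ∈ n.divisorsAntidiagonal, V x.1 * a x.2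

/-- the mollified zeta function minus one -/
def DM (Z : ℕ) (a : ℕ → ℝ) (s : ℂ) : ℂ := riemannZeta s * PL (Z ^ 2) a s - 1

/-- `(exp z - 1) / z` at `z = l w` -/
def EW (l : ℝ) (w : ℂ) : ℂ := dslope exp 0 (l * w)

/-- first weight -/
def W1 (l x : ℝ) : ℂ :=
  ∫ u : ℝ, ((2 : ℝ) + u * I)⁻¹ * EW l ((2 : ℝ) + u * I) * EE x ((2 : ℝ) + u * I)

/-- second weight -/
def W2 (l x : ℝ) : ℂ := ∫ u : ℝ, EW l ((2 : ℝ) + u * I) * EE x ((2 : ℝ) + u * I)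

/-- the integral on the line `re w = c` -/
def II (Z : ℕ) (a : ℕ → ℝ) (s : ℂ) (c : ℝ) : ℂ := ∫ u : ℝ, DM Z a (s + (c + u * I)) *
  Dt.kk s (c + u * I) * EW (Real.log Z) (c + u * I) * EE (Dt.yy Z) (c + u * I)

/-- the same with the reflected head in place of zeta -/
def JJ (Z : ℕ) (a V : ℕ → ℝ) (s : ℂ) (c : ℝ) : ℂ := ∫ u : ℝ, chi (s + (c + u * I)) *
  PL (Z ^ 550) V (1 - (s + (c + u * I))) * PL (Z ^ 2) a (s + (c + u * I)) *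
  Dt.kk s (c + u * I) * EW (Real.log Z) (c + u * I) * EE (Dt.yy Z) (c + u * I)

/-- the weight on the critical line -/
def om (l δ u : ℝ) : ℝ := (2 / (l * (δ ^ 2 / 4 + u ^ 2)) + 1) * gs u

/-- coefficients moved to the critical line -/
def sh (Z : ℕ) (b : ℕ → ℂ) (σ : ℝ) (n : ℕ) : ℂ :=
  if Z < n then b n * (Real.exp (-(σ - 1 / 2) * (Real.log n - Real.log Z)) : ℝ) else 0

/-- radius of the disc -/
def RA (κ : ℝ) : ℝ := Real.exp (32 * κ)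

/-- the map from the disc to a long thin region -/
def fi (κ : ℝ) (v : ℂ) : ℂ := log (1 + v) / (8 * κ)

/-- its values on the circle -/
def fc (κ θ : ℝ) : ℂ := fi κ (circleMap (RA κ) (RA κ) θ)

/-- the weight on the circle -/
def vp (κ θ : ℝ) : ℝ := RA κ / ‖1 + circleMap (RA κ) (RA κ) θ‖ ^ 2

/-- majorant at a point -/
def Ph0 (Z : ℕ) (b c : ℕ → ℂ) (δ σ y : ℝ) : ℝ := 1 + ‖QP (Z ^ 560) (sh Z b σ) y‖ ^ 2 +
  ∫ u, (1 + ‖QP (Z ^ 560) c (y + u)‖ ^ 2) * om (Real.log Z) δ u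

/-- majorant on the circle -/
def Ph2 (Z : ℕ) (b c : ℕ → ℂ) (κ δ y : ℝ) : ℝ := ∫ θ in Set.Ioc 0 (2 * Real.pi),
  Ph0 Z b c δ (1 / 2 + δ / 2 + (fc κ θ).re) (y + (fc κ θ).im) * vp κ θ

/-- majorant of the count -/
def Ph3 (Z : ℕ) (b c : ℕ → ℂ) (κ δ t : ℝ) : ℝ :=
  ∫ v, Ph2 Z b c κ δ (t + v) * (κ / (1 + κ ^ 2 * v ^ 2))

/-- bounded continuous functions with small weighted means -/
def Sm (r s : ℝ → ℝ) (E : ℝ) (Φ : ℝ → ℝ) : Prop := Continuous Φ ∧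
  (∃ M, ∀ y, 0 ≤ Φ y ∧ Φ y ≤ M) ∧ ∀ v, ∫ x, r x * Φ (s x + v) * gs x ≤ E

/-- the weighted number of zeros off the line near the height `t` is at most `B` -/
def Bad (κ δ t B : ℝ) : Prop := ∀ S : Finset ℂ,
  (∀ a ∈ S, 1 / 2 + δ ≤ a.re ∧ a.re ≤ 1 ∧ |a.im - t| ≤ 5) →
    ∑ a ∈ S, analyticOrderNatAt riemannZeta a *
      (Real.exp (4 * κ * (a.re - 1 / 2)) / (1 + κ ^ 2 * (a.im - t) ^ 2)) ≤ B

end

end Pool.Agent.Lib.MP_31bf45_nt.Lf
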