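import Pool.Agent.Lib.MP_31bf45_nt.Cl.Dom

/-! The error made by a zero far from the line. -/

set_option autoImplicit false

namespace Pool.Agent.Lib.MP_31bf45_nt.Lf

open Complex Finset MeasureTheory Metric Om Cl

theorem dom_KK {κ α : ℝ} (h : 0 < κ) (ha : |α| ≤ 1 / 2) (u : ℝ) :
    ‖Cl.KK κ (α + u * I)‖ ≤ 8 * Real.exp (4 * κ * |α|) * dom_J κ u := by
  have e0 : ((α : ℂ) + u * I).re = α := by simp
  have n0 := norm_nonneg (BB κ (α + u * I))
  obtain ⟨E, hE⟩ : ∃ E, E = Real.exp (κ * |α| / 2) := ⟨_, rfl⟩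
  have b1 := BB_le h.le (α + u * I)
  have b2 : ‖BB κ (α + u * I)‖ * (κ * |u|) ≤ 2 * E := by
    have e := congrArg norm (BB_mul κ (α + u * I))
    rw [norm_mul, norm_div, norm_mul, norm_real, Real.norm_of_nonneg h.le, Complex.norm_two] at e
    have e3 := sinh_le (κ * (α + u * I) / 2)
    rw [div_ofNat_re, re_ofReal_mul, abs_div, abs_mul, abs_of_pos h, abs_two, e0, ← hE] at e3
    have b3 : |u| ≤ ‖(α : ℂ) + u * I‖ := by simpa using abs_im_le_norm ((α : ℂ) + u * I)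
    linarith [mul_le_mul_of_nonneg_left (mul_le_mul_of_nonneg_left b3 h.le) n0]
  rw [e0, ← hE] at b1
  have b5 := pow_le_pow_left₀ (by positivity) b2 2
  have b6 := pow_le_pow_left₀ n0 b1 2
  rw [mul_pow, mul_pow, sq_abs] at b5
  have k2 : ‖BB κ (α + u * I)‖ ^ 2 ≤ 8 * E ^ 2 / (1 + κ ^ 2 * u ^ 2) := by
    rw [le_div_iff₀ (by positivity)]; linarith
  have k1 : E ^ 2 * ‖kk √(10 * κ) (α + u * I)‖ ≤
      Real.exp (4 * κ * |α|) * Real.exp (-(5 * κ) * u ^ 2) := by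
    rw [norm_kk, Real.sq_sqrt (by positivity), hE, ← Real.exp_nat_mul, ← Real.exp_add,
      ← Real.exp_add, Real.exp_le_exp, ← sq_abs α]
    have := mul_le_mul_of_nonneg_left ha (mul_nonneg h.le (abs_nonneg α))
    have := mul_nonneg h.le (abs_nonneg α)
    push_cast
    linarith
  rw [Cl.KK, norm_mul, norm_pow]
  calc _ ≤ 8 * E ^ 2 / (1 + κ ^ 2 * u ^ 2) * ‖kk √(10 * κ) (α + u * I)‖ := by gcongr
    _ = 8 * (E ^ 2 * ‖kk √(10 * κ) (α + u * I)‖) / (1 + κ ^ 2 * u ^ 2) := by ring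
    _ ≤ 8 * (Real.exp (4 * κ * |α|) * Real.exp (-(5 * κ) * u ^ 2)) / (1 + κ ^ 2 * u ^ 2) := by
        gcongr
    _ = _ := by unfold dom_J; ring

theorem dom : ∃ C : ℝ, 0 ≤ C ∧ ∀ (κ : ℝ) (a : ℂ), 80 ≤ κ → |a.re| ≤ 1 / 2 → |a.im| ≤ 5 →
    |(∫ τ in (-(40 / κ))..(40 / κ), (Cl.KK κ (a - τ * I)).re) - WW κ a.im| ≤
      C / κ * (Real.exp (4 * κ * |a.re|) / (1 + κ ^ 2 * a.im ^ 2)) := by
  obtain ⟨B, hB⟩ : ∃ B : ℝ, B = 3201 * Real.exp 2400 := ⟨_, rfl⟩
  have B0 : 0 < B := by rw [hB]; positivity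
  refine ⟨1280 * B, by positivity, fun κ a hκ hre him => ?_⟩
  have h0 : 0 < κ := by linarith
  have w0 : 0 < 40 / κ := by positivity
  have w1 : 40 / κ ≤ 1 := by rw [div_le_one h0]; linarith
  have hK := (KK_diff κ).continuous
  have hk := kr_cont κ
  have c1 : Continuous fun τ : ℝ => (Cl.KK κ (a - τ * I)).re :=
    continuous_re.comp (hK.comp (by fun_prop))
  have c2 : Continuous fun τ : ℝ => kr κ (a.im - τ) := by fun_prop
  have E1 : 1 ≤ Real.exp (4 * κ * |a.re|) := Real.one_le_exp (by positivity)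
  have J1 : dom_J κ a.im ≤ 1 / (1 + κ ^ 2 * a.im ^ 2) :=
    div_le_div_of_nonneg_right (Real.exp_le_one_iff.2 (by nlinarith [sq_nonneg a.im]))
      (by positivity)
  have up : ‖∫ τ in (-(40 / κ))..(40 / κ), ((Cl.KK κ (a - τ * I)).re - kr κ (a.im - τ))‖ ≤
      16 * Real.exp (4 * κ * |a.re|) * (B * (1 / (1 + κ ^ 2 * a.im ^ 2))) *
        |40 / κ - -(40 / κ)| := by
    refine intervalIntegral.norm_integral_le_of_norm_le_const fun τ hτ => ?_
    rw [Set.uIoc_of_le (by linarith)] at hτ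
    have hτ' : |τ| ≤ 40 / κ := abs_le.2 ⟨hτ.1.le, hτ.2⟩
    have e : a - τ * I = (a.re : ℝ) + (a.im - τ : ℝ) * I := by
      apply Complex.ext <;> simp [sub_eq_add_neg]
    have t1 := (abs_re_le_norm _).trans (dom_KK h0 hre (a.im - τ))
    have t2 := dom_three (κ := κ) (u := a.im - τ) (v := a.im) (by linarith)
      ((abs_sub a.im τ).trans (by linarith)) (by linarith) (by rwa [sub_sub_cancel_left, abs_neg])
    have t3 := dom_KK (α := 0) h0 (by norm_num) (a.im - τ)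
    rw [ofReal_zero, zero_add, KK_zero h0.le, norm_real, abs_zero, mul_zero, Real.exp_zero] at t3
    rw [← hB] at t2
    have t4 := t2.trans (mul_le_mul_of_nonneg_left J1 B0.le)
    have t5 := mul_le_mul_of_nonneg_left t4 (zero_le_one.trans E1)
    have t6 := mul_le_mul_of_nonneg_right E1 (dom_pos κ (a.im - τ)).le
    rw [e]
    refine (norm_sub_le _ _).trans ?_
    rw [Real.norm_eq_abs]
    linarith
  rw [intervalIntegral.integral_sub (c1.intervalIntegrable _ _) (c2.intervalIntegrable _ _),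
    Real.norm_eq_abs, abs_of_pos (by linarith : 0 < 40 / κ - -(40 / κ))] at up
  exact up.trans_eq (by ring)

end Pool.Agent.Lib.MP_31bf45_nt.Lf
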