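import Pool.Agent.Lib.MP_31bf45_nt.Cl.EF

/-! The local explicit formula, with the orders of the zeros. -/

set_option autoImplicit false

namespace Pool.Agent.Lib.MP_31bf45_nt.Lf

open Complex Finset MeasureTheory Metric Om Cl Pool.Agent.Lib.MP_b09185_nt.Sh
open scoped ComplexConjugate

theorem fac : ∃ C : ℝ, 0 ≤ C ∧ ∀ t : ℝ, 20 ≤ t → ∃ (n : ℕ) (ρ : Fin n → ℂ) (H : ℂ → ℂ),
    n ≤ C * Real.log t ∧ (∀ i, riemannZeta (ρ i) = 0 ∧ ρ i ∈ ball (2 + t * I) 5) ∧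
    (∀ i, analyticOrderNatAt riemannZeta (ρ i) = #{j | ρ j = ρ i}) ∧
    DifferentiableOn ℂ H (ball (2 + t * I) 5) ∧
    (∀ s ∈ closedBall (2 + t * I) (9 / 2), ‖H s‖ ≤ C * Real.log t) ∧
    (∀ s ∈ ball (2 + t * I) 5, riemannZeta s ≠ 0 →
      deriv riemannZeta s / riemannZeta s = ∑ i, (s - ρ i)⁻¹ + H s) ∧
    ∀ y h : ℝ, t - 3 ≤ y → y + h ≤ t + 3 →
      IsZ y h #{i | y < (ρ i).im ∧ (ρ i).im < y + h} := by
  obtain ⟨C, C1, hC⟩ := land_zeta
  refine ⟨160 * C, by linarith, fun t ht => ?_⟩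
  obtain ⟨hd, hB⟩ := hC t ht
  have l1 : 1 ≤ Real.log t := by
    rw [Real.le_log_iff_exp_le (by linarith)]
    linarith [Real.exp_one_lt_d9]
  obtain ⟨M, hM⟩ : ∃ M, M = C * Real.log t := ⟨_, rfl⟩
  have M1 : 1 ≤ M := by nlinarith
  rw [mul_assoc, ← hM]
  rw [← hM] at hB
  obtain ⟨c, hc⟩ : ∃ c : ℂ, c = 2 + t * I := ⟨_, rfl⟩
  have cre : c.re = 2 := by simp [hc]
  have cim : c.im = t := by simp [hc]
  rw [← hc] at hd hB ⊢
  have zc : 1 / 2 ≤ ‖riemannZeta c‖ := by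
    have := zeta_ge (s := c) (by rw [cre]; norm_num)
    rw [cre] at this
    linarith
  have hm : Real.exp M < 2 ^ ⌈2 * M⌉₊ := by
    have a : Real.exp M < Real.exp ((⌈2 * M⌉₊ : ℕ) * Real.log 2) := Real.exp_lt_exp.2 (by
      nlinarith [Nat.le_ceil (2 * M), Real.log_two_gt_d9])
    rwa [Real.exp_nat_mul, Real.exp_log two_pos] at a
  obtain ⟨n, ρ, g, h1, h2, h3, h4, h5, h6, h7⟩ := land_fac ⌈2 * M⌉₊ _ hd hB (by
    nlinarith [Real.exp_pos M])
  have hn : (n : ℝ) ≤ 3 * M := by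
    have : (n : ℝ) ≤ ⌈2 * M⌉₊ := by exact_mod_cast h1
    linarith [Nat.ceil_lt_add_one (show 0 ≤ 2 * M by linarith)]
  have s5 : ball c 5 ⊆ ball c 16 := ball_subset_ball (by norm_num)
  have t0 : (10 : ℂ) ^ n ≠ 0 := pow_ne_zero _ (by norm_num)
  have z0 : ∀ i, riemannZeta (ρ i) = 0 := fun i => by
    have := h7 (ρ i)
    rw [prod_eq_zero (mem_univ i) (sub_self _), zero_mul] at this
    exact (mul_eq_zero.1 this).resolve_left t0
  have g5 := h3.mono s5
  refine ⟨n, ρ, fun s => deriv g s / g s, by linarith, fun i => ⟨z0 i, h2 i⟩,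
    fun i => fac_ord t0 (g5.analyticAt (isOpen_ball.mem_nhds (h2 i))) (h5 _ (h2 i)) h7,
    (g5.deriv isOpen_ball).div g5 h5, fun s hs => ?_, fun s hs h0 =>
      fac_ld t0 (g5.differentiableAt (isOpen_ball.mem_nhds hs)) h0 h7, fun y h hy hh => ?_⟩
  · rw [mem_closedBall, dist_eq_norm] at hs
    have := logderiv_far (δ := 1 / 4) (M := M) (z := s) (by norm_num) (by linarith) g5 h5
      (fun z hz => h4 z (s5 hz)) (by nlinarith [Real.exp_pos M]) (by linarith)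
    exact this.trans (le_of_eq (by ring))
  · have hin : ∀ a : ℂ, riemannZeta a = 0 → y < a.im → a.im < y + h → a ∈ ball c 5 := by
      intro a a0 a1 a2
      have r1 : a.re < 1 := not_le.1 fun h => riemannZeta_ne_zero_of_one_le_re h a0
      have r0 : 0 < a.re := by
        have := not_le.1 fun h => riemannZeta_ne_zero_of_one_le_re h (refl a0 (by linarith))
        simp only [sub_re, one_re, conj_re] at this
        linarith
      rw [mem_ball, dist_eq_norm]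
      have b := norm_le_abs_re_add_abs_im (a - c)
      rw [sub_re, sub_im, cre, cim] at b
      have b1 : |a.re - 2| < 2 := abs_lt.2 ⟨by linarith, by linarith⟩
      have b2 : |a.im - t| ≤ 3 := abs_le.2 ⟨by linarith, by linarith⟩
      linarith
    refine ⟨(univ.filter fun i => y < (ρ i).im ∧ (ρ i).im < y + h).image ρ, fun a => ?_, ?_⟩
    · rw [mem_image]
      constructor
      · rintro ⟨i, hi, rfl⟩
        exact ⟨z0 i, (mem_filter.1 hi).2⟩
      · rintro ⟨a0, a1, a2⟩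
        have := h7 a
        rw [a0, mul_zero] at this
        obtain ⟨i, -, hi⟩ := prod_eq_zero_iff.1
          ((mul_eq_zero.1 this.symm).resolve_right (h5 a (hin a a0 a1 a2)))
        obtain rfl := sub_eq_zero.1 hi
        exact ⟨i, mem_filter.2 ⟨mem_univ i, a1, a2⟩, rfl⟩
    · rw [card_eq_sum_card_image ρ]
      refine sum_congr rfl fun a ha => ?_
      obtain ⟨i, hi, rfl⟩ := mem_image.1 ha
      rw [fac_ord t0 (g5.analyticAt (isOpen_ball.mem_nhds (h2 i))) (h5 _ (h2 i)) h7]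
      congr 1
      ext j
      simp only [mem_filter, mem_univ, true_and]
      exact ⟨fun h => h.2, fun h => ⟨h ▸ (mem_filter.1 hi).2, h⟩⟩

theorem ef : ∃ C : ℝ, 0 ≤ C ∧ ∀ t : ℝ, 20 ≤ t → ∃ (n : ℕ) (ρ : Fin n → ℂ),
    n ≤ C * Real.log t ∧ (∀ i, riemannZeta (ρ i) = 0 ∧ |(ρ i).im - t| ≤ 5) ∧
    (∀ i, analyticOrderNatAt riemannZeta (ρ i) = #{j | ρ j = ρ i}) ∧
    (∀ y h : ℝ, t - 3 ≤ y → y + h ≤ t + 3 → IsZ y h #{i | y < (ρ i).im ∧ (ρ i).im < y + h}) ∧
    ∀ (κ y : ℝ) (Y : ℕ), 1 ≤ κ → Real.exp (50 * κ) ≤ Y → |y - t| ≤ 1 / 2 →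
      ‖2 * Real.pi * ∑ i, Cl.KK κ (ρ i - ((1 / 2 : ℝ) + y * I)) - (Real.log t * gg κ 0 : ℝ) +
        PS κ Y y + PS κ Y (-y)‖ ≤ C / κ + C * Real.log t * Real.exp (-κ) := by
  obtain ⟨C, C0, hC⟩ := ef_main
  obtain ⟨A, A0, hA⟩ := fac
  obtain ⟨B, B0, hB⟩ := chi_ld
  obtain ⟨K, K0, hK⟩ := LV_bd
  obtain ⟨D, hD⟩ : ∃ D, D = C * (2 * A + 2 * K + 1) + 24 * (A + B) + 32 := ⟨_, rfl⟩
  have D0 : 0 ≤ D := by rw [hD]; positivity
  refine ⟨A + 16 * B + D, by positivity, fun t ht => ?_⟩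
  obtain ⟨n, ρ, H, hn, hρ, ho, dH, bH, eH, hZ⟩ := hA t ht
  have l1 : 1 ≤ Real.log t := by
    rw [Real.le_log_iff_exp_le (by linarith)]
    linarith [Real.exp_one_lt_d9]
  have im : ∀ i, |(ρ i).im - t| ≤ 5 := fun i => by
    have := (hρ i).2
    rw [mem_ball, dist_eq_norm] at this
    simpa using (abs_im_le_norm _).trans this.le
  refine ⟨n, ρ, hn.trans (by gcongr; linarith), fun i => ⟨(hρ i).1, im i⟩, ho, hZ,
    fun κ y Y h1 hY hy => ?_⟩
  have h0 : 0 < κ := by linarith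
  have sb : closedBall (2 + t * I : ℂ) (9 / 2) ⊆ ball (2 + t * I) 5 :=
    closedBall_subset_ball (by norm_num)
  have hX : ∀ w ∈ Set.Icc (-(3 / 2) : ℝ) 0 ×ℂ Set.Icc (-2 : ℝ) 2,
      ((1 / 2 : ℝ) + y * I + w : ℂ).re < 1 ∧ chi ((1 / 2 : ℝ) + y * I + w) ≠ 0 ∧
      ‖deriv chi ((1 / 2 : ℝ) + y * I + w) / chi ((1 / 2 : ℝ) + y * I + w) + Real.log t‖ ≤ B := by
    intro w hw
    obtain ⟨⟨a1, a2⟩, a3, a4⟩ := mem_reProdIm.1 hw
    obtain ⟨a5, a6⟩ := abs_le.1 hy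
    have r : ((1 / 2 : ℝ) + y * I + w : ℂ).re = 1 / 2 + w.re := by simp
    have i : ((1 / 2 : ℝ) + y * I + w : ℂ).im = y + w.im := by simp
    exact ⟨by linarith, hB t ht _ (by linarith) (by linarith)
      (abs_le.2 ⟨by linarith, by linarith⟩)⟩
  have o : IsOpen {s : ℂ | s.re < 1} := isOpen_lt continuous_re continuous_const
  have mv : Set.MapsTo (fun w => ((1 / 2 : ℝ) + y * I + w : ℂ))
      (Set.Icc (-(3 / 2) : ℝ) 0 ×ℂ Set.Icc (-2 : ℝ) 2) {s : ℂ | s.re < 1} := fun w hw => (hX w hw).1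
  have k := hC κ (A * Real.log t) B K (Real.log t) n (fun i => ρ i - ((1 / 2 : ℝ) + y * I))
    (fun w => H ((1 / 2 : ℝ) + y * I + w))
    (fun w => deriv chi ((1 / 2 : ℝ) + y * I + w) / chi ((1 / 2 : ℝ) + y * I + w) + Real.log t)
    (fun u => LV (2 + (y + u : ℝ) * I)) (fun u => LV (2 + (-y + -u : ℝ) * I)) h1 (by linarith)
    (fun i => by
      have a1 := not_le.1 fun h => riemannZeta_ne_zero_of_one_le_re h (hρ i).1
      have a2 := not_le.1 fun h => riemannZeta_ne_zero_of_one_le_re h (refl (hρ i).1 fun c => by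
        have := abs_le.1 (im i)
        linarith [this.1])
      rw [sub_re, one_re, conj_re] at a2
      simp only [sub_re, add_re, ofReal_re, mul_re, I_re, mul_zero, ofReal_im, I_im, mul_one,
        sub_self, add_zero]
      exact abs_le.2 ⟨by linarith, by linarith⟩)
    (dH.comp (by fun_prop) fun w hw => sb (ef_mem hy hw)) (fun w hw => bH _ (ef_mem hy hw))
    (((((chi_diff.deriv o).comp (by fun_prop) mv)).div (chi_diff.comp (by fun_prop) mv)
      fun w hw => (hX w hw).2.1).add_const _) (fun w hw => (hX w hw).2.2)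
    (LV_cont.comp (by fun_prop)) (LV_cont.comp (by fun_prop)) (fun u => hK _) (fun u => hK _)
    (fun u hu => by
      have m := sb (ef_mem hy (w := (3 / 2 : ℝ) + u * I) (by
        simpa [mem_reProdIm] using ⟨by norm_num, abs_le.1 hu⟩))
      have e : ((1 / 2 : ℝ) + y * I + ((3 / 2 : ℝ) + u * I) : ℂ) = 2 + (y + u : ℝ) * I := by
        push_cast; ring
      have r : 1 < (2 + (y + u : ℝ) * I : ℂ).re := by simp
      rw [e] at m ⊢
      rw [← neg_neg (LV _), ← LV_eq r, eH _ m (riemannZeta_ne_zero_of_one_le_re r.le), ← e]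
      congr 2
      exact sum_congr rfl fun i _ => by congr 1; ring)
    (fun u hu => by
      have m := sb (ef_mem hy (w := (-(3 / 2) : ℝ) + u * I) (by
        simpa [mem_reProdIm] using ⟨by norm_num, abs_le.1 hu⟩))
      obtain ⟨z, e⟩ := ef_refl (s := (1 / 2 : ℝ) + y * I + ((-(3 / 2) : ℝ) + u * I))
        (by simp; norm_num) (hX _ (by simpa [mem_reProdIm] using ⟨by norm_num, abs_le.1 hu⟩)).2.1
      rw [eH _ m z, show (1 - ((1 / 2 : ℝ) + y * I + ((-(3 / 2) : ℝ) + u * I)) : ℂ) =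
        2 + (-y + -u : ℝ) * I by push_cast; ring] at e
      rw [sum_congr rfl fun i _ => show ((-(3 / 2) : ℝ) + u * I - (ρ i - ((1 / 2 : ℝ) + y * I)))⁻¹ =
        ((1 / 2 : ℝ) + y * I + ((-(3 / 2) : ℝ) + u * I) - ρ i : ℂ)⁻¹ by congr 1; ring, e]
      ring)
  have s1 := ser h1 hY y
  have s2 := ser h1 hY (-y)
  have e : ∫ u : ℝ, LV (2 + (-y + -u : ℝ) * I) * Cl.KK κ ((-(3 / 2) : ℝ) + u * I) =
      ∫ u : ℝ, LV (2 + (-y + u : ℝ) * I) * Cl.KK κ ((3 / 2 : ℝ) + u * I) := by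
    rw [← integral_neg_eq_self]
    refine integral_congr_ae (Filter.Eventually.of_forall fun u => ?_)
    simp only [neg_neg]
    rw [← KK_neg κ ((3 / 2 : ℝ) + u * I)]
    congr 2
    push_cast
    ring
  rw [e] at k
  have key : ∀ S U V P Q : ℂ, S + P + Q = (S + U + V) - (U - P) - (V - Q) := by intros; ring
  rw [key]
  refine ((norm_sub_le _ _).trans (add_le_add ((norm_sub_le _ _).trans (add_le_add k s1))
    s2)).trans ?_
  have g1 : B * gg κ 0 ≤ (A + 16 * B + D) / κ := by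
    refine (mul_le_mul_of_nonneg_left (gg_le h0) B0).trans ?_
    rw [← mul_div_assoc]
    gcongr
    nlinarith [Real.pi_le_four]
  have E0 := (Real.exp_pos (-κ)).le
  have g2 : C * (2 * n + 2 * K + Real.log t) + 24 * (A * Real.log t + B) + 32 ≤
      (A + 16 * B + D) * Real.log t := by
    have a1 : C * (2 * n + 2 * K + Real.log t) ≤
        C * (2 * (A * Real.log t) + 2 * (K * Real.log t) + Real.log t) := by
      gcongr
      nlinarith
    rw [hD]
    nlinarith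
  nlinarith [mul_le_mul_of_nonneg_right g2 E0]

end Pool.Agent.Lib.MP_31bf45_nt.Lf
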