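import Pool.Agent.Lib.MP_31bf45_nt.Lf.EF
import Pool.Agent.Lib.MP_31bf45_nt.Lf.Dom
import Pool.Agent.Lib.MP_31bf45_nt.Lf.Ord
import Pool.Agent.Lib.MP_31bf45_nt.Cl.Loc

/-! The explicit formula integrated over a window, zeros far from the line allowed. -/

set_option autoImplicit false

namespace Pool.Agent.Lib.MP_31bf45_nt.Lf

open Complex Finset MeasureTheory Om Cl

theorem loc_alg' {ε R S W A e B : ℝ} (hε : ε = 1 ∨ ε = -1) (h0 : 0 ≤ e) (h1 : e ≤ 1) (hA : 0 ≤ A)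
    (a : |R - S| ≤ e * S + B) (b : ε * (S - W) ≤ A) : ε * (R - W) ≤ e * W + 2 * A + B := by
  obtain ⟨a, a'⟩ := abs_le.1 a
  obtain rfl | rfl := hε
  · nlinarith [mul_le_mul_of_nonneg_left b h0, mul_le_mul_of_nonneg_right h1 hA]
  · nlinarith [mul_le_mul_of_nonneg_left b (sub_nonneg.2 h1), mul_nonneg h0 hA]

theorem loc : ∃ C : ℝ, 1 ≤ C ∧ ∀ (κ t δ ε M L B : ℝ) (Y : ℕ), 180 ≤ κ → 20 ≤ t →
    C * δ ^ 2 * κ ^ 2 ≤ 1 / 4 → 0 ≤ δ → (ε = 1 ∨ ε = -1) → 0 ≤ M → Real.exp (50 * κ) ≤ Y →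
    |Real.log t - L| ≤ 1 → Real.log t ≤ Real.exp κ → Bad κ δ t B →
    (∀ (y : ℝ) (m : ℕ), |y - t| ≤ 2 → IsZ y (80 / κ) m →
      ε * (m - 80 / κ * L / (2 * Real.pi)) ≤ M) →
    -ε * (FP κ Y t).re ≤ Real.pi * M + C * (1 + δ ^ 2 * κ * L) + C * B := by
  obtain ⟨C₁, c1, ef⟩ := ef
  obtain ⟨C₃, c3, dom'⟩ := dom
  obtain ⟨C₂, c2, dom⟩ := Cl.dom
  refine ⟨20 * C₂ + 5 * C₁ + 3 + 4 * C₃, by linarith,
    fun κ t δ ε M L B Y hκ' ht hC hδ hε hM hY hL hl hz hm => ?_⟩
  obtain ⟨n, ρ, hn, hρ, ho, hI, ef⟩ := ef t ht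
  have hκ : 80 ≤ κ := by linarith
  have B0 : 0 ≤ B := by simpa using hz ∅ (by simp)
  have κ0 : 0 < κ := by linarith
  have p := Real.pi_gt_three
  have h0 : 0 < 40 / κ := by positivity
  have h1 : 40 / κ ≤ 1 / 2 := by rw [div_le_iff₀ κ0]; linarith
  have h2 : 80 / κ = 2 * (40 / κ) := by ring
  have l1 : 1 ≤ Real.log t := by
    rw [Real.le_log_iff_exp_le (by linarith)]
    linarith [Real.exp_one_lt_d9]
  obtain ⟨l2, l3⟩ := abs_le.1 hL
  have L0 : 0 ≤ L := by linarith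
  have d0 : 0 ≤ δ ^ 2 * κ ^ 2 := by positivity
  have e0 : 0 ≤ C₂ * δ ^ 2 * κ ^ 2 := by positivity
  have e1 : C₂ * δ ^ 2 * κ ^ 2 ≤ 1 := by nlinarith [mul_nonneg c1 d0, mul_nonneg c3 d0]
  have d1 : δ * κ ≤ 1 / 2 := by
    refine abs_le_of_sq_le_sq' ?_ (by norm_num) |>.2
    nlinarith [mul_nonneg c1 d0, mul_nonneg c3 d0]
  have m0 : 0 ≤ gg κ 0 := (abs_nonneg _).trans (gg_abs κ0 0)
  have m1 := gg_le κ0
  set V := 80 / κ * L / (2 * Real.pi) with hV
  have V0 : 0 ≤ V := by positivity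
  let a (i : Fin n) : ℂ := ρ i - ((1 / 2 : ℝ) + t * I)
  have ai (i) : (a i).im = (ρ i).im - t := by simp [a]
  have b := avg (κ := κ) (by linarith) hε hM V0 (fun i => (a i).im) fun u hu => by
    obtain ⟨u1, u2⟩ := abs_le.1 hu
    have := hm _ _ (abs_le.2 ⟨by linarith, by linarith⟩)
      (hI (t + u - 40 / κ) (80 / κ) (by linarith) (by linarith))
    rw [filter_congr (q := fun i => t + u - 40 / κ < (ρ i).im ∧
      (ρ i).im < t + u - 40 / κ + 80 / κ) fun i _ => ?_]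
    · exact this
    rw [ai]
    constructor <;> exact fun k => ⟨by linarith [k.1], by linarith [k.2]⟩
  have ar (i) : (a i).re = (ρ i).re - 1 / 2 := by simp [a]
  have c : |(∑ i, ∫ τ in (-(40 / κ))..(40 / κ), (Cl.KK κ (a i - τ * I)).re) - ∑ i, WW κ (a i).im| ≤
      C₂ * δ ^ 2 * κ ^ 2 * ∑ i, WW κ (a i).im + C₃ / κ * (2 * B) := by
    refine le_trans ?_ (add_le_add le_rfl
      (mul_le_mul_of_nonneg_left (bad ht hδ hρ ho hz) (by positivity)))
    rw [← sum_sub_distrib, mul_sum, mul_sum, sum_filter, ← sum_add_distrib]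
    refine (abs_sum_le_sum_abs _ _).trans (sum_le_sum fun i _ => ?_)
    have k : |(a i).im| ≤ 5 := ai i ▸ (hρ i).2
    split_ifs with hb
    · have k1 := not_le.1 fun h => riemannZeta_ne_zero_of_one_le_re h (hρ i).1
      have k2 := not_le.1 fun h => riemannZeta_ne_zero_of_one_le_re h (refl (hρ i).1
        (by linarith [(abs_le.1 (hρ i).2).1] : 0 < (ρ i).im).ne')
      rw [sub_re, one_re, conj_re] at k2
      rw [← ar, ← ai]
      exact (dom' κ _ hκ (ar i ▸ abs_le.2 ⟨by linarith, by linarith⟩) k).trans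
        (le_add_of_nonneg_left (mul_nonneg e0 (WW_nonneg κ0 _)))
    · rw [add_zero]
      exact dom κ δ _ hκ d1 (ar i ▸ not_lt.1 hb) k
  have m2 := gg_ge hκ' (v := 0) (by rw [abs_zero]; positivity)
  have m3 : 0 < gg κ 0 := lt_of_lt_of_le (by positivity) m2
  have m4 : C₃ / κ * B / gg κ 0 ≤ C₃ * B := by
    rw [div_le_iff₀ m3]
    exact le_trans (le_of_eq (by ring)) (mul_le_mul_of_nonneg_left m2 (mul_nonneg c3 B0))
  have m5 : 0 ≤ C₃ / κ * B / gg κ 0 := by positivity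
  have d := (loc_alg' hε e0 e1 (by positivity) c b).trans_eq (show _ = C₂ * δ ^ 2 * κ ^ 2 *
      (gg κ 0 * V) + 2 * (gg κ 0 * (M + C₃ / κ * B / gg κ 0) +
      4 * (n + V) * Real.exp (-(5 * κ) / 2)) by field_simp; ring)
  have x1 := Real.add_one_le_exp κ
  have x0 := Real.exp_pos κ
  have kc (i) : Continuous fun τ : ℝ => (Cl.KK κ (a i - τ * I)).re :=
    continuous_re.comp ((KK_diff κ).continuous.comp (by fun_prop))
  have f := intervalIntegral.norm_integral_le_of_norm_le_const (a := -(40 / κ)) (b := 40 / κ)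
    (C := 2 * C₁) (f := fun τ : ℝ => 2 * Real.pi * ∑ i, (Cl.KK κ (a i - τ * I)).re -
      Real.log t * gg κ 0 + ((PS κ Y (t + τ)).re + (PS κ Y (-(t + τ))).re)) fun τ hτ => by
    rw [Set.uIoc_of_le (by linarith)] at hτ
    have k := (abs_re_le_norm _).trans (ef κ (t + τ) Y (by linarith) hY
      (abs_le.2 ⟨by linarith [hτ.1], by linarith [hτ.2]⟩))
    have k1 : C₁ / κ ≤ C₁ := div_le_self c1 (by linarith)
    have k2 : C₁ * Real.log t * Real.exp (-κ) ≤ C₁ := by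
      rw [mul_assoc, Real.exp_neg, ← div_eq_mul_inv]
      exact mul_le_of_le_one_right c1 ((div_le_one x0).2 hl)
    refine le_trans (le_of_eq ?_) (k.trans (by linarith))
    rw [Real.norm_eq_abs, add_re, add_re, sub_re, ofReal_re, add_assoc,
      show (2 * Real.pi : ℂ) = (2 * Real.pi : ℝ) by push_cast; rfl, re_ofReal_mul, re_sum]
    congr 6 with i
    simp only [a]
    push_cast
    ring_nf
  have pc : Continuous fun τ : ℝ => (PS κ Y (t + τ)).re + (PS κ Y (-(t + τ))).re := by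
    simp only [loc_PS]
    fun_prop
  have sc : Continuous fun τ : ℝ => 2 * Real.pi * ∑ i, (Cl.KK κ (a i - τ * I)).re :=
    continuous_const.mul (continuous_finsetSum _ fun i _ => kc i)
  rw [intervalIntegral.integral_add ((sc.intervalIntegrable _ _).sub intervalIntegrable_const)
    (pc.intervalIntegrable _ _), intervalIntegral.integral_sub (sc.intervalIntegrable _ _)
    intervalIntegrable_const, loc_int κ0, intervalIntegral.integral_const_mul,
    intervalIntegral.integral_finsetSum fun i _ => (kc i).intervalIntegrable _ _,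
    intervalIntegral.integral_const, Real.norm_eq_abs, smul_eq_mul,
    show 40 / κ - -(40 / κ) = 80 / κ by ring, abs_of_pos (show 0 < 80 / κ by positivity)] at f
  refine (loc_fin hκ hε c1 c2 (add_nonneg hM m5) L0 hL m0 m1 ?_ d f).trans ?_
  swap
  · have q0 : 0 ≤ 1 + δ ^ 2 * κ * L := by positivity
    have q1 := mul_le_mul Real.pi_le_four m4 m5 (by norm_num)
    linarith [mul_nonneg c3 q0, mul_nonneg c1 B0, mul_nonneg c2 B0]
  have v : V ≤ 2 * Real.exp κ := by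
    rw [hV, div_le_iff₀ (by positivity)]
    nlinarith only [mul_le_mul_of_nonneg_right h1 L0, h2, l2, hl, x1, hκ, p]
  calc _ = 4 * (κ * (n + V) * Real.exp (-(5 * κ) / 2)) := by ring
    _ ≤ 4 * (Real.exp κ * (C₁ * Real.exp κ + 2 * Real.exp κ) * Real.exp (-(2 * κ))) := by
        gcongr
        · linarith only [x1]
        · exact hn.trans (by gcongr)
        · linarith only [hκ]
    _ = 4 * (C₁ + 2) * (Real.exp κ * Real.exp κ * Real.exp (-(2 * κ))) := by ring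
    _ = _ := by rw [← Real.exp_add, ← Real.exp_add, show κ + κ + -(2 * κ) = 0 by ring]; simp

end Pool.Agent.Lib.MP_31bf45_nt.Lf
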