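import Pool.Agent.Lib.MP_31bf45_nt.Lf.Def
import Pool.Agent.Lib.MP_6a20cc_nt.Mertens

/-! The mean square of the sieve weight, by an Euler product. -/

set_option autoImplicit false

namespace Pool.Agent.Lib.MP_31bf45_nt.Lf

open Complex Finset MeasureTheory Metric Om Cl Pool.Agent.Lib.MP_b09185_nt.Sh
open Pool.Agent.Lib.MP_b09185_nt.Mai (EE)
open scoped ComplexConjugate

theorem eul_mer {S : Finset ℕ} (hS : ∀ p ∈ S, p.Prime) {x : ℝ} (h0 : 0 ≤ x)
    (hx : ∀ p ∈ S, Real.log p ≤ x) : ∑ p ∈ S, Real.log p / p ≤ 16 * x := by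
  rcases S.eq_empty_or_nonempty with rfl | hne
  · simp only [sum_empty]; positivity
  have hm := S.max'_mem hne
  have h1 : ∑ p ∈ S, Real.log p / p ≤ ∑ p ∈ Nat.primesLE (S.max' hne), Real.log p / p := by
    refine sum_le_sum_of_subset_of_nonneg (fun p hp => ?_) fun p _ _ => ?_
    · exact Nat.mem_primesLE.2 ⟨S.le_max' p hp, hS p hp⟩
    · exact div_nonneg (Real.log_natCast_nonneg p) (Nat.cast_nonneg p)
  have h2 := Pool.Agent.Lib.MP_6a20cc_nt.sum0_upper (S.max' hne)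
  have h3 := hx _ hm
  have h4 : Real.log 2 ≤ Real.log (S.max' hne : ℕ) :=
    Real.log_le_log (by norm_num) (by exact_mod_cast (hS _ hm).two_le)
  have h5 := Real.log_two_gt_d9
  linarith

theorem eul_dy {r : ℝ} (h : 0 < r) (j : ℕ) : ∀ S : Finset ℕ, (∀ p ∈ S, p.Prime) →
    (∀ p ∈ S, r * Real.log p ≤ 2 ^ j) →
    ∑ p ∈ S, min 2 (r * Real.log p) ^ 2 / p ≤ 16 + 128 * j := by
  induction j with
  | zero =>
    intro S hS hx
    have h1 := eul_mer hS (x := 1 / r) (by positivity) fun p hp => by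
      rw [le_div_iff₀ h, mul_comm]; simpa using hx p hp
    have h2 : ∑ p ∈ S, min 2 (r * Real.log p) ^ 2 / p ≤ r * ∑ p ∈ S, Real.log p / p := by
      rw [mul_sum]
      refine sum_le_sum fun p hp => ?_
      rw [← mul_div_assoc]
      refine div_le_div_of_nonneg_right ?_ (Nat.cast_nonneg p)
      have a1 : r * Real.log p ≤ 1 := by simpa using hx p hp
      have a2 : 0 ≤ r * Real.log p := mul_nonneg h.le (Real.log_natCast_nonneg p)
      rw [min_eq_right (by linarith)]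
      nlinarith
    have h3 : r * ∑ p ∈ S, Real.log p / p ≤ r * (16 * (1 / r)) :=
      mul_le_mul_of_nonneg_left h1 h.le
    have h4 : r * (16 * (1 / r)) = 16 := by field_simp
    simp only [Nat.cast_zero, mul_zero, add_zero]
    linarith
  | succ j ih =>
    intro S hS hx
    rw [← sum_filter_add_sum_filter_not S fun p => r * Real.log p ≤ 2 ^ j]
    have h0 := ih (S.filter fun p => r * Real.log p ≤ 2 ^ j)
      (fun p hp => hS p (mem_filter.1 hp).1) fun p hp => (mem_filter.1 hp).2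
    set T := S.filter fun p : ℕ => ¬ r * Real.log p ≤ 2 ^ j with hT
    have hj : (0 : ℝ) < 2 ^ j := by positivity
    have h1 := eul_mer (S := T) (fun p hp => hS p (mem_filter.1 hp).1) (x := 2 ^ (j + 1) / r)
      (by positivity) fun p hp => by
        rw [le_div_iff₀ h, mul_comm]; exact hx p (mem_filter.1 hp).1
    have h2 : ∑ p ∈ T, min 2 (r * Real.log p) ^ 2 / p ≤
        4 * r / 2 ^ j * ∑ p ∈ T, Real.log p / p := by
      rw [mul_sum]
      refine sum_le_sum fun p hp => ?_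
      rw [← mul_div_assoc]
      refine div_le_div_of_nonneg_right ?_ (Nat.cast_nonneg p)
      have a1 : (2 : ℝ) ^ j < r * Real.log p := not_le.1 (mem_filter.1 hp).2
      have a2 : 0 ≤ min 2 (r * Real.log p) := le_min (by norm_num) (by linarith)
      have a3 : min 2 (r * Real.log p) ≤ 2 := min_le_left _ _
      have a4 : (4 : ℝ) ≤ 4 * r / 2 ^ j * Real.log p := by
        rw [div_mul_eq_mul_div, le_div_iff₀ hj]; linarith
      nlinarith
    have h3 : 4 * r / 2 ^ j * ∑ p ∈ T, Real.log p / p ≤ 4 * r / 2 ^ j * (16 * (2 ^ (j + 1) / r)) :=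
      mul_le_mul_of_nonneg_left h1 (by positivity)
    have h4 : 4 * r / 2 ^ j * (16 * (2 ^ (j + 1) / r)) = 128 := by
      rw [pow_succ]; field_simp; norm_num
    push_cast
    linarith

theorem eul_loc (r : ℝ) {p : ℕ} (hp : p.Prime) :
    Summable (fun n : ℕ => ‖GG r (p ^ n) ^ 2 / ((p ^ n : ℕ) : ℝ)‖) ∧
      ∑' n : ℕ, GG r (p ^ n) ^ 2 / ((p ^ n : ℕ) : ℝ) ≤
        Real.exp (2 * (min 2 (r * Real.log p) ^ 2 / p)) := by
  have h2 : (2 : ℝ) ≤ p := by exact_mod_cast hp.two_le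
  have hq : (p : ℝ)⁻¹ ≤ 1 / 2 := by rw [one_div]; exact inv_anti₀ (by norm_num) h2
  have hq0 : (0 : ℝ) ≤ (p : ℝ)⁻¹ := by positivity
  set g : ℝ := min 2 (r * Real.log p) ^ 2 / p with hg
  have hg0 : 0 ≤ g := by positivity
  have e : ∀ n : ℕ, GG r (p ^ (n + 1)) ^ 2 / ((p ^ (n + 1) : ℕ) : ℝ) = g * (p : ℝ)⁻¹ ^ n := by
    intro n
    rw [GG, Nat.primeFactors_prime_pow (Nat.succ_ne_zero n) hp, prod_singleton, hg]
    push_cast
    rw [inv_pow, pow_succ (p : ℝ) n]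
    field_simp
  have hs : HasSum (fun n : ℕ => GG r (p ^ (n + 1)) ^ 2 / ((p ^ (n + 1) : ℕ) : ℝ))
      (g * (1 - (p : ℝ)⁻¹)⁻¹) := by
    simp only [e]
    exact (hasSum_geometric_of_lt_one hq0 (by linarith)).mul_left g
  have hs' : Summable fun n : ℕ => GG r (p ^ n) ^ 2 / ((p ^ n : ℕ) : ℝ) :=
    (summable_nat_add_iff 1).1 hs.summable
  refine ⟨hs'.norm, ?_⟩
  rw [hs'.tsum_eq_zero_add, hs.tsum_eq]
  have h1 : (1 - (p : ℝ)⁻¹)⁻¹ ≤ 2 := by
    rw [inv_le_comm₀ (by linarith) (by norm_num)]; linarith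
  have h3 := mul_le_mul_of_nonneg_left h1 hg0
  have h4 := Real.add_one_le_exp (2 * g)
  have h5 : GG r (p ^ 0) ^ 2 / ((p ^ 0 : ℕ) : ℝ) = 1 := by simp [GG]
  linarith

theorem eul_prod (r : ℝ) (K : ℕ) : ∑ n ∈ Icc 1 K, GG r n ^ 2 / n ≤
    Real.exp (2 * ∑ p ∈ (K + 1).primesBelow, min 2 (r * Real.log p) ^ 2 / p) := by
  have h1 : GG r 1 ^ 2 / ((1 : ℕ) : ℝ) = 1 := by simp [GG]
  have hmul : ∀ {m n : ℕ}, Nat.Coprime m n →
      GG r (m * n) ^ 2 / ((m * n : ℕ) : ℝ) = GG r m ^ 2 / m * (GG r n ^ 2 / n) := by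
    intro m n h
    rw [GG, h.primeFactors_mul, prod_union h.disjoint_primeFactors, Nat.cast_mul, mul_pow,
      div_mul_div_comm]
    rfl
  have hs := (EulerProduct.summable_and_hasSum_smoothNumbers_prod_primesBelow_tsum
    (f := fun n : ℕ => GG r n ^ 2 / (n : ℝ)) h1 hmul (fun hp => (eul_loc r hp).1) (K + 1)).2
  have h2 := sum_le_hasSum ((Icc 1 K).subtype (· ∈ (K + 1).smoothNumbers))
    (fun n _ => by positivity) hs
  rw [sum_subtype_of_mem (fun n : ℕ => GG r n ^ 2 / (n : ℝ)) fun n hn =>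
    Nat.mem_smoothNumbers_of_lt (mem_Icc.1 hn).1 (Nat.lt_succ_of_le (mem_Icc.1 hn).2)] at h2
  refine h2.trans ?_
  rw [mul_sum, Real.exp_sum]
  exact prod_le_prod (fun p _ => tsum_nonneg fun n => by positivity) fun p hp =>
    (eul_loc r (Nat.prime_of_mem_primesBelow hp)).2

theorem eul : ∃ (C : ℝ) (B : ℕ), 0 ≤ C ∧ ∀ r : ℝ, 0 ≤ r → ∀ K : ℕ,
    ∑ n ∈ Icc 1 K, GG r n ^ 2 / n ≤ C * (1 + r * Real.log K) ^ B := by
  refine ⟨Real.exp 32 * 2 ^ 512, 512, by positivity, fun r hr K => (eul_prod r K).trans ?_⟩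
  have hx : 0 ≤ r * Real.log K := mul_nonneg hr (Real.log_natCast_nonneg K)
  obtain ⟨j, h1, h2⟩ := exists_nat_pow_near (x := 1 + r * Real.log K) (y := 2) (by linarith)
    (by norm_num)
  have h3 : ∑ p ∈ (K + 1).primesBelow, min 2 (r * Real.log p) ^ 2 / p ≤
      16 + 128 * ((j + 1 : ℕ) : ℝ) := by
    rcases hr.eq_or_lt with rfl | h
    · simp only [zero_mul, Nat.ofNat_nonneg, inf_of_le_right, ne_eq, OfNat.ofNat_ne_zero,
        not_false_eq_true, zero_pow, zero_div, sum_const_zero]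
      positivity
    refine eul_dy h (j + 1) _ (fun p hp => Nat.prime_of_mem_primesBelow hp) fun p hp => ?_
    have a1 : Real.log p ≤ Real.log K :=
      Real.log_le_log (by exact_mod_cast (Nat.prime_of_mem_primesBelow hp).pos)
        (by exact_mod_cast Nat.lt_succ_iff.1 (Nat.lt_of_mem_primesBelow hp))
    have a2 := mul_le_mul_of_nonneg_left a1 hr
    linarith
  have h4 : Real.exp 1 ≤ 2 ^ 2 := by have := Real.exp_one_lt_d9; linarith
  calc _ ≤ Real.exp (32 + ((256 * (j + 1) : ℕ) : ℝ) * 1) := by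
        refine Real.exp_le_exp.2 ?_
        push_cast at h3 ⊢
        linarith
    _ = Real.exp 32 * Real.exp 1 ^ (256 * (j + 1)) := by rw [Real.exp_add, Real.exp_nat_mul]
    _ ≤ Real.exp 32 * (2 ^ 2) ^ (256 * (j + 1)) := by gcongr
    _ = Real.exp 32 * (2 * 2 ^ j) ^ 512 := by
        rw [← pow_succ', ← pow_mul, ← pow_mul, show 2 * (256 * (j + 1)) = (j + 1) * 512 by omega]
    _ ≤ Real.exp 32 * (2 * (1 + r * Real.log K)) ^ 512 := by gcongr
    _ = _ := by rw [mul_pow, mul_assoc]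

end Pool.Agent.Lib.MP_31bf45_nt.Lf
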