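import Pool.Agent.Lib.MP_31bf45_nt.Lf.Def

/-! The sieve weight `GG`. -/

set_option autoImplicit false

namespace Pool.Agent.Lib.MP_31bf45_nt.Lf

open Complex Finset MeasureTheory Metric

theorem GG_nonneg {r : ℝ} (h : 0 ≤ r) (n : ℕ) : 0 ≤ GG r n :=
  prod_nonneg fun p _ => le_min zero_le_two (mul_nonneg h (Real.log_natCast_nonneg p))

theorem GG_mono {r r' : ℝ} (h : 0 ≤ r) (h' : r ≤ r') (n : ℕ) : GG r n ≤ GG r' n :=
  prod_le_prod (fun p _ => le_min zero_le_two (mul_nonneg h (Real.log_natCast_nonneg p)))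
    fun p _ => min_le_min_left _ (mul_le_mul_of_nonneg_right h' (Real.log_natCast_nonneg p))

theorem gg_prod {r : ℝ} (h : 0 ≤ r) (S : Finset ℕ) :
    ∏ p ∈ S, min 2 (r * Real.log p) ≤ 2 ^ #S := by
  rw [← prod_const]
  exact prod_le_prod (fun p _ => le_min zero_le_two (mul_nonneg h (Real.log_natCast_nonneg p)))
    fun p _ => min_le_left _ _

theorem GG_le {r : ℝ} (h : 0 ≤ r) (n : ℕ) : GG r n ≤ 2 ^ #n.primeFactors := gg_prod h _

theorem GG_cont (n : ℕ) : Continuous fun r => GG r n := by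
  unfold GG
  fun_prop

theorem gg_card {m : ℕ} (hm : m ≠ 0) : 2 ^ #m.primeFactors ≤ #m.divisors := by
  rw [Nat.card_divisors hm, ← prod_const]
  exact prod_le_prod' fun p hp => Nat.succ_le_succ
    ((Nat.prime_of_mem_primeFactors hp).factorization_pos_of_dvd hm (Nat.dvd_of_mem_primeFactors hp))

theorem GG_mul {r : ℝ} (h : 0 ≤ r) {m n : ℕ} (hm : m ≠ 0) (hn : n ≠ 0) :
    GG r (m * n) ≤ #m.divisors * GG r n := by
  rw [GG, Nat.primeFactors_mul hm hn, ← sdiff_union_self_eq_union, prod_union sdiff_disjoint]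
  refine mul_le_mul_of_nonneg_right ((gg_prod h _).trans ?_) (GG_nonneg h n)
  exact_mod_cast (Nat.pow_le_pow_right two_pos (card_le_card sdiff_subset)).trans (gg_card hm)

theorem gg_sqf (e : ℕ → ℂ) {n : ℕ} (hn : n ≠ 0) :
    ∑ d ∈ n.divisors, (ArithmeticFunction.moebius d : ℂ) * e d =
      ∑ S ∈ n.primeFactors.powerset, (ArithmeticFunction.moebius S.val.prod : ℂ) * e S.val.prod := by
  rw [← sum_filter_of_ne (p := Squarefree) fun d _ h => by
      by_contra hc
      exact h (by rw [ArithmeticFunction.moebius_eq_zero_of_not_squarefree hc]; simp),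
    Nat.sum_divisors_filter_squarefree hn, Nat.factors_eq]
  rfl

theorem mob (ξ : ℝ) {n : ℕ} (hn : n ≠ 0) : ‖∑ d ∈ n.divisors,
    (ArithmeticFunction.moebius d : ℂ) * exp ((ξ * Real.log d : ℝ) * I)‖ ≤ GG |ξ| n := by
  let f : ArithmeticFunction ℂ :=
    ⟨fun d => if d = 0 then 0 else exp ((ξ * Real.log d : ℝ) * I), if_pos rfl⟩
  have fa : ∀ d, d ≠ 0 → f d = exp ((ξ * Real.log d : ℝ) * I) := fun d hd => if_neg hd
  have fm : f.IsMultiplicative := by
    rw [ArithmeticFunction.IsMultiplicative.iff_ne_zero]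
    refine ⟨by rw [fa 1 one_ne_zero]; simp, fun {a b} ha hb _ => ?_⟩
    rw [fa _ (mul_ne_zero ha hb), fa a ha, fa b hb, ← exp_add, Nat.cast_mul,
      Real.log_mul (Nat.cast_ne_zero.mpr ha) (Nat.cast_ne_zero.mpr hb)]
    congr 1
    push_cast
    ring
  have sq : Squarefree (∏ p ∈ n.primeFactors, p) :=
    Finset.squarefree_prod_of_pairwise_isCoprime (fun p hp q hq hpq => Nat.coprime_iff_isRelPrime.mp
      ((Nat.coprime_primes (Nat.prime_of_mem_primeFactors hp)
        (Nat.prime_of_mem_primeFactors hq)).mpr hpq))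
      fun p hp => (Nat.prime_of_mem_primeFactors hp).squarefree
  have e := fm.prodPrimeFactors_one_sub_of_squarefree f sq
  rw [gg_sqf f sq.ne_zero, Nat.primeFactors_prod_primeFactors, ← gg_sqf f hn] at e
  rw [sum_congr rfl fun d hd => by rw [← fa d (Nat.pos_of_mem_divisors hd).ne'], ← e, norm_prod]
  refine prod_le_prod (fun _ _ => norm_nonneg _) fun p hp => ?_
  rw [fa p (Nat.prime_of_mem_primeFactors hp).ne_zero]
  refine le_min ((norm_sub_le _ _).trans ?_) ?_
  · rw [norm_exp_ofReal_mul_I, norm_one, one_add_one_eq_two]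
  · rw [norm_sub_rev, mul_comm _ I]
    refine Real.norm_exp_I_mul_ofReal_sub_one_le.trans (le_of_eq ?_)
    rw [Real.norm_eq_abs, abs_mul, abs_of_nonneg (Real.log_natCast_nonneg p)]

end Pool.Agent.Lib.MP_31bf45_nt.Lf
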