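import Pool.Agent.Lib.MP_31bf45_nt.Lf.Bump
import Pool.Agent.Lib.MP_31bf45_nt.Lf.GG
import Pool.Agent.Lib.MP_31bf45_nt.Lf.Eul

/-! A smooth mollifier and a majorant of its coefficients. -/

set_option autoImplicit false

namespace Pool.Agent.Lib.MP_31bf45_nt.Lf

open Complex Finset MeasureTheory Metric Om Cl Pool.Agent.Lib.MP_b09185_nt.Sh
open Pool.Agent.Lib.MP_b09185_nt.Mai (EE)
open scoped ComplexConjugate

theorem moll_sum {Θ : ℝ → ℝ} {ν : ℝ → ℂ} (hν : Integrable ν)
    (hΘ : ∀ y, (Θ y : ℂ) = ∫ x, ν x * exp ((2 * Real.pi * x * y : ℝ) * I)) (D : Finset ℕ)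
    (c : ℕ → ℂ) (y : ℕ → ℝ) {h : ℝ → ℝ} (hi : Integrable fun x => ‖ν x‖ * h x)
    (hb : ∀ x, ‖∑ d ∈ D, c d * exp ((2 * Real.pi * x * y d : ℝ) * I)‖ ≤ h x) :
    ‖∑ d ∈ D, c d * Θ (y d)‖ ≤ ∫ x, ‖ν x‖ * h x := by
  have e : ∑ d ∈ D, c d * Θ (y d) =
      ∫ x, ν x * ∑ d ∈ D, c d * exp ((2 * Real.pi * x * y d : ℝ) * I) := by
    simp only [hΘ, ← integral_const_mul, mul_sum, mul_left_comm (ν _)]
    refine (integral_finsetSum _ fun d _ => Integrable.const_mul ?_ _).symm
    exact hν.mul_bdd (c := 1) (Continuous.aestronglyMeasurable (by fun_prop))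
      (.of_forall fun x => (norm_exp_ofReal_mul_I _).le)
  rw [e]
  exact norm_integral_le_of_norm_le hi (.of_forall fun x => by
    rw [norm_mul]; exact mul_le_mul_of_nonneg_left (hb x) (norm_nonneg _))

theorem moll_add (ξ η : ℝ) (n : ℕ) : GG |ξ + η| n ≤ GG (2 * |ξ|) n + GG (2 * |η|) n := by
  have a := abs_add_le ξ η
  have b := abs_nonneg ξ
  have c := abs_nonneg η
  rcases le_total |ξ| |η| with h | h
  · exact le_add_of_nonneg_of_le (GG_nonneg (by positivity) n)
      (GG_mono (abs_nonneg _) (by linarith) n)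
  · exact le_add_of_le_of_nonneg (GG_mono (abs_nonneg _) (by linarith) n)
      (GG_nonneg (by positivity) n)

theorem moll_cs {φ G : ℝ → ℝ} (h0 : ∀ x, 0 ≤ φ x) (h1 : Integrable φ)
    (h2 : Integrable fun x => φ x * G x) (h3 : Integrable fun x => φ x * G x ^ 2) :
    (∫ x, φ x * G x) ^ 2 ≤ ((∫ x, φ x) + 1) * ∫ x, φ x * G x ^ 2 := by
  have n0 : 0 ≤ ∫ x, φ x := integral_nonneg h0
  set N := ∫ x, φ x with hN
  set J := ∫ x, φ x * G x with hJ
  have k : ∫ x, 2 * (N + 1) * J * (φ x * G x) ≤
      ∫ x, ((N + 1) ^ 2 * (φ x * G x ^ 2) + J ^ 2 * φ x) :=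
    integral_mono (h2.const_mul _) ((h3.const_mul _).add (h1.const_mul _)) fun x => by
      nlinarith [mul_nonneg (h0 x) (sq_nonneg ((N + 1) * G x - J))]
  rw [integral_add (h3.const_mul _) (h1.const_mul _), integral_const_mul, integral_const_mul,
    integral_const_mul, ← hN, ← hJ] at k
  refine le_of_mul_le_mul_left ?_ (show 0 < N + 1 by linarith)
  nlinarith [sq_nonneg J]

theorem moll : ∃ X : ℝ, 1 ≤ X ∧ ∀ Z : ℕ, 3 ≤ Z → ∃ a V g : ℕ → ℝ, Mo Z a ∧ Hd Z V ∧
    Gd (Z ^ 560) X g ∧ ∀ n, |c1 a n| ≤ g n ∧ |c2 a V n| ≤ g n := by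
  obtain ⟨Θ, ν, t0, t1, t2, nc, ni, hΘ⟩ := bump
  obtain ⟨C, B, C0, hC⟩ := eul
  have hφ : Integrable fun x => ‖ν x‖ := by simpa using ni 0
  have hν : Integrable ν := (integrable_norm_iff nc.aestronglyMeasurable).1 hφ
  obtain ⟨N, hN⟩ : ∃ N, N = ∫ x, ‖ν x‖ := ⟨_, rfl⟩
  have N0 : 0 ≤ N := hN ▸ integral_nonneg fun _ => norm_nonneg _
  have M0 : 0 ≤ ∫ x, ‖ν x‖ * (1 + |x|) ^ B := integral_nonneg fun x => by positivity
  refine ⟨1 + (2 * N + 2) ^ 2 * ((N + 1) * (C * 9000 ^ B * ∫ x, ‖ν x‖ * (1 + |x|) ^ B)),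
    le_add_of_nonneg_right (by positivity), fun Z hZ => ?_⟩
  have Z1 : (1 : ℝ) < Z := by exact_mod_cast (by omega : 1 < Z)
  obtain ⟨l, hl⟩ : ∃ l, l = Real.log Z := ⟨_, rfl⟩
  have l0 : 0 < l := hl ▸ Real.log_pos Z1
  have up : ∀ k d : ℕ, d ≤ Z ^ k → Real.log d ≤ k * l := fun k d h => by
    rcases d.eq_zero_or_pos with rfl | d0
    · simp only [Nat.cast_zero, Real.log_zero]; positivity
    · rw [hl, ← Real.log_pow]
      exact Real.log_le_log (by exact_mod_cast d0) (by exact_mod_cast h)
  have lo : ∀ k d : ℕ, Z ^ k < d → k * l ≤ Real.log d := fun k d h => by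
    rw [hl, ← Real.log_pow]
    exact Real.log_le_log (by positivity) (by exact_mod_cast h.le)
  let G : ℕ → ℝ → ℝ := fun n x => GG (2 * |2 * Real.pi * x / l|) n
  have G0 : ∀ n x, 0 ≤ G n x := fun n x => GG_nonneg (by positivity) n
  have Gc : ∀ n, Continuous (G n) := fun n => (GG_cont n).comp (by fun_prop)
  have G1 : ∀ n x, G n x ≤ 2 ^ #n.primeFactors := fun n x => GG_le (by positivity) n
  have Gi : ∀ n, Integrable fun x => ‖ν x‖ * G n x := fun n =>
    hφ.mul_bdd (Gc n).aestronglyMeasurable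
      (.of_forall fun x => (Real.norm_of_nonneg (G0 n x)).trans_le (G1 n x))
  have Gj : ∀ n, Integrable fun x => ‖ν x‖ * G n x ^ 2 := fun n =>
    hφ.mul_bdd ((Gc n).pow 2).aestronglyMeasurable (.of_forall fun x =>
      (Real.norm_of_nonneg (sq_nonneg _)).trans_le (pow_le_pow_left₀ (G0 n x) (G1 n x) 2))
  let J : ℕ → ℝ := fun n => ∫ x, ‖ν x‖ * G n x
  have J0 : ∀ n, 0 ≤ J n := fun n => integral_nonneg fun x => mul_nonneg (norm_nonneg _) (G0 n x)
  have tw : ∀ (η : ℝ) (n : ℕ), n ≠ 0 → ‖∑ d ∈ n.divisors, (ArithmeticFunction.moebius d : ℂ) *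
      exp ((η * Real.log d : ℝ) * I) * Θ (Real.log d / l)‖ ≤ J n + N * GG (2 * |η|) n := by
    intro η n hn
    refine (moll_sum hν hΘ _ _ _ (h := fun x => G n x + GG (2 * |η|) n) ?_ fun x => ?_).trans_eq ?_
    · simp only [mul_add]
      exact (Gi n).add (hφ.mul_const _)
    · refine le_trans (le_of_eq ?_) ((mob (2 * Real.pi * x / l + η) hn).trans (moll_add _ _ n))
      congr 1
      refine sum_congr rfl fun d _ => ?_
      rw [mul_assoc, ← exp_add]
      congr 2
      push_cast
      ring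
    · simp only [mul_add]
      rw [integral_add (Gi n) (hφ.mul_const _), integral_mul_const, ← hN]
  refine ⟨fun d => ArithmeticFunction.moebius d * Θ (Real.log d / l),
    fun e => Θ (Real.log e / (500 * l)), fun n => (2 * N + 2) * J n, ⟨fun d => ?_, fun d h => ?_,
    fun d h => ?_⟩, ⟨fun e => t0 _, fun e h => t1 _ ?_ ?_, fun e h => t2 _ ?_⟩,
    ⟨fun n => mul_nonneg (by positivity) (J0 n), fun m n hm hn => ?_, ?_⟩, fun n => ?_⟩
  · rw [abs_mul, abs_of_nonneg (t0 _).1]
    exact mul_le_one₀ (by exact_mod_cast ArithmeticFunction.abs_moebius_le_one) (t0 _).1 (t0 _).2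
  · have := up 1 d (by rwa [pow_one])
    beta_reduce
    rw [t1 _ (div_nonneg (Real.log_natCast_nonneg d) l0.le) ((div_le_one l0).2 (by simpa using this)),
      mul_one]
  · have := lo 2 d h
    beta_reduce
    rw [t2 _ ((le_div_iff₀ l0).2 (by push_cast at this; linarith)), mul_zero]
  · exact div_nonneg (Real.log_natCast_nonneg e) (by positivity)
  · exact (div_le_one (by positivity)).2 (by simpa using up 500 e h)
  · have := lo 550 e h
    exact (le_div_iff₀ (by positivity)).2 (by push_cast at this; linarith)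
  · beta_reduce
    rw [mul_left_comm]
    refine mul_le_mul_of_nonneg_left ?_ (by positivity)
    rw [← integral_const_mul]
    refine integral_mono (Gi _) ((Gi n).const_mul _) fun x => ?_
    beta_reduce
    rw [mul_left_comm]
    exact mul_le_mul_of_nonneg_left (GG_mul (by positivity) hm hn) (norm_nonneg _)
  · refine le_add_of_nonneg_of_le zero_le_one ?_
    calc ∑ n ∈ Icc 1 (Z ^ 560), ((2 * N + 2) * J n) ^ 2 / n
        ≤ ∑ n ∈ Icc 1 (Z ^ 560), (2 * N + 2) ^ 2 * ((N + 1) * ∫ x, ‖ν x‖ * G n x ^ 2 / (n : ℝ)) := by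
          refine sum_le_sum fun n _ => ?_
          rw [integral_div, mul_pow, mul_div_assoc, ← mul_div_assoc (N + 1), hN]
          gcongr
          exact moll_cs (fun _ => norm_nonneg _) hφ (Gi n) (Gj n)
      _ ≤ _ := by
          rw [← mul_sum, ← mul_sum, ← integral_finsetSum _ fun n _ => (Gj n).div_const _]
          refine mul_le_mul_of_nonneg_left (mul_le_mul_of_nonneg_left ?_ (by positivity))
            (by positivity)
          rw [← integral_const_mul]
          refine integral_mono (integrable_finsetSum _ fun n _ => (Gj n).div_const _)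
            ((ni B).const_mul _) fun x => ?_
          simp only [mul_div_assoc, ← mul_sum]
          rw [mul_left_comm, mul_assoc C, ← mul_pow]
          refine mul_le_mul_of_nonneg_left ((hC _ (by positivity) _).trans ?_) (norm_nonneg _)
          have e : 2 * |2 * Real.pi * x / l| * Real.log (Z ^ 560 : ℕ) = 2240 * Real.pi * |x| := by
            rw [Nat.cast_pow, Real.log_pow, ← hl, abs_div, abs_mul, abs_of_pos l0,
              abs_of_pos (by positivity : 0 < 2 * Real.pi)]
            push_cast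
            field_simp
            ring
          rw [e]
          gcongr
          nlinarith [Real.pi_le_four, abs_nonneg x]
  · rcases eq_or_ne n 0 with rfl | hn
    · have := mul_nonneg (show 0 ≤ 2 * N + 2 by positivity) (J0 0)
      simpa [c1, c2] using this
    constructor
    · have k := tw 0 n hn
      have k2 : N * GG (2 * |0|) n ≤ J n := by
        rw [hN, ← integral_mul_const]
        exact integral_mono (hφ.mul_const _) (Gi n) fun x => mul_le_mul_of_nonneg_left
          (GG_mono (by positivity) (by simp) n) (norm_nonneg _)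
      rw [← Real.norm_eq_abs, ← norm_real, c1]
      simp only [zero_mul, ofReal_zero, exp_zero, mul_one] at k
      push_cast
      refine k.trans ?_
      nlinarith [mul_nonneg N0 (J0 n)]
    · have k := moll_sum hν hΘ n.divisors
        (fun d => (ArithmeticFunction.moebius d : ℂ) * Θ (Real.log d / l))
        (fun d => Real.log (n / d : ℕ) / (500 * l)) (h := fun x => J n + N * G n x)
        (by
          simp only [mul_add, mul_left_comm _ N]
          exact (hφ.mul_const _).add ((Gi n).const_mul N))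
        fun x => ?_
      · simp only [mul_add, mul_left_comm _ N] at k
        rw [integral_add (hφ.mul_const _) ((Gi n).const_mul N), integral_mul_const,
          integral_const_mul, ← hN] at k
        rw [← Real.norm_eq_abs, ← norm_real, c2,
          Nat.sum_divisorsAntidiagonal' fun e d => Θ (Real.log e / (500 * l)) *
            (ArithmeticFunction.moebius d * Θ (Real.log d / l))]
        push_cast
        simp only [mul_comm (Θ (Real.log (n / _ : ℕ) / (500 * l)) : ℂ)]
        nlinarith [J0 n]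
      · refine le_trans (le_of_eq ?_) ((tw (-(2 * Real.pi * x / (500 * l))) n hn).trans ?_)
        · rw [← one_mul ‖∑ d ∈ n.divisors, _ * exp (((-_ * _ : ℝ)) * I) * _‖,
            ← norm_exp_ofReal_mul_I (2 * Real.pi * x * Real.log n / (500 * l)), ← norm_mul, mul_sum]
          congr 1
          refine sum_congr rfl fun d hd => ?_
          have hd' := Nat.dvd_of_mem_divisors hd
          have d0 : (d : ℝ) ≠ 0 := by exact_mod_cast (Nat.pos_of_mem_divisors hd).ne'
          rw [Nat.cast_div hd' d0, Real.log_div (by exact_mod_cast hn) d0, mul_right_comm _ (exp _),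
            mul_left_comm (exp _), ← exp_add]
          congr 2
          push_cast
          ring
        · refine add_le_add le_rfl (mul_le_mul_of_nonneg_left (GG_mono (by positivity) ?_ n) N0)
          rw [abs_neg, abs_div, abs_div, abs_of_pos l0, abs_of_pos (by positivity : 0 < 500 * l)]
          gcongr
          linarith

end Pool.Agent.Lib.MP_31bf45_nt.Lf
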