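import Pool.Agent.Lib.MP_31bf45_nt.Lf.Def
import Pool.Agent.Lib.MP_31bf45_nt.Cl.Fac

/-! Splitting a window into equal parts, and a calculus lemma. -/

set_option autoImplicit false

namespace Pool.Agent.Lib.MP_31bf45_nt.Lf

open Complex Finset MeasureTheory Metric Om Cl Pool.Agent.Lib.MP_b09185_nt.Sh
open Pool.Agent.Lib.MP_b09185_nt.Mai (EE)
open scoped ComplexConjugate

theorem split_eta (F : Finset ℝ) : ∃ η : ℝ, 0 < η ∧ η < 1 ∧ ∀ f ∈ F, f ≤ 0 ∨ η < f := by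
  have h1 : ∀ᶠ η in nhdsWithin (0 : ℝ) (Set.Ioi 0), ∀ f ∈ F, f ≤ 0 ∨ η < f :=
    (Filter.eventually_all_finset F).2 fun f _ => by
      rcases le_or_gt f 0 with h | h
      · exact Filter.Eventually.of_forall fun _ => Or.inl h
      · filter_upwards [Ioo_mem_nhdsGT h] with η hη using Or.inr hη.2
  obtain ⟨η, a, b⟩ := (h1.and (Ioo_mem_nhdsGT (zero_lt_one' ℝ))).exists
  exact ⟨η, b.1, b.2, a⟩

theorem split_sum (S : Finset ℂ) (w : ℂ → ℕ) (x : ℝ) {h : ℝ} (h0 : 0 < h) (j : ℕ) :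
    ∑ k ∈ range j, ∑ ρ ∈ S with x + k * h < ρ.im ∧ ρ.im < x + k * h + h, w ρ =
      ∑ ρ ∈ (range j).biUnion fun k : ℕ => {ρ ∈ S | x + k * h < ρ.im ∧ ρ.im < x + k * h + h},
        w ρ := by
  refine (sum_biUnion fun k _ l _ hkl => ?_).symm
  refine disjoint_left.2 fun ρ a b => hkl ?_
  obtain ⟨a1, a2⟩ := (mem_filter.1 a).2
  obtain ⟨b1, b2⟩ := (mem_filter.1 b).2
  have c1 : (k : ℝ) < l + 1 := lt_of_mul_lt_mul_right (by linarith) h0.le
  have c2 : (l : ℝ) < k + 1 := lt_of_mul_lt_mul_right (by linarith) h0.le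
  have d1 : k < l + 1 := by exact_mod_cast c1
  have d2 : l < k + 1 := by exact_mod_cast c2
  omega

theorem split {y h v c ε : ℝ} {j m : ℕ} (hy : 20 ≤ y) (h0 : 0 < h) (hj : 1 ≤ j) (h1 : j * h ≤ 1)
    (hε : ε = 1 ∨ ε = -1) (hm : IsZ y (j * h) m) (hc : c ≤ ε * (m - j * v)) :
    ∃ y' ∈ Set.Icc y (y + 2), ∃ m' : ℕ, IsZ y' h m' ∧ c / j ≤ ε * (m' - v) := by
  obtain ⟨C, -, hC⟩ := fac
  obtain ⟨n, r, H, -, -, -, -, -, hZ⟩ := hC y hy
  obtain ⟨S, hS, -⟩ := hZ y 2 (by linarith) (by linarith)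
  obtain ⟨S₀, hS₀, rfl⟩ := hm
  have hj' : (0 : ℝ) < j := by exact_mod_cast hj
  have key : ∀ η : ℝ, 0 ≤ η → η ≤ 1 → ε * (∑ ρ ∈ S₀, analyticOrderNatAt riemannZeta ρ : ℕ) ≤
      ε * (∑ ρ ∈ (range j).biUnion fun k : ℕ => {ρ ∈ S | y + η + k * h < ρ.im ∧
        ρ.im < y + η + k * h + h}, analyticOrderNatAt riemannZeta ρ : ℕ) →
      ∃ y' ∈ Set.Icc y (y + 2), ∃ m' : ℕ, IsZ y' h m' ∧ c / j ≤ ε * (m' - v) := by
    intro η e0 e1 e2
    rw [← split_sum S _ _ h0, Nat.cast_sum (range j)] at e2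
    obtain ⟨k, hk, e3⟩ := exists_le_of_sum_le (s := range j) (f := fun _ => c / j)
      (g := fun k : ℕ => ε * ((∑ ρ ∈ S with y + η + k * h < ρ.im ∧ ρ.im < y + η + k * h + h,
        analyticOrderNatAt riemannZeta ρ : ℕ) - v)) (nonempty_range_iff.2 (by omega)) (by
        rw [← mul_sum, sum_sub_distrib, sum_const, sum_const, card_range, nsmul_eq_mul,
          nsmul_eq_mul, mul_div_cancel₀ _ hj'.ne', mul_sub]
        linarith)
    have k1 : (k : ℝ) + 1 ≤ j := by exact_mod_cast mem_range.1 hk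
    have k2 : 0 ≤ k * h := by positivity
    have k3 := mul_le_mul_of_nonneg_right k1 h0.le
    refine ⟨y + η + k * h, ⟨by linarith, by linarith⟩, _, ⟨_, fun ρ => ?_, rfl⟩, e3⟩
    rw [mem_filter, hS]
    exact ⟨fun a => ⟨a.1.1, a.2⟩, fun a => ⟨⟨a.1, by linarith [a.2.1], by linarith [a.2.2]⟩, a.2⟩⟩
  rcases hε with rfl | rfl
  · obtain ⟨η, e0, e1, e2⟩ := split_eta ((S ×ˢ range j).image fun p => p.1.im - y - p.2 * h)
    refine key η e0.le e1.le ?_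
    rw [one_mul, one_mul, Nat.cast_le]
    refine sum_le_sum_of_subset fun ρ hρ => ?_
    obtain ⟨a1, a2, a3⟩ := (hS₀ ρ).1 hρ
    have a4 : ρ ∈ S := (hS ρ).2 ⟨a1, a2, by linarith⟩
    have a5 : ∀ k < j, ρ.im - y - k * h ≤ 0 ∨ η < ρ.im - y - k * h := fun k hk =>
      e2 _ (mem_image.2 ⟨(ρ, k), mem_product.2 ⟨a4, mem_range.2 hk⟩, rfl⟩)
    have a6 : η < ρ.im - y := by
      have := a5 0 hj
      simp only [Nat.cast_zero, zero_mul, sub_zero] at this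
      exact this.resolve_left (by linarith)
    have a7 : 0 ≤ (ρ.im - y - η) / h := div_nonneg (by linarith) h0.le
    have a8 := (le_div_iff₀ h0).1 (Nat.floor_le a7)
    have a9 := (div_lt_iff₀ h0).1 (Nat.lt_floor_add_one ((ρ.im - y - η) / h))
    have b1 : ⌊(ρ.im - y - η) / h⌋₊ < j :=
      (Nat.floor_lt a7).2 ((div_lt_iff₀ h0).2 (by linarith))
    refine mem_biUnion.2 ⟨_, mem_range.2 b1, mem_filter.2 ⟨a4, ?_, by linarith⟩⟩
    rcases a5 _ b1 with b2 | b2 <;> linarith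
  · refine key 0 le_rfl zero_le_one ?_
    rw [neg_one_mul, neg_one_mul, neg_le_neg_iff, Nat.cast_le]
    refine sum_le_sum_of_subset fun ρ hρ => ?_
    obtain ⟨k, hk, a⟩ := mem_biUnion.1 hρ
    obtain ⟨a1, a2, a3⟩ := mem_filter.1 a
    have k1 : (k : ℝ) + 1 ≤ j := by exact_mod_cast mem_range.1 hk
    have k2 : 0 ≤ k * h := by positivity
    have k3 := mul_le_mul_of_nonneg_right k1 h0.le
    exact (hS₀ ρ).2 ⟨((hS ρ).1 a1).1, by linarith, by linarith⟩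

theorem asy (C D : ℝ) (hD : 1 ≤ D) : ∃ w0 : ℝ, ∀ w κ : ℝ, w0 ≤ w → 1 ≤ κ → D ≤ w ^ 3 ∧
    C * (D * w) ^ 2 * Real.exp (32 * κ - w ^ 4 * κ) ≤ 1 ∧
    C * (D * w) ^ 2 * Real.exp (400 * w ^ 2 - w ^ 3 / (2 * D)) ≤ 1 := by
  obtain ⟨A, A0, hA⟩ : ∃ A : ℝ, 0 ≤ A ∧ C * D ^ 2 ≤ A := ⟨_, abs_nonneg _, le_abs_self _⟩
  refine ⟨2 * D * (A + 400), fun w κ hw hκ => ?_⟩
  have a0 : 0 ≤ D * A := by positivity
  have a1 : A ≤ D * A := le_mul_of_one_le_left A0 hD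
  have w1 : D ≤ w := by linarith
  have w2 : A + 400 ≤ w := by linarith
  have w3 : 1 ≤ w := by linarith
  have w4 : w ≤ w ^ 2 := le_self_pow₀ w3 (by norm_num)
  have key : ∀ x : ℝ, A * w ^ 2 + x ≤ 0 → C * (D * w) ^ 2 * Real.exp x ≤ 1 := fun x hx => by
    have b1 : C * (D * w) ^ 2 ≤ Real.exp (A * w ^ 2) := by
      have := mul_le_mul_of_nonneg_right hA (sq_nonneg w)
      rw [mul_pow, ← mul_assoc]
      linarith [Real.add_one_le_exp (A * w ^ 2)]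
    refine (mul_le_mul_of_nonneg_right b1 (Real.exp_pos _).le).trans ?_
    rw [← Real.exp_add]
    exact Real.exp_le_one_iff.2 hx
  refine ⟨w1.trans (le_self_pow₀ w3 (by norm_num)), key _ ?_, key _ ?_⟩
  · have b1 : (A + 32) * w ^ 2 ≤ w ^ 2 * w ^ 2 :=
      mul_le_mul_of_nonneg_right (by linarith) (sq_nonneg w)
    have b2 : A * w ^ 2 + 32 ≤ w ^ 4 := by nlinarith
    have b3 : 0 ≤ A * w ^ 2 := by positivity
    nlinarith [mul_le_mul_of_nonneg_right b2 (by linarith : 0 ≤ κ),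
      mul_le_mul_of_nonneg_left hκ b3]
  · have b1 : (A + 400) * w ^ 2 ≤ w ^ 3 / (2 * D) := by
      rw [le_div_iff₀ (by linarith)]
      nlinarith [mul_le_mul_of_nonneg_right hw (sq_nonneg w)]
    linarith

end Pool.Agent.Lib.MP_31bf45_nt.Lf
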