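import Pool.Agent.Lib.MP_31bf45_nt.Lf.Def
import Pool.Agent.Lib.MP_31bf45_nt.Om.Tw

/-! Mean values against the resonator, for coefficients with an admissible majorant. -/

set_option autoImplicit false

namespace Pool.Agent.Lib.MP_31bf45_nt.Lf

open Complex Finset MeasureTheory Metric Om Cl Pool.Agent.Lib.MP_b09185_nt.Sh

section
variable {P : Finset ℕ} {K : ℕ} {a X : ℝ}

theorem tw_diag (hP : ∀ p ∈ P, p.Prime) (ha : 0 ≤ a) (k : ℕ) {g : ℕ → ℝ} (hg : Gd K X g) :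
    (∑ i ∈ SS P k ×ˢ Icc 1 K, ∑ j ∈ SS P k ×ˢ Icc 1 K, if mS i.1 * i.2 = mS j.1 * j.2 then
      fS a i.1 * (g i.2 / √i.2) * (fS a j.1 * (g j.2 / √j.2)) else 0) ≤
      QQ P k a * Real.exp (4 * a * ∑ p ∈ P, (1 / p : ℝ)) * X := by
  obtain ⟨n0, hm, hX⟩ := hg
  rw [← sum_product']
  have g0 : ∀ A : Finset ℕ, 0 ≤ ∏ p ∈ A, 2 * a / p := fun A => prod_nonneg fun _ _ => by positivity
  refine (dg_le (Y := (SS P k ×ˢ P.powerset ×ˢ P.powerset) ×ˢ Icc 1 K)
    (fun y => ((y.1.1 ∪ y.1.2.1, mS y.1.2.2 * y.2), (y.1.1 ∪ y.1.2.2, mS y.1.2.1 * y.2)))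
    (G := fun y => fS a y.1.1 ^ 2 * ((∏ p ∈ y.1.2.1, 2 * a / p) * ∏ p ∈ y.1.2.2, 2 * a / p) *
      (g y.2 ^ 2 / y.2))
    (fun y _ => mul_nonneg (mul_nonneg (sq_nonneg _) (mul_nonneg (g0 _) (g0 _))) (by positivity))
    ?_).trans ?_
  · rintro ⟨⟨S, n⟩, T, m⟩ hx
    simp only [mem_product, SS, mem_filter, mem_powerset, mem_Icc] at hx
    obtain ⟨⟨⟨hS, kS⟩, n1, nK⟩, ⟨hT, -⟩, -, -⟩ := hx
    by_cases e : mS S * n = mS T * m
    swap
    · exact Or.inl (if_neg e).le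
    have pA : ∀ p ∈ S \ T, p.Prime := fun p hp => hP p (hS (mem_sdiff.1 hp).1)
    have pB : ∀ p ∈ T \ S, p.Prime := fun p hp => hP p (hT (mem_sdiff.1 hp).1)
    have m1 : mS S = mS (S ∩ T) * mS (S \ T) := (prod_inter_mul_prod_sdiff S T _).symm
    have m2 : mS T = mS (S ∩ T) * mS (T \ S) := by
      rw [inter_comm]; exact (prod_inter_mul_prod_sdiff T S _).symm
    have f1 : fS a S = fS a (S ∩ T) * fS a (S \ T) := (prod_inter_mul_prod_sdiff S T _).symm
    have f2 : fS a T = fS a (S ∩ T) * fS a (T \ S) := by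
      rw [inter_comm]; exact (prod_inter_mul_prod_sdiff T S _).symm
    have u0 : 0 < mS (S ∩ T) := prod_pos fun p hp => (hP p (hS (mem_inter.1 hp).1)).pos
    have b0 : 0 < mS (T \ S) := prod_pos fun p hp => (pB p hp).pos
    have a0 : 0 < mS (S \ T) := prod_pos fun p hp => (pA p hp).pos
    have e' : mS (S \ T) * n = mS (T \ S) * m := Nat.eq_of_mul_eq_mul_left u0 (by
      rw [← mul_assoc, ← mul_assoc, ← m1, ← m2, e])
    have co : (mS (T \ S)).Coprime (mS (S \ T)) :=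
      Nat.Coprime.prod_left fun p hp => Nat.Coprime.prod_right fun q hq =>
        (Nat.coprime_primes (pB p hp) (pA q hq)).2 fun h =>
          (mem_sdiff.1 hp).2 (h ▸ (mem_sdiff.1 hq).1)
    obtain ⟨l, rfl⟩ := co.dvd_of_dvd_mul_left (e' ▸ dvd_mul_right _ m)
    obtain rfl : m = mS (S \ T) * l := Nat.eq_of_mul_eq_mul_left b0 (by rw [← e']; ring)
    have l1 : 0 < l := Nat.pos_of_mul_pos_left n1
    refine Or.inr ⟨((S ∩ T, S \ T, T \ S), l), ?_, ?_, ?_⟩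
    · simp only [mem_product, SS, mem_filter, mem_powerset, mem_Icc]
      exact ⟨⟨⟨inter_subset_left.trans hS, (card_le_card inter_subset_left).trans kS⟩,
        sdiff_subset.trans hS, sdiff_subset.trans hT⟩, l1, (Nat.le_mul_of_pos_left _ b0).trans nK⟩
    · have a1 : S ∩ T ∪ S \ T = S := by rw [union_comm, sdiff_union_inter]
      have a2 : S ∩ T ∪ T \ S = T := by rw [union_comm, inter_comm, sdiff_union_inter]
      simp only [a1, a2]
    · have l0 : (0 : ℝ) ≤ l := l.cast_nonneg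
      have z1 := fS_nonneg ha (S ∩ T)
      have z2 := fS_nonneg ha (S \ T)
      have z3 := fS_nonneg ha (T \ S)
      refine (if_pos e).trans_le ?_
      dsimp only
      rw [f1, f2]
      calc _ ≤ fS a (S ∩ T) * fS a (S \ T) *
            (#(mS (T \ S)).divisors * g l / √(mS (T \ S) * l : ℕ)) *
            (fS a (S ∩ T) * fS a (T \ S) *
              (#(mS (S \ T)).divisors * g l / √(mS (S \ T) * l : ℕ))) := by
            have := n0 l
            have := n0 (mS (S \ T) * l)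
            gcongr
            exacts [hm _ _ b0.ne' l1.ne', hm _ _ a0.ne' l1.ne']
        _ = fS a (S ∩ T) ^ 2 * (fS a (S \ T) * (#(mS (S \ T)).divisors / √(mS (S \ T))) *
            (fS a (T \ S) * (#(mS (T \ S)).divisors / √(mS (T \ S))))) *
            (g l ^ 2 / (√l * √l)) := by
            push_cast
            rw [Real.sqrt_mul' _ l0, Real.sqrt_mul' _ l0]
            ring
        _ ≤ _ := by
            rw [Real.mul_self_sqrt l0]
            refine mul_le_mul_of_nonneg_right (mul_le_mul_of_nonneg_left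
              (mul_le_mul (dg_one ha pA) (dg_one ha pB) (by positivity) (g0 _)) (sq_nonneg _))
              (by positivity)
  · rw [sum_product, ← sum_mul_sum (f := fun y : Finset ℕ × Finset ℕ × Finset ℕ => fS a y.1 ^ 2 *
      ((∏ p ∈ y.2.1, 2 * a / p) * ∏ p ∈ y.2.2, 2 * a / p))
      (g := fun l : ℕ => g l ^ 2 / l), sum_product,
      ← sum_mul_sum (f := fun S => fS a S ^ 2) (g := fun y : Finset ℕ × Finset ℕ =>
        (∏ p ∈ y.1, 2 * a / p) * ∏ p ∈ y.2, 2 * a / p), sum_product,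
      ← sum_mul_sum (f := fun A : Finset ℕ => ∏ p ∈ A, 2 * a / p)
        (g := fun A : Finset ℕ => ∏ p ∈ A, 2 * a / p)]
    have q0 := zero_le_one.trans (one_le_QQ P k a)
    refine mul_le_mul (mul_le_mul_of_nonneg_left ?_ q0) hX
      (sum_nonneg fun _ _ => by positivity) (by positivity)
    refine (mul_le_mul (dg_pow ha P) (dg_pow ha P) (sum_nonneg fun A _ => g0 A)
      (Real.exp_pos _).le).trans (le_of_eq ?_)
    rw [← Real.exp_add]
    congr 1
    ring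

end

theorem tw {P : Finset ℕ} {k N K : ℕ} {a H X : ℝ} {θ : ℂ} (hP : ∀ p ∈ P, p.Prime) (ha : 0 ≤ a)
    (hN : ∀ S ∈ SS P k, mS S ≤ N) (hθ : ‖θ‖ = 1) {g : ℕ → ℝ} (hg : Gd K X g) {b : ℕ → ℂ}
    (hb : ∀ n, ‖b n‖ ≤ g n) (h : N * K * gs (H / (N * K)) ≤ 1) (t₀ v : ℝ) :
    ∫ x : ℝ, ‖RR P k a θ (t₀ + H * x)‖ ^ 2 * ‖QP K b (t₀ + H * x + v)‖ ^ 2 * gs x ≤
      6 * (QQ P k a * Real.exp (4 * a * ∑ p ∈ P, (1 / p : ℝ)) * X) := by
  have e : ∀ t : ℝ, ‖RR P k a θ t‖ ^ 2 * ‖QP K b (t + v)‖ ^ 2 = ‖∑ i ∈ SS P k ×ˢ Icc 1 K,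
      θ ^ #i.1 * fS a i.1 * (b i.2 / (√i.2 : ℝ) * ee i.2 v) * ee (mS i.1 * i.2) t‖ ^ 2 := by
    intro t
    rw [← mul_pow, ← norm_mul, RR, QP, sum_mul_sum, sum_product]
    congr 2
    refine sum_congr rfl fun S hS => sum_congr rfl fun n hn => ?_
    rw [ee_mul (tw_pos hP hS).ne' (Nat.pos_iff_ne_zero.1 (mem_Icc.1 hn).1), ee_add]
    ring
  have h2 : (#(SS P k ×ˢ Icc 1 K) : ℝ) ≤ N * K := by
    rw [card_product, Nat.card_Icc, Nat.add_sub_cancel]
    exact_mod_cast Nat.mul_le_mul_right K (card_SS hP hN)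
  have h3 : ∀ i : Finset ℕ × ℕ, ‖θ ^ #i.1 * fS a i.1 * (b i.2 / (√i.2 : ℝ) * ee i.2 v)‖ ≤
      fS a i.1 * (g i.2 / √i.2) := fun i => by
    rw [norm_mul, tw_norm ha hθ, norm_mul, norm_ee, mul_one, norm_div, norm_real,
      Real.norm_of_nonneg (Real.sqrt_nonneg _)]
    have := fS_nonneg ha i.1
    have := hb i.2
    gcongr
  have h4 : 2 * √(2 * Real.pi) ≤ 6 := by
    have : √(2 * Real.pi) ≤ 3 := Real.sqrt_le_iff.2 ⟨by norm_num, by linarith [Real.pi_le_four]⟩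
    linarith
  simp only [e]
  refine (mv_sq (A := SS P k ×ˢ Icc 1 K) (Y := N * K) (H := H) t₀
    (fun i => θ ^ #i.1 * fS a i.1 * (b i.2 / (√i.2 : ℝ) * ee i.2 v)) (m := fun i => mS i.1 * i.2)
    (fun i hi => ?_) ((mul_le_mul_of_nonneg_right h2 (gs_pos _).le).trans h)).trans
    (mul_le_mul h4 (le_trans (sum_le_sum fun i _ => sum_le_sum fun j _ => ?_) (tw_diag hP ha k hg))
      (sum_nonneg fun i _ => sum_nonneg fun j _ => by split_ifs <;> positivity) (by norm_num))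
  · obtain ⟨h5, h6⟩ := mem_product.1 hi
    obtain ⟨h7, h8⟩ := mem_Icc.1 h6
    exact ⟨Nat.mul_pos (tw_pos hP h5) h7, by exact_mod_cast Nat.mul_le_mul (hN _ h5) h8⟩
  · split_ifs
    · exact mul_le_mul (h3 i) (h3 j) (norm_nonneg _) ((norm_nonneg _).trans (h3 i))
    · exact le_rfl

end Pool.Agent.Lib.MP_31bf45_nt.Lf
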