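import Pool.Agent.Lib.MP_31bf45_nt.Lf.Cnt
import Pool.Agent.Lib.MP_31bf45_nt.Lf.Loc
import Pool.Agent.Lib.MP_31bf45_nt.Lf.Moll
import Pool.Agent.Lib.MP_31bf45_nt.Lf.Tw
import Pool.Agent.Lib.MP_31bf45_nt.Lf.Split
import Pool.Agent.Lib.MP_31bf45_nt.Cl.End

/-! Clusters and gaps of zeros of zeta in the full range: choice of the parameters. -/

set_option autoImplicit false

namespace Pool.Agent.Lib.MP_31bf45_nt.Lf

open Complex Finset MeasureTheory Metric Om Cl Pool.Agent.Lib.MP_b09185_nt.Sh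

theorem end_pos' {z : ℝ} (hz : 2400 ≤ z) : z ^ 900 + 7 ≤ z ^ 999 ∧ z ^ 603 + 2 ≤ z ^ 666 ∧
    z ^ 666 ≤ z ^ 999 := by
  have h : ∀ i j : ℕ, 1 ≤ i → i < j → z ^ i + 7 ≤ z ^ j := fun i j h1 h2 => by
    have a := le_self_pow₀ (show 1 ≤ z by linarith) (Nat.one_le_iff_ne_zero.1 h1)
    have b := pow_le_pow_right₀ (show 1 ≤ z by linarith) (Nat.succ_le_of_lt h2)
    rw [pow_succ] at b
    nlinarith
  exact ⟨h _ _ (by norm_num) (by norm_num), by linarith [h 603 666 (by norm_num) (by norm_num)],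
    pow_le_pow_right₀ (by linarith) (by norm_num)⟩

theorem end_Z : ∃ (W : ℝ) (Z1 : ℕ), 1 ≤ W ∧ ∀ Z : ℕ, Z1 ≤ Z → 3 ≤ Real.log (Real.log Z) ∧
    ∀ T : ℝ, (Z : ℝ) ^ 999 ≤ T → 2 * T ≤ (Z : ℝ) ^ 1000 → ∀ κ w : ℝ, W ≤ w →
    Real.log Z = w ^ 4 * κ →
    64 * Real.log (Real.log T) ≤ κ → ∀ ε : ℝ, ε = 1 ∨ ε = -1 →
    ∃ y ∈ Set.Icc T (T + (Z : ℝ) ^ 603), ∃ m : ℕ, IsZ y (80 / κ) m ∧
      1 / 200 * w ^ 2 ≤ ε * (m - 80 / κ * Real.log T / (2 * Real.pi)) := by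
  obtain ⟨C, hC, hpt⟩ := loc
  obtain ⟨C2, hC2, hcnt⟩ := cnt
  obtain ⟨X, X1, hmo⟩ := moll
  obtain ⟨x0, hx0⟩ := primes_sum
  obtain ⟨D, hD⟩ : ∃ D, D = 1000 * C := ⟨_, rfl⟩
  have D1 : 1 ≤ D := by linarith
  obtain ⟨w0, hw0⟩ := asy (4200 * X * (C * C2)) D D1
  obtain ⟨W, hW⟩ : ∃ W, W = max w0 (100 * C + 100) := ⟨_, rfl⟩
  have W1 : w0 ≤ W := hW ▸ le_max_left _ _
  have W2 : 100 * C + 100 ≤ W := hW ▸ le_max_right _ _
  have tl := Real.tendsto_log_atTop.comp (tendsto_natCast_atTop_atTop (R := ℝ))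
  obtain ⟨Z1, hZ1⟩ := Filter.eventually_atTop.1 (((tl.eventually_ge_atTop (max x0 1)).and
    ((Real.tendsto_log_atTop.comp tl).eventually_ge_atTop 3)).and
    (Filter.eventually_ge_atTop 2400))
  refine ⟨W, Z1, by linarith, fun Z hZ => ?_⟩
  obtain ⟨⟨z0, l5⟩, z3⟩ := hZ1 Z hZ
  obtain ⟨a0, V0', g, hM, hH, hg, hc12⟩ := hmo Z (by omega)
  obtain ⟨b, hb, hcnt⟩ := hcnt Z (by omega) a0 V0' hM hH
  have z4 : (2400 : ℝ) ≤ Z := by exact_mod_cast z3
  have z5 : (1 : ℝ) ≤ Z := by linarith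
  simp only [Function.comp, max_le_iff] at z0 l5
  obtain ⟨l, hl⟩ : ∃ l, l = Real.log Z := ⟨_, rfl⟩
  have el : Real.exp l = Z := by rw [hl, Real.exp_log (by linarith)]
  rw [← hl] at z0 l5 hcnt ⊢
  obtain ⟨l2, l3⟩ := z0
  refine ⟨l5, fun T T1 T2 κ w w1 hw hκ ε hε => by_contra fun hc => ?_⟩
  obtain ⟨q1, q2, q3, q4, q5⟩ := end_pos z4
  obtain ⟨q6, q7, q8⟩ := end_pos' z4
  have T0 : 0 < T := by linarith
  obtain ⟨L, hL⟩ : ∃ L, L = Real.log T := ⟨_, rfl⟩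
  have L1 := Real.log_le_log (by positivity) T1
  have L2 := Real.log_le_log T0 (show T ≤ (Z : ℝ) ^ 1000 by linarith)
  rw [Real.log_pow, Nat.cast_ofNat, ← hl, ← hL] at L1 L2
  rw [← hL] at hκ hc
  have L3 : Real.log l ≤ Real.log L := Real.log_le_log (by linarith) (by linarith)
  have κ1 : 192 ≤ κ := by linarith
  have κ0 : 0 < κ := by linarith
  have w2 : 200 ≤ w := by linarith
  have wp : 0 < w := by linarith
  obtain ⟨V, hV⟩ : ∃ V, V = w ^ 2 := ⟨_, rfl⟩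
  have V1 : 200 ≤ V := hV ▸ w2.trans (le_self_pow₀ (by linarith) two_ne_zero)
  have V0 : 0 < V := by linarith
  have V2 : l = V ^ 2 * κ := by rw [hw, hV]; ring
  have V3 : 200 ≤ V ^ 2 := V1.trans (le_self_pow₀ (by linarith) two_ne_zero)
  have V5 : 200 * κ ≤ l := by rw [V2]; gcongr
  have V4 : 192 * V ^ 2 ≤ l := by rw [V2, mul_comm]; gcongr
  obtain ⟨a7, a8, a6⟩ := hw0 w κ (by linarith) (by linarith)
  obtain ⟨a3, a5⟩ := end_A hC hD (by linarith) κ0 hw L2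
  obtain ⟨δ, hδ⟩ : ∃ δ, δ = (D * κ * w)⁻¹ := ⟨_, rfl⟩
  have δ0 : 0 < δ := by rw [hδ]; positivity
  rw [← hδ, ← hV] at a5
  rw [← hδ] at a3
  rw [← hV] at hc a6
  have D2 : 8 ≤ D * w := by nlinarith only [D1, w2]
  have d1 : δ * κ = (D * w)⁻¹ := by rw [hδ]; field_simp
  have d2 : δ * l = w ^ 3 / D := by rw [hδ, hw]; field_simp
  have x4 : L ≤ Real.exp (κ / 64) := by
    rw [← Real.exp_log (show 0 < L by linarith)]
    exact Real.exp_le_exp.2 (by linarith)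
  obtain ⟨x, hx⟩ : ∃ x, x = ⌊Real.exp (κ / 64)⌋₊ := ⟨_, rfl⟩
  have x1 : (x : ℝ) ≤ Real.exp (κ / 64) := hx ▸ Nat.floor_le (Real.exp_pos _).le
  have x2 : Real.exp (κ / 64) < x + 1 := hx ▸ Nat.lt_floor_add_one _
  have x5 : 998 * l ≤ x := by linarith
  have x3 : 1 ≤ x := by exact_mod_cast (show (1 : ℝ) ≤ x by linarith)
  obtain ⟨s1, s2⟩ := hx0 x (by exact_mod_cast (show (x0 : ℝ) ≤ x by linarith))
  obtain ⟨P, hP⟩ : ∃ P, P = (Ioc x (x ^ 2)).filter Nat.Prime := ⟨_, rfl⟩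
  have p1 : ∀ p ∈ P, p.Prime := fun p hp => (mem_filter.1 (hP ▸ hp)).2
  have p2 : ∀ p ∈ P, x < p ∧ p ≤ x ^ 2 := fun p hp => mem_Ioc.1 (mem_filter.1 (hP ▸ hp)).1
  obtain ⟨k, hk⟩ : ∃ k, k = ⌊1280 * V ^ 2⌋₊ := ⟨_, rfl⟩
  have k1 : (k : ℝ) ≤ 1280 * V ^ 2 := hk ▸ Nat.floor_le (by linarith)
  have k2 : 1279 * V ^ 2 ≤ k := by linarith [hk ▸ Nat.lt_floor_add_one (1280 * V ^ 2)]
  have hN : ∀ S ∈ SS P k, mS S ≤ Z ^ 40 := fun S hS => by
    refine (end_mS x3 (hP ▸ hS)).trans ?_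
    have : (x : ℝ) ^ (2 * k) ≤ (Z : ℝ) ^ 40 := by
      refine (pow_le_pow_left₀ x.cast_nonneg x1 _).trans ?_
      rw [← el, ← Real.exp_nat_mul, ← Real.exp_nat_mul]
      refine Real.exp_le_exp.2 ?_
      have := mul_le_mul_of_nonneg_right k1 κ0.le
      rw [mul_assoc, ← V2] at this
      push_cast; linarith
    exact_mod_cast this
  rw [← hP] at s1 s2
  obtain ⟨σ, hσ⟩ : ∃ σ, σ = ∑ p ∈ P, (1 / p : ℝ) := ⟨_, rfl⟩
  rw [← hσ] at s1 s2
  obtain ⟨a, ha⟩ : ∃ a, a = √(2 * k / σ) := ⟨_, rfl⟩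
  have b0 : 0 < 2 * k / σ := div_pos (by linarith) (by linarith)
  have b1 : 0 < a := ha ▸ Real.sqrt_pos.2 b0
  have b2 : a ^ 2 * σ = 2 * k := by
    rw [ha, Real.sq_sqrt b0.le, div_mul_cancel₀ _ (by linarith)]
  have b3 := end_a3 b2 s2 k.cast_nonneg k1 V0
  have b4 := end_a4 b2 s1 k2 b1 V0
  obtain ⟨Y, hY⟩ : ∃ Y, Y = ⌈Real.exp (50 * κ)⌉₊ := ⟨_, rfl⟩
  have Y1 : Real.exp (50 * κ) ≤ Y := hY ▸ Nat.le_ceil _
  have Y2 : (Y : ℝ) ≤ Real.exp (50 * κ) + 1 := hY ▸ (Nat.ceil_lt_add_one (Real.exp_pos _).le).le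
  have Y5 : 1 ≤ Real.exp (50 * κ) := Real.one_le_exp (by positivity)
  have Y3 : (Y : ℝ) ≤ Z := by
    have e1 : Real.exp (50 * κ) * Real.exp κ ≤ Z := by
      rw [← el, ← Real.exp_add]
      exact Real.exp_le_exp.2 (by linarith)
    exact Y2.trans ((end_two Y5 (by linarith)).trans e1)
  have Y4 : (1 : ℝ) ≤ Y := Y5.trans Y1
  have p3 : ∀ p ∈ P, κ / 80 ≤ Real.log p ∧ Real.log p ≤ κ / 32 := fun p hp => by
    have h0 : (0 : ℝ) < p := by exact_mod_cast (p1 p hp).pos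
    have h1 : (p : ℝ) ≤ (x : ℝ) ^ 2 := by exact_mod_cast (p2 p hp).2
    have h2 : (x : ℝ) + 1 ≤ p := by exact_mod_cast (p2 p hp).1
    have h3 := (Real.le_log_iff_exp_le h0).2 (x2.le.trans h2)
    refine ⟨by linarith, (Real.log_le_iff_le_exp h0).2 (h1.trans ?_)⟩
    rw [show κ / 32 = (2 : ℕ) * (κ / 64) by push_cast; ring, Real.exp_nat_mul]
    exact pow_le_pow_left₀ x.cast_nonneg x1 _
  have p4 : ∀ p ∈ P, p ≤ Y := fun p hp => by
    have h1 : (p : ℝ) ≤ Y := by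
      rw [← Real.exp_log (show (0 : ℝ) < p by exact_mod_cast (p1 p hp).pos)]
      exact (Real.exp_le_exp.2 ((p3 p hp).2.trans (by linarith))).trans Y1
    exact_mod_cast h1
  have hε' : -ε = 1 ∨ -ε = -1 := by rcases hε with rfl | rfl <;> simp
  have hθ : ‖((-ε : ℝ) : ℂ)‖ = 1 := by rcases hε with rfl | rfl <;> simp
  have hε1 : |-ε| = 1 := by rcases hε with rfl | rfl <;> simp
  have u1 : ∀ j : ℕ, 1 ≤ (Z : ℝ) ^ j := fun j => one_le_pow₀ z5
  have u2 : ∀ i j : ℕ, i ≤ j → (Z : ℝ) ^ i ≤ (Z : ℝ) ^ j := fun i j => pow_le_pow_right₀ z5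
  have u3 : (Y : ℝ) * (Z : ℝ) ^ 40 ≤ (Z : ℝ) ^ 600 :=
    (mul_le_mul_of_nonneg_right Y3 (by positivity)).trans (by
      rw [← pow_succ']; exact u2 _ _ (by norm_num))
  have lo := main (Y := Y) (H := (Z : ℝ) ^ 601) p1 b1 hN (end_one κ0) (fun n => cb_pow)
    (fun p hp => ⟨p4 p hp, cb_prime (by linarith) (p1 p hp) (p3 p hp).1 (p3 p hp).2⟩) (by norm_num)
    (by exact_mod_cast Y4) (gain (x := x) (fun p hp => by exact_mod_cast (p2 p hp).1.le) (by linarith)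
      (hσ ▸ b2) (by rw [← hσ]; linarith [mul_le_mul x5 s1 (by norm_num) x.cast_nonneg])) hε'
    (end_gs z4 (by push_cast; exact one_le_mul_of_one_le_of_one_le (u1 _) Y4)
      (by push_cast; rw [mul_comm]; exact u3)) (T + 2 * (Z : ℝ) ^ 602)
  have cF : Continuous (FP κ Y) := by unfold FP; fun_prop
  have g2 := end_gs (m := ((Z ^ 40 : ℕ) : ℝ) * ((Z ^ 560 : ℕ) : ℝ)) z4
    (by push_cast; rw [← pow_add]; exact u1 _) (by push_cast; rw [← pow_add])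
  have L0 : 0 ≤ L := by linarith
  have g1 := end_gs (m := ((Z ^ 40 : ℕ) : ℝ)) z4 (by push_cast; exact u1 _)
    (by push_cast; exact u2 _ _ (by norm_num))
  have hR := co_RR P k a ((-ε : ℝ) : ℂ)
  have Q1 := one_le_QQ P k a
  have σ0 : 0 < σ := by linarith
  have r3 := MP_b09185_nt.Mai.sqrt_two_pi_le
  have E1 : 1 ≤ Real.exp (4 * a * σ) := Real.one_le_exp (by positivity)
  have d3 : δ * κ ≤ 1 / 8 := by rw [d1, one_div]; exact inv_anti₀ (by norm_num) D2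
  have d4 : 1 ≤ δ * l := by rw [d2, le_div_iff₀ (by linarith)]; linarith
  have d5 : Real.exp (-κ) ≤ δ * κ := by
    rw [d1, Real.exp_neg]
    refine inv_anti₀ (by linarith) ?_
    have f1 : D * w ≤ w ^ 4 * κ := (mul_le_mul_of_nonneg_right a7 wp.le).trans
      ((pow_succ w 3).symm.trans_le (le_mul_of_one_le_right (by positivity) (by linarith)))
    have f2 : Real.exp (κ / 64) ≤ Real.exp κ := Real.exp_le_exp.2 (by linarith)
    linarith
  have sm := (sm2 (Z := Z) (b := b) (c := fun n => c2 a0 V0' n) (κ := κ) (δ := δ)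
    (r := fun x => ‖RR P k a ((-ε : ℝ) : ℂ) (T + 2 * (Z : ℝ) ^ 602 + (Z : ℝ) ^ 601 * x)‖ ^ 2)
    (s := fun x => T + 2 * (Z : ℝ) ^ 602 + (Z : ℝ) ^ 601 * x) (by fun_prop) (by fun_prop)
    (E := 6 * (QQ P k a * Real.exp (4 * a * σ) * X))
    (fun x => ⟨by positivity, sup_RR p1 b1.le hN hθ _⟩) (g := g)
    ((mass p1 b1.le hN hθ g1 _).trans (by
      have := one_le_mul_of_one_le_of_one_le E1 X1
      rw [mul_assoc (QQ P k a)]
      exact mul_le_mul (by linarith) (le_mul_of_one_le_right (by linarith) this) (by linarith)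
        (by norm_num)))
    (fun e he v => hσ ▸ tw p1 b1.le hN hθ hg he g2 _ v) (fun n => (hb n).trans (hc12 n).1)
    (fun n => by rw [norm_real]; exact (hc12 n).2) (by omega) (by linarith) δ0 (hl ▸ d4)).2
  obtain ⟨G, hG⟩ : ∃ G, G = C * (C2 / (δ * κ) ^ 2) := ⟨_, rfl⟩
  have G0 : 0 ≤ G := by rw [hG]; positivity
  have G1 : G = C * C2 * (D * w) ^ 2 := by rw [hG, d1]; field_simp
  have R0 : 0 < RA κ := Real.exp_pos _
  have up := core (H := (Z : ℝ) ^ 601) p1 b1.le hN hθ g1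
    (F := fun t => -ε * (FP κ Y t).re) (by fun_prop) (W := Z)
    (A := Real.pi * (1 / 200 * V) + C * (1 + δ ^ 2 * κ * L) + G * (RA κ / Z))
    (B := G * Real.exp (-l * (δ / 2))) (X := Z) (fun t => by
      rw [abs_mul, hε1, one_mul]
      exact (abs_re_le_norm _).trans ((end_FP κ0 Y t).trans Y3)) (by positivity) (by positivity)
    (by linarith) (T + 2 * (Z : ℝ) ^ 602) sm fun x hx => by
      have e1 : |(Z : ℝ) ^ 601 * x| ≤ (Z : ℝ) ^ 602 := by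
        rw [abs_mul, abs_of_nonneg (by positivity), ← q4]
        exact mul_le_mul_of_nonneg_left hx (by positivity)
      obtain ⟨e2, e3⟩ := abs_le.1 e1
      generalize (Z : ℝ) ^ 601 * x = y at e2 e3
      have e4 : L ≤ Real.log (T + 2 * (Z : ℝ) ^ 602 + y) :=
        hL ▸ Real.log_le_log T0 (by linarith)
      have e5 : Real.log (T + 2 * (Z : ℝ) ^ 602 + y) ≤ 1 + L := by
        refine (Real.log_le_log (by linarith) (show _ ≤ 2 * T by linarith)).trans ?_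
        rw [Real.log_mul two_ne_zero T0.ne', ← hL]
        linarith [Real.log_two_lt_d9]
      have e6 : 1 + L ≤ Real.exp κ := by
        have f1 : Real.exp (κ / 64) * Real.exp 1 ≤ Real.exp κ := by
          rw [← Real.exp_add]; exact Real.exp_le_exp.2 (by linarith)
        linarith [end_two (show 1 ≤ Real.exp (κ / 64) by linarith) le_rfl]
      refine (hpt κ _ δ ε (1 / 200 * V) L _ Y (by linarith) (by linarith) a3 δ0.le hε
        (by positivity) Y1 (abs_le.2 ⟨by linarith, by linarith⟩) (by linarith)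
        (hcnt κ δ _ (by linarith) δ0 d3 d5 d4 (by linarith) (by linarith) (by linarith))
        fun y' m hy hs => le_of_not_ge fun h => hc ⟨y', ?_, m, hs, h⟩).trans_eq (by rw [hG]; ring)
      obtain ⟨e4, e5⟩ := abs_le.1 hy
      exact ⟨by linarith, by linarith⟩
  have e1 : 4 * (Z : ℝ) * ((Z ^ 40 : ℕ) : ℝ) * Real.exp (-(Z : ℝ) ^ 2 / 4) ≤ 1 := by
    refine le_trans (mul_le_mul_of_nonneg_right ?_ (Real.exp_pos _).le) (end_exp z4)
    push_cast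
    refine (mul_le_mul_of_nonneg_right (mul_le_mul_of_nonneg_right (show 4 ≤ (Z : ℝ) by linarith)
      (by linarith)) (by positivity)).trans ?_
    rw [← sq, ← pow_add]
    exact u2 _ _ (by norm_num)
  have C0 : 0 ≤ C * C2 * (D * w) ^ 2 := by positivity
  have e2 : G * (RA κ / Z) ≤ 1 := by
    refine le_trans ?_ a8
    rw [G1, RA, ← el, ← Real.exp_sub, hw, mul_assoc (4200 * X)]
    exact mul_le_mul_of_nonneg_right (le_mul_of_one_le_left C0 (by linarith)) (Real.exp_pos _).le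
  have e3 : G * Real.exp (-l * (δ / 2)) * (4200 * (Real.exp (4 * a * σ) * X)) ≤ 1 := by
    refine le_trans ?_ a6
    rw [show -l * (δ / 2) = -(w ^ 3 / (2 * D)) by
      rw [show -l * (δ / 2) = -(δ * l / 2) by ring, d2]; field_simp, sub_eq_add_neg, Real.exp_add,
      G1]
    have := Real.exp_le_exp.2 b3
    calc _ = 4200 * X * (C * C2) * (D * w) ^ 2 *
          (Real.exp (4 * a * σ) * Real.exp (-(w ^ 3 / (2 * D)))) := by ring
      _ ≤ _ := by gcongr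
  have e4 : 2 * √(2 * Real.pi) * (G * (RA κ / Z)) ≤ 6 * 1 :=
    mul_le_mul (by linarith) e2 (by positivity) (by norm_num)
  exact end_num' (E := 2 * √(2 * Real.pi) * (G * (RA κ / Z)) + 4 * (Z : ℝ) * ((Z ^ 40 : ℕ) : ℝ) *
    Real.exp (-(Z : ℝ) ^ 2 / 4) + G * Real.exp (-l * (δ / 2)) * (4200 * (Real.exp (4 * a * σ) * X)))
    V0 MP_b09185_nt.Mai.one_le_sqrt_two_pi (zero_lt_one.trans_le Q1) b4
    (lo.trans (up.trans_eq (by ring))) (by linarith) a5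

theorem cluster (a : ℝ) (ha : 0 < a) : ∃ c T₀ : ℝ, 0 < c ∧ ∀ T ≥ T₀, ∀ h : ℝ,
    a ≤ h * Real.log T → h * Real.log (Real.log T) ≤ 1 →
    ∀ ε : ℝ, ε = 1 ∨ ε = -1 → ∃ y ∈ Set.Icc T (T + T ^ (2 / 3 : ℝ)), ∃ m : ℕ, IsZ y h m ∧
      c * √(h * Real.log T) ≤ ε * (m - h * Real.log T / (2 * Real.pi)) := by
  obtain ⟨W, Z1, W1, hZ1⟩ := end_Z
  obtain ⟨A, hA⟩ : ∃ A : ℝ, A = 80000 * W ^ 4 := ⟨_, rfl⟩
  have A0 : 0 < A := by rw [hA]; positivity
  obtain ⟨T2, hT2⟩ := Filter.eventually_atTop.1 (Real.tendsto_log_atTop.eventually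
    (Real.isLittleO_log_id_atTop.bound (show 0 < 1 / (4 * A) by positivity)))
  obtain ⟨D, hD⟩ : ∃ D : ℝ, D = ((1 : ℕ) : ℝ) ^ 1000 + 2 ^ 1000 := ⟨_, rfl⟩
  have D0 : 0 ≤ D := by rw [hD]; positivity
  obtain ⟨m, hm⟩ : ∃ m : ℝ, m = Z1 + 2 * D + 2400 := ⟨_, rfl⟩
  have m1 : 2400 ≤ m := by linarith [Z1.cast_nonneg (α := ℝ)]
  refine ⟨1 / 60000 / (A / a + 1), max (m ^ 1000) T2, by positivity,
    fun T hT h h6 h7 ε hε => ?_⟩
  obtain ⟨hT, hT'⟩ := max_le_iff.1 hT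
  have T1 : m ≤ T := (le_self_pow₀ (by linarith) (by norm_num)).trans hT
  obtain ⟨Z, -, h1, h2⟩ := dens_scale 1000 (by norm_num) 1 (T := 2 * T) (by linarith)
  rw [← hD] at h2
  have z1 : m ≤ Z := le_of_pow_le_pow_left₀ (n := 1000) (by norm_num) Z.cast_nonneg (by linarith)
  have z2 : (0 : ℝ) < Z := by linarith
  have h3 : (Z : ℝ) ^ 999 ≤ T := by
    refine le_of_mul_le_mul_right (a := (Z : ℝ)) ?_ z2
    rw [← pow_succ]
    refine h2.trans ?_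
    rw [← mul_assoc, mul_comm]
    exact mul_le_mul_of_nonneg_left (by linarith [Z1.cast_nonneg (α := ℝ)]) (by linarith)
  obtain ⟨a1, hZ⟩ := hZ1 Z (by exact_mod_cast (show (Z1 : ℝ) ≤ Z by linarith))
  have l1 : 1 ≤ Real.log Z := by
    rw [Real.le_log_iff_exp_le z2]
    linarith [Real.exp_one_lt_three]
  have l2 := Real.log_le_log (by positivity) h3
  have l3 := Real.log_le_log (show 0 < T by linarith) (show T ≤ (Z : ℝ) ^ 1000 by linarith)
  rw [Real.log_pow, Nat.cast_ofNat] at l2 l3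
  have l4 : Real.log (Real.log Z) ≤ Real.log (Real.log T) :=
    Real.log_le_log (by linarith) (by linarith)
  have l5 := hT2 T hT'
  obtain ⟨l, hl⟩ : ∃ l, l = Real.log Z := ⟨_, rfl⟩
  obtain ⟨L, hL⟩ : ∃ L, L = Real.log T := ⟨_, rfl⟩
  have hZ' := hZ T h3 h1
  rw [← hl] at a1 l1 l2 l3 l4 hZ'
  rw [← hL] at l2 l3 l4 l5 h6 h7 hZ' ⊢
  have L0 : 0 < L := by linarith
  rw [id, Real.norm_of_nonneg (by linarith), Real.norm_of_nonneg L0.le] at l5
  have h8 : 0 < h * L := by linarith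
  have h0 : 0 < h := (mul_pos_iff_of_pos_right L0).1 h8
  obtain ⟨j, hj⟩ : ∃ j, j = ⌈A / (h * L)⌉₊ := ⟨_, rfl⟩
  have j0 : 1 ≤ j := hj ▸ Nat.ceil_pos.2 (by positivity)
  have j1 : (1 : ℝ) ≤ j := by exact_mod_cast j0
  have j2 : A ≤ j * (h * L) := (div_le_iff₀ h8).1 (hj ▸ Nat.le_ceil _)
  have j3 : (j : ℝ) ≤ A / (h * L) + 1 := hj ▸ (Nat.ceil_lt_add_one (by positivity)).le
  have j4 : (j : ℝ) ≤ A / a + 1 := j3.trans (by gcongr)
  have j5 : j * h * Real.log L ≤ 5 / 4 := by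
    have e1 : j * h ≤ A / L + h := (mul_le_mul_of_nonneg_right j3 h0.le).trans_eq (by field_simp)
    have e2 : A / L * Real.log L ≤ 1 / 4 :=
      (mul_le_mul_of_nonneg_left l5 (by positivity)).trans_eq (by field_simp)
    have := mul_le_mul_of_nonneg_right e1 (show 0 ≤ Real.log L by linarith)
    linarith
  have H0 : 0 < j * h := by positivity
  have j6 : j * h ≤ 1 := by nlinarith
  obtain ⟨w, hw⟩ : ∃ w, w = √√(l * (j * h) / 80) := ⟨_, rfl⟩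
  have w0 : 0 < w := by rw [hw]; positivity
  have w4 : w ^ 4 = l * (j * h) / 80 := by
    rw [hw, show 4 = 2 * 2 from rfl, pow_mul, Real.sq_sqrt (Real.sqrt_nonneg _),
      Real.sq_sqrt (by positivity)]
  have w5 : j * (h * L) ≤ 80000 * w ^ 4 := by
    have := mul_le_mul_of_nonneg_left l3 H0.le
    rw [w4]; linarith
  have w6 : W ≤ w := le_of_pow_le_pow_left₀ (n := 4) (by norm_num) w0.le (by linarith)
  obtain ⟨y, hy, n, hn, h4⟩ := hZ' (80 / (j * h)) w w6 (by rw [w4]; field_simp) (by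
    rw [le_div_iff₀ H0]; linarith) ε hε
  rw [show 80 / (80 / (j * h)) = j * h by field_simp] at hn h4
  obtain ⟨y', hy', n', hn', h4'⟩ := split (v := h * L / (2 * Real.pi)) (by linarith [hy.1]) h0 j0
    j6 hε hn (h4.trans_eq (by ring))
  have h5 : (Z : ℝ) ^ 666 ≤ T ^ (2 / 3 : ℝ) := by
    refine le_trans ?_ (Real.rpow_le_rpow (by positivity) h3 (by norm_num))
    rw [← Real.rpow_natCast, ← Real.rpow_natCast, ← Real.rpow_mul z2.le]
    exact Real.rpow_le_rpow_of_exponent_le (by linarith) (by norm_num)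
  have h9 := (end_pos' (z := Z) (by linarith)).2.1
  refine ⟨y', ⟨hy.1.trans hy'.1, by linarith [hy.2, hy'.2]⟩, n', hn', le_trans ?_ h4'⟩
  have e1 : h * L ≤ j * (h * L) := le_mul_of_one_le_left h8.le j1
  have e2 : √(h * L) ≤ 300 * w ^ 2 :=
    Real.sqrt_le_iff.2 ⟨by positivity, by nlinarith [pow_pos w0 4]⟩
  rw [div_mul_eq_mul_div]
  exact div_le_div₀ (by positivity) (by linarith) (by linarith) j4

end Pool.Agent.Lib.MP_31bf45_nt.Lf
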