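import Pool.Agent.Lib.MP_31bf45_nt.Lf.Res
import Pool.Agent.Lib.MP_31bf45_nt.Om.DetA

/-! Reflection on the far left line. -/

set_option autoImplicit false

namespace Pool.Agent.Lib.MP_31bf45_nt.Lf

open Complex Finset MeasureTheory Metric Om Cl Pool.Agent.Lib.MP_b09185_nt.Sh
open Pool.Agent.Lib.MP_b09185_nt.Mai (EE)
open scoped ComplexConjugate

theorem left_tail {N M : ℕ} (hN : 1 ≤ N) {V : ℕ → ℝ} (h0 : ∀ e, 0 ≤ V e ∧ V e ≤ 1)
    (h1 : ∀ e, e ≤ N → V e = 1) (h2 : ∀ e, M < e → V e = 0) {z : ℂ} (hz : 30 ≤ z.re) :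
    ‖riemannZeta z - PL M V z‖ ≤ 2 * (1 / (N : ℝ) ^ 28) := by
  have a1 := LSeriesHasSum_one (s := z) (by linarith)
  have a2 : HasSum (fun n : ℕ => (V n : ℂ) * LSeries.term 1 z n) (PL M V z) := by
    have e : PL M V z = ∑ n ∈ Icc 1 M, (V n : ℂ) * LSeries.term 1 z n := by
      refine sum_congr rfl fun m hm => ?_
      rw [LSeries.term_of_ne_zero (by have := (mem_Icc.1 hm).1; omega), cpow_neg]
      simp
    rw [e]
    refine hasSum_sum_of_ne_finset_zero fun n hn => ?_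
    rcases Nat.eq_zero_or_pos n with rfl | hp
    · rw [LSeries.term_zero, mul_zero]
    · rw [h2 n (by rw [mem_Icc] at hn; omega), ofReal_zero, zero_mul]
  have h := Dt.tail_le (A := 1) (j := 28) hN (HasSum.sub a1 a2) fun n hn => by
    have hn1 : (1 : ℝ) ≤ n := by exact_mod_cast (by omega)
    have b1 : ‖LSeries.term 1 z n‖ ≤ 1 / (n : ℝ) ^ (28 + 2) := by
      rw [LSeries.norm_term_eq, if_neg (by omega), Pi.one_apply, norm_one, ← Real.rpow_natCast]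
      exact one_div_le_one_div_of_le (by positivity)
        (Real.rpow_le_rpow_of_exponent_le hn1 (by push_cast; linarith))
    have b2 : ‖(1 - V n : ℂ)‖ ≤ 1 := by
      rw [← ofReal_one, ← ofReal_sub, norm_real, Real.norm_eq_abs, abs_le]
      constructor <;> linarith [(h0 n).1, (h0 n).2]
    rw [← one_sub_mul, norm_mul]
    exact (mul_le_of_le_one_left (norm_nonneg _) b2).trans b1
  rwa [sum_eq_zero fun n hn => by
    rw [h1 n (by have := mem_range.1 hn; omega), ofReal_one, one_mul, sub_self], sub_zero] at h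

theorem left_EW {l : ℝ} (hl : 0 ≤ l) {w : ℂ} (hw : w.re ≤ 0) : ‖EW l w‖ ≤ 3 := by
  have := Real.exp_le_one_iff.2 (mul_nonpos_of_nonneg_of_nonpos hl hw)
  linarith [EW_le l w]

theorem left_num {Z W1 W2 W3 W4 E : ℝ} (hZ : 0 < Z) (p1 : 0 < W1) (p2 : 0 < W2) (hE : 0 ≤ E)
    (h1 : W3 * W4 * Z ≤ W1 * W2) (h2 : Z ≤ W2) :
    (3 * (60 ^ 30 * W3) * (2 * (1 / W1)) * W4 + 1) * 19 * 3 * (E / W2) * 4 ≤
      (3 * 60 ^ 30 * 2 + 1) * 19 * 3 * E * 4 / Z := by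
  have e : (3 * (60 ^ 30 * W3) * (2 * (1 / W1)) * W4 + 1) * 19 * 3 * (E / W2) * 4 =
      (3 * 60 ^ 30 * 2 * (W3 * W4 * Z / (W1 * W2)) + Z / W2) * 19 * 3 * E * 4 / Z := by
    field_simp
  have a1 : W3 * W4 * Z / (W1 * W2) ≤ 1 := (div_le_one (by positivity)).2 h1
  have a2 : Z / W2 ≤ 1 := (div_le_one p2).2 h2
  rw [e]
  have a3 : 3 * 60 ^ 30 * 2 * (W3 * W4 * Z / (W1 * W2)) + Z / W2 ≤ 3 * 60 ^ 30 * 2 + 1 :=
    add_le_add (mul_le_of_le_one_right (by positivity) a1) a2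
  gcongr

open Dt in
theorem left : ∃ C : ℝ, 0 ≤ C ∧ ∀ Z : ℕ, 3 ≤ Z → ∀ a V : ℕ → ℝ, Mo Z a → Hd Z V → ∀ σ y : ℝ,
    1 / 2 < σ → σ ≤ 5 → 1 ≤ y → y ≤ (Z : ℝ) ^ 1000 →
    ‖II Z a (σ + y * I) (1 / 2 - 30 - σ) - JJ Z a V (σ + y * I) (1 / 2 - σ)‖ ≤ C / Z := by
  obtain ⟨E, hE0, hE⟩ : ∃ E : ℝ, 0 ≤ E ∧ ∀ c v : ℝ, -35 ≤ c → c ≤ -30 → 0 ≤ v →
      Real.exp (c ^ 2 / 2 + v * c) * Real.exp ((30 : ℕ) ^ 2) ≤ E / Real.exp ((30 : ℕ) * v) :=
    ⟨Real.exp (35 ^ 2 / 2 + 30 ^ 2), (Real.exp_pos _).le, fun c v h1 h2 h3 => by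
      rw [← Real.exp_add, ← Real.exp_sub]
      exact Real.exp_le_exp.2 (by push_cast; nlinarith)⟩
  refine ⟨(3 * 60 ^ 30 * 2 + 1) * 19 * 3 * E * 4, by positivity,
    fun Z hZ a V ha hV σ y h1 h2 h3 h4 => ?_⟩
  have j1 := (res hZ ha h1.le h2 h3).2
  set ρ : ℂ := σ + y * I with hρ
  have hZ1 : 1 ≤ Z := by omega
  have hZ' : (1 : ℝ) ≤ Z := by exact_mod_cast hZ1
  have hl := Real.log_nonneg hZ'
  have hy : |y| = y := abs_of_nonneg (by linarith)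
  have hi : 1 ≤ |ρ.im| := by simpa [hρ, hy] using h3
  have hre : ∀ x u : ℝ, (ρ + (x + u * I)).re = σ + x := fun x u => by simp [hρ]
  have him : ∀ x u : ℝ, (ρ + (x + u * I)).im = y + u := fun x u => by simp [hρ]
  have hr : ∀ x u : ℝ, ((x : ℂ) + u * I).re = x := fun x u => by simp
  have hM : ∀ x u : ℝ, 1 / 2 - 30 - σ ≤ x →
      ‖PL (Z ^ 2) a (ρ + (x + u * I))‖ ≤ ((Z ^ 2 : ℕ) : ℝ) ^ (30 + 1) :=
    fun x u hx => PL_le ha.1 (by rw [hre]; push_cast; linarith)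
  have hk : ∀ x u : ℝ, 1 ≤ |u| → ‖Dt.kk ρ (x + u * I)‖ ≤ 19 := fun x u hu =>
    (da_kk hi one_pos (hu.trans (by simpa using abs_im_le_norm ((x : ℂ) + u * I)))).trans
      (by norm_num)
  have hk' : ∀ u : ℝ, ‖Dt.kk ρ ((1 / 2 - 30 - σ : ℝ) + u * I)‖ ≤ 19 := fun u =>
    kk_le hi (by
      rw [hr, abs_of_nonpos (by linarith)]
      linarith)
  have hV1 : ∀ d, |V d| ≤ 1 := fun d => by
    rw [abs_of_nonneg (hV.1 d).1]
    exact (hV.1 d).2
  obtain ⟨i2, e2⟩ := shift_poly (F := fun w => chi (ρ + w) * PL (Z ^ 550) V (1 - (ρ + w)) *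
      PL (Z ^ 2) a (ρ + w) * Dt.kk ρ w * EW (Real.log Z) w)
    (σ₁ := 1 / 2 - 30 - σ) (σ₂ := 1 / 2 - σ) (k := 30)
    (A := 3 * (30 * (1 + |y|)) ^ 30 * ((Z ^ 550 : ℕ) : ℝ) ^ (0 + 1) *
      ((Z ^ 2 : ℕ) : ℝ) ^ (30 + 1) * 19 * 3) (yy Z)
    (by linarith) (by positivity) (fun s hs => by
      have a1 : s.re ≤ 1 / 2 - σ := hs.1.2
      have a2 : DifferentiableAt ℂ (fun z => chi (ρ + z)) s :=
        (chi_diffAt (s := ρ + s) (by simp [hρ]; linarith)).comp s (by fun_prop)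
      have a3 : s ≠ 0 := fun h => by
        rw [h, zero_re] at a1
        linarith
      have a4 := PL_diff (Z ^ 550) V
      have a5 := PL_diff (Z ^ 2) a
      have a6 := EW_diff (Real.log Z)
      refine DifferentiableAt.differentiableWithinAt ?_
      unfold Dt.kk
      fun_prop (disch := assumption))
    fun x hx u hu => by
      rw [norm_mul, norm_mul, norm_mul, norm_mul]
      calc _ ≤ 3 * (30 * (1 + |y|)) ^ 30 * (1 + |u|) ^ 30 * ((Z ^ 550 : ℕ) : ℝ) ^ (0 + 1) *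
            ((Z ^ 2 : ℕ) : ℝ) ^ (30 + 1) * 19 * 3 := by
            gcongr
            · exact chi_le (by rw [hre]; linarith [hx.1]) (by rw [hre]; linarith [hx.2]) (him x u)
            · exact PL_le hV1 (by rw [sub_re, hre, one_re]; push_cast; linarith [hx.2])
            · exact hM x u hx.1
            · exact hk x u hu
            · exact left_EW hl (by rw [hr]; linarith [hx.2])
        _ = _ := by ring
  have j2 := i2 _ ⟨le_rfl, by linarith⟩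
  rw [II, JJ, ← e2, ← integral_sub j1 j2]
  simp only [← sub_mul]
  have hb := line_le (k := 30) (F := fun u : ℝ =>
    (DM Z a (ρ + ((1 / 2 - 30 - σ : ℝ) + u * I)) - chi (ρ + ((1 / 2 - 30 - σ : ℝ) + u * I)) *
      PL (Z ^ 550) V (1 - (ρ + ((1 / 2 - 30 - σ : ℝ) + u * I))) *
      PL (Z ^ 2) a (ρ + ((1 / 2 - 30 - σ : ℝ) + u * I))) *
      Dt.kk ρ ((1 / 2 - 30 - σ : ℝ) + u * I) * EW (Real.log Z) ((1 / 2 - 30 - σ : ℝ) + u * I))
    (A := (3 * (60 * (Z : ℝ) ^ 1000) ^ 30 * (2 * (1 / ((Z ^ 500 : ℕ) : ℝ) ^ 28)) *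
      ((Z ^ 2 : ℕ) : ℝ) ^ (30 + 1) + 1) * 19 * 3) (by positivity) (fun u => by
      have a1 := hre (1 / 2 - 30 - σ) u
      have a0 := hr (1 / 2 - 30 - σ) u
      have a7 := him (1 / 2 - 30 - σ) u
      have a8 := hM _ u le_rfl
      have a9 := hk' u
      generalize ((1 / 2 - 30 - σ : ℝ) + u * I : ℂ) = s at *
      have a3 : DM Z a (ρ + s) - chi (ρ + s) * PL (Z ^ 550) V (1 - (ρ + s)) *
          PL (Z ^ 2) a (ρ + s) = chi (ρ + s) * (riemannZeta (1 - (ρ + s)) -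
            PL (Z ^ 550) V (1 - (ρ + s))) * PL (Z ^ 2) a (ρ + s) - 1 := by
        rw [DM, zeta_refl (s := ρ + s) (by linarith) (fun h => by rw [h, zero_re] at a1; linarith)]
        ring
      have a4 : (1 : ℝ) ≤ (1 + |u|) ^ 30 := one_le_pow₀ (by linarith [abs_nonneg u])
      have a5 : ‖chi (ρ + s) * (riemannZeta (1 - (ρ + s)) - PL (Z ^ 550) V (1 - (ρ + s))) *
          PL (Z ^ 2) a (ρ + s)‖ ≤ 3 * (60 * (Z : ℝ) ^ 1000) ^ 30 * (1 + |u|) ^ 30 *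
            (2 * (1 / ((Z ^ 500 : ℕ) : ℝ) ^ 28)) * ((Z ^ 2 : ℕ) : ℝ) ^ (30 + 1) := by
        rw [norm_mul, norm_mul]
        gcongr
        · refine (chi_le (w := ρ + s) (by linarith) (by linarith) a7).trans ?_
          rw [hy]
          generalize (Z : ℝ) ^ 1000 = W at *
          gcongr 3 * ?_ ^ 30 * _
          linarith
        · exact left_tail (Nat.one_le_pow _ _ hZ1) hV.1 hV.2.1 hV.2.2
            (by rw [sub_re, a1, one_re]; linarith)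
      rw [a3, norm_mul, norm_mul]
      calc _ ≤ (3 * (60 * (Z : ℝ) ^ 1000) ^ 30 * (1 + |u|) ^ 30 *
            (2 * (1 / ((Z ^ 500 : ℕ) : ℝ) ^ 28)) * ((Z ^ 2 : ℕ) : ℝ) ^ (30 + 1) +
            (1 + |u|) ^ 30) * 19 * 3 := by
            refine mul_le_mul (mul_le_mul_of_nonneg' ?_ a9 (norm_nonneg _) (by positivity))
              (left_EW hl (by linarith)) (norm_nonneg _) (by positivity)
            exact (norm_sub_le _ _).trans (add_le_add a5 (by rwa [norm_one]))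
        _ = _ := by ring) (yy Z) (1 / 2 - 30 - σ)
  refine hb.trans ?_
  have hy : 0 ≤ yy Z := mul_nonneg (by norm_num) hl
  have a4 := hE (1 / 2 - 30 - σ) (yy Z) (by linarith) (by linarith) hy
  rw [exp_yy hZ1] at a4
  have a5 : (Z : ℝ) ^ (1000 * 30) * (Z : ℝ) ^ (2 * (30 + 1)) * Z ≤
      (Z : ℝ) ^ (500 * 28) * (Z : ℝ) ^ (550 * 30) := by
    rw [← pow_add, ← pow_succ, ← pow_add]
    exact pow_le_pow_right₀ hZ' (by norm_num)
  have a6 : (Z : ℝ) ≤ (Z : ℝ) ^ (550 * 30) := le_self_pow₀ hZ' (by norm_num)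
  rw [mul_pow, Nat.cast_pow, Nat.cast_pow, ← pow_mul, ← pow_mul, ← pow_mul]
  refine le_trans ?_ (left_num (by linarith) (by positivity) (by positivity) hE0 a5 a6)
  exact mul_le_mul_of_nonneg_right (mul_le_mul_of_nonneg_left a4 (by positivity)) (by norm_num)

end Pool.Agent.Lib.MP_31bf45_nt.Lf
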