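import Pool.Agent.Lib.MP_31bf45_nt.Lf.Ker
import Pool.Agent.Lib.MP_31bf45_nt.Om.DetA

/-! The integral on the critical line. -/

set_option autoImplicit false

namespace Pool.Agent.Lib.MP_31bf45_nt.Lf

open Complex Finset MeasureTheory Metric Om Cl Pool.Agent.Lib.MP_b09185_nt.Sh
open Pool.Agent.Lib.MP_b09185_nt.Mai (EE)
open scoped ComplexConjugate

theorem mid_mul {N M K : ℕ} {a V : ℕ → ℝ} (hV : ∀ e, N < e → V e = 0) (ha : ∀ d, M < d → a d = 0)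
    (h : N * M ≤ K) (y : ℝ) : PL N V ((1 / 2 : ℝ) + y * I) * PL M a ((1 / 2 : ℝ) + y * I) =
      QP K (fun n => c2 a V n) y := by
  have e : QP K (fun n => c2 a V n) y = ∑ n ∈ Icc 1 K, ∑ x ∈ n.divisorsAntidiagonal,
      if x.1 ≤ N ∧ x.2 ≤ M then V x.1 * (x.1 : ℂ) ^ (-((1 / 2 : ℝ) + y * I : ℂ)) *
        (a x.2 * (x.2 : ℂ) ^ (-((1 / 2 : ℝ) + y * I : ℂ))) else 0 := by
    refine sum_congr rfl fun n hn => ?_
    rw [div_eq_mul_inv, mul_assoc, ← da_half (by have := (mem_Icc.1 hn).1; omega)]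
    simp only [c2]
    rw [ofReal_sum, sum_mul]
    refine sum_congr rfl fun x hx => ?_
    split_ifs with c
    · rw [← (Nat.mem_divisorsAntidiagonal.1 hx).1, Nat.cast_mul, natCast_mul_natCast_cpow,
        ofReal_mul]
      ring
    · rcases not_and_or.1 c with c | c
      · rw [hV _ (not_le.1 c)]; simp
      · rw [ha _ (not_le.1 c)]; simp
  rw [e, PL, PL, sum_mul_sum, ← sum_product', sum_sigma', ← sum_filter]
  refine sum_bij' (fun x _ => ⟨x.1 * x.2, x⟩) (fun x _ => x.2) (fun x hx => ?_) (fun x hx => ?_)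
    (fun _ _ => rfl) (fun x hx => ?_) fun _ _ => rfl
  · simp only [mem_product, mem_Icc] at hx
    simp only [mem_filter, mem_sigma, mem_Icc, Nat.mem_divisorsAntidiagonal, true_and]
    have h1 : 1 * 1 ≤ x.1 * x.2 := Nat.mul_le_mul hx.1.1 hx.2.1
    exact ⟨⟨⟨by omega, (Nat.mul_le_mul hx.1.2 hx.2.2).trans h⟩, by omega⟩, hx.1.2, hx.2.2⟩
  · simp only [mem_filter, mem_sigma] at hx
    have := Nat.ne_zero_of_mem_divisorsAntidiagonal hx.1.2
    simp only [mem_product, mem_Icc]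
    omega
  · obtain ⟨n, x⟩ := x
    simp only [mem_filter, mem_sigma] at hx
    obtain rfl := (Nat.mem_divisorsAntidiagonal.1 hx.1.2).1
    rfl

theorem mid_conj (N : ℕ) (V : ℕ → ℝ) (y : ℝ) : ‖PL N V (1 - ((1 / 2 : ℝ) + y * I))‖ =
    ‖PL N V ((1 / 2 : ℝ) + y * I)‖ := by
  rw [← norm_conj, PL, PL, map_sum]
  congr 1
  refine sum_congr rfl fun n hn => ?_
  have h : n ≠ 0 := by have := (mem_Icc.1 hn).1; omega
  rw [show (1 - ((1 / 2 : ℝ) + y * I) : ℂ) = (1 / 2 : ℝ) + (-y : ℝ) * I by push_cast; ring,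
    da_half h, da_half h, map_mul, map_mul, map_inv₀, conj_ofReal, conj_ofReal, ee, ee, ← exp_conj,
    map_mul, conj_ofReal, conj_I]
  congr 3
  push_cast
  ring

theorem mid_int (K : ℕ) (b : ℕ → ℂ) (y : ℝ) {l δ : ℝ} (h : 0 < l) (h' : 0 < δ) :
    Integrable fun u => ‖QP K b (y + u)‖ * om l δ u := by
  refine (om_int h h').bdd_mul (c := ∑ n ∈ Icc 1 K, ‖b n / (√n : ℝ)‖) ?_
    (Filter.Eventually.of_forall fun v => ?_)
  · exact (by unfold QP; fun_prop : Continuous fun v => ‖QP K b (y + v)‖).aestronglyMeasurable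
  · rw [norm_norm]
    exact norm_sum_le_of_le _ fun n _ => by rw [norm_mul, norm_ee, mul_one]

theorem mid_k {s : ℂ} {l δ c : ℝ} (hs : 1 ≤ |s.im|) (hl : 0 < l) (h0 : 0 < δ) (hc : c ≤ -(δ / 2))
    (u : ℝ) : ‖Dt.kk s (c + u * I)‖ * ‖EW l (c + u * I)‖ ≤
      3 * (2 / (l * (δ ^ 2 / 4 + u ^ 2)) + 1) := by
  have e : ((c : ℂ) + u * I).re = c := by simp
  have n2 : ‖(c : ℂ) + u * I‖ ^ 2 = c ^ 2 + u ^ 2 := by rw [← normSq_eq_norm_sq, normSq_add_mul_I]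
  have n3 : δ ^ 2 / 4 + u ^ 2 ≤ ‖(c : ℂ) + u * I‖ ^ 2 := by rw [n2]; nlinarith
  have n1 : 0 < ‖(c : ℂ) + u * I‖ := by
    refine (norm_nonneg _).lt_of_ne fun h => ?_
    rw [← h] at n3
    nlinarith [sq_nonneg u]
  have x1 : Real.exp (l * c) ≤ 1 := Real.exp_le_one_iff.2 (by nlinarith)
  have a1 := EW_le l (c + u * I)
  have a2 := EW_mul hl.le (c + u * I)
  rw [e] at a1 a2
  have a3 := da_kk hs n1 le_rfl
  have a4 : ‖(c : ℂ) + u * I‖⁻¹ * ‖EW l (c + u * I)‖ ≤ 2 / (l * (δ ^ 2 / 4 + u ^ 2)) := by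
    refine le_trans ?_ (div_le_div_of_nonneg_left zero_le_two (by positivity)
      (mul_le_mul_of_nonneg_left n3 hl.le))
    rw [le_div_iff₀ (by positivity)]
    refine le_trans (le_of_eq ?_) (a2.trans (by linarith))
    field_simp
  have a5 := mul_le_mul_of_nonneg_right a3 (norm_nonneg (EW l (c + u * I)))
  have a6 : 0 ≤ 2 / (l * (δ ^ 2 / 4 + u ^ 2)) := by positivity
  linarith

theorem mid : ∃ C : ℝ, 0 ≤ C ∧ ∀ Z : ℕ, 3 ≤ Z → ∀ a V : ℕ → ℝ, Mo Z a → Hd Z V → ∀ δ σ y : ℝ,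
    0 < δ → 1 / 2 + δ / 2 ≤ σ → σ ≤ 5 → 1 ≤ y → ‖JJ Z a V (σ + y * I) (1 / 2 - σ)‖ ≤
      C * Real.exp (-Real.log Z * (σ - 1 / 2)) *
        ∫ u, ‖QP (Z ^ 560) (fun n => c2 a V n) (y + u)‖ * om (Real.log Z) δ u := by
  refine ⟨3 * Real.exp 11, by positivity, fun Z hZ a V ha hV δ σ y h0 h1 h2 h3 => ?_⟩
  have hL : 0 < Real.log Z := Real.log_pos (by exact_mod_cast (by omega : 1 < Z))
  rw [← integral_const_mul]
  refine norm_integral_le_of_norm_le ((mid_int _ _ _ hL h0).const_mul _)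
    (Filter.Eventually.of_forall fun u => ?_)
  have e1 : (σ + y * I + ((1 / 2 - σ : ℝ) + u * I) : ℂ) = (1 / 2 : ℝ) + (y + u : ℝ) * I := by
    push_cast; ring
  have a2 := mid_k (s := σ + y * I) (c := 1 / 2 - σ) (by simpa using h3.trans (le_abs_self y)) hL h0
    (by linarith) u
  have a3 : Real.exp ((1 / 2 - σ) ^ 2 / 2 + Dt.yy Z * (1 / 2 - σ)) ≤
      Real.exp 11 * Real.exp (-Real.log Z * (σ - 1 / 2)) := by
    rw [← Real.exp_add, Dt.yy]
    refine Real.exp_le_exp.2 ?_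
    nlinarith [mul_nonneg hL.le (show 0 ≤ σ - 1 / 2 by linarith)]
  have a4 := congrArg norm (mid_mul (K := Z ^ 560) hV.2.2 ha.2.2
    ((pow_add Z 550 2).symm.trans_le (Nat.pow_le_pow_right (by omega) (by decide))) (y + u))
  rw [norm_mul] at a4
  rw [e1, norm_mul, norm_mul, norm_mul, norm_mul, norm_mul, chi_half, one_mul, mid_conj, a4,
    MP_b09185_nt.Mai.norm_EE, mul_assoc ‖QP _ _ _‖]
  have a5 := norm_nonneg (QP (Z ^ 560) (fun n => c2 a V n) (y + u))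
  generalize ‖QP (Z ^ 560) (fun n => c2 a V n) (y + u)‖ = W at a5 ⊢
  calc _ ≤ W * (3 * (2 / (Real.log Z * (δ ^ 2 / 4 + u ^ 2)) + 1)) * (Real.exp 11 *
        Real.exp (-Real.log Z * (σ - 1 / 2)) * Real.exp (-(1 / 2) * u ^ 2)) := by gcongr
    _ = _ := by rw [om, gs]; ring

end Pool.Agent.Lib.MP_31bf45_nt.Lf
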