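import Pool.Agent.Lib.MP_31bf45_nt.Lf.Right
import Pool.Agent.Lib.MP_31bf45_nt.Om.DetB
import Pool.Agent.Lib.MP_31bf45_nt.Cl.Def

/-! The residue at zero of the smoothed integral. -/

set_option autoImplicit false

namespace Pool.Agent.Lib.MP_31bf45_nt.Lf

open Complex Finset MeasureTheory Metric Om Cl Pool.Agent.Lib.MP_b09185_nt.Sh
open Pool.Agent.Lib.MP_b09185_nt.Mai (EE)
open scoped ComplexConjugate

theorem res_ne {c : ℝ} (hc : c ≠ 0) (u : ℝ) : (c : ℂ) + u * I ≠ 0 := fun h =>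
  hc (by simpa using congrArg re h)

theorem res_inv_le (x : ℝ) {u : ℝ} (hu : 1 ≤ |u|) : ‖((x : ℂ) + u * I)⁻¹‖ ≤ 1 := by
  rw [norm_inv]
  exact inv_le_one_of_one_le₀ (hu.trans (by simpa using abs_im_le_norm ((x : ℂ) + u * I)))

theorem res_int {c : ℝ} (hc : c ≠ 0) (v : ℝ) :
    Integrable fun u : ℝ => ((c : ℂ) + u * I)⁻¹ * EE v (c + u * I) :=
  (Dt.shift_poly (F := fun w => w⁻¹) (σ₁ := c) (σ₂ := c) (k := 0) (A := 1) v le_rfl zero_le_one
    (fun w hw => (differentiableAt_inv fun h => hc (by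
      have := le_antisymm hw.1.2 hw.1.1
      rw [h, zero_re] at this
      exact this.symm)).differentiableWithinAt)
    fun x _ u hu => by simpa using res_inv_le x hu).1 c ⟨le_rfl, le_rfl⟩

theorem res_pos {c : ℝ} (hc : 0 < c) (v : ℝ) :
    ∫ u : ℝ, ((c : ℂ) + u * I)⁻¹ * EE v (c + u * I) = (√(2 * Real.pi) * Dt.VV v : ℝ) := by
  have := ker_inv hc v 0
  simp only [ofReal_zero, zero_mul, add_zero, neg_zero, exp_zero, one_mul] at this
  rw [this, Dt.VV, integral_complex_ofReal, ofReal_mul]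

theorem res_neg {c : ℝ} (hc : c < 0) (v : ℝ) :
    ∫ u : ℝ, ((c : ℂ) + u * I)⁻¹ * EE v (c + u * I) = -(√(2 * Real.pi) * Dt.VV (-v) : ℝ) := by
  rw [← res_pos (neg_pos.2 hc), ← integral_neg, ← integral_neg_eq_self]
  congr 1
  funext u
  rw [show (c : ℂ) + ((-u : ℝ) : ℂ) * I = -(((-c : ℝ) : ℂ) + u * I) by push_cast; ring, inv_neg,
    neg_mul, EE, EE]
  congr 3
  push_cast
  ring

theorem res_ds {G : ℂ → ℂ} {w : ℂ} {A P : ℝ} (hw : w ≠ 0) (h1 : ‖w⁻¹‖ ≤ 1) (hP : 1 ≤ P)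
    (h : ‖G w‖ ≤ A * P) : ‖dslope G 0 w‖ ≤ (A + ‖G 0‖) * P := by
  rw [dslope_of_ne _ hw, slope_def_field, sub_zero, div_eq_mul_inv, norm_mul, add_mul]
  exact (mul_le_of_le_one_right (norm_nonneg _) h1).trans ((norm_sub_le _ _).trans
    (add_le_add h (le_mul_of_one_le_right (norm_nonneg _) hP)))

/-- the entire function behind the integrand -/
noncomputable def resG (Z : ℕ) (a : ℕ → ℝ) (s w : ℂ) : ℂ :=
  (riemannZeta₁ (s + w) * PL (Z ^ 2) a (s + w) - (s + w - 1)) * EW (Real.log Z) w * (s - 1)⁻¹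

theorem resG_diff (Z : ℕ) (a : ℕ → ℝ) (s : ℂ) : Differentiable ℂ (resG Z a s) := by
  have h1 := PL_diff (Z ^ 2) a
  have h2 := EW_diff (Real.log Z)
  have h3 := differentiable_riemannZeta₁
  unfold resG
  fun_prop

theorem resG_zero (Z : ℕ) (a : ℕ → ℝ) {s : ℂ} (hs : s ≠ 1) : resG Z a s 0 = DM Z a s := by
  have := sub_ne_zero.2 hs
  rw [resG, add_zero, EW_zero, Dt.zeta1_eq hs, DM]
  field_simp

theorem resG_eq (Z : ℕ) (a : ℕ → ℝ) {s w : ℂ} (hs : s ≠ 1) (hw : w ≠ 0) (h : s + w ≠ 1) (e : ℂ) :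
    DM Z a (s + w) * Dt.kk s w * EW (Real.log Z) w * e =
      dslope (resG Z a s) 0 w * e + DM Z a s * (w⁻¹ * e) := by
  have := sub_ne_zero.2 hs
  rw [dslope_of_ne _ hw, slope_def_field, resG_zero Z a hs, resG, Dt.zeta1_eq h,
    DM.eq_1 Z a (s + w), Dt.kk, sub_zero]
  field_simp
  ring

theorem res {Z : ℕ} {a : ℕ → ℝ} (hZ : 3 ≤ Z) (ha : Mo Z a) {σ y : ℝ} (h1 : 1 / 2 ≤ σ) (h2 : σ ≤ 5)
    (h3 : 1 ≤ y) : II Z a (σ + y * I) 2 - II Z a (σ + y * I) (1 / 2 - 30 - σ) =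
      2 * Real.pi * DM Z a (σ + y * I) ∧
    Integrable fun u : ℝ => DM Z a (σ + y * I + ((1 / 2 - 30 - σ : ℝ) + u * I)) *
      Dt.kk (σ + y * I) ((1 / 2 - 30 - σ : ℝ) + u * I) *
      EW (Real.log Z) ((1 / 2 - 30 - σ : ℝ) + u * I) *
      EE (Dt.yy Z) ((1 / 2 - 30 - σ : ℝ) + u * I) := by
  obtain ⟨D, hD1, hD⟩ := zeta1_strip 30
  set s : ℂ := σ + y * I with hs
  have hi : 1 ≤ |s.im| := by simpa [hs] using h3.trans (le_abs_self y)
  have hs1 : s ≠ 1 := fun h => by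
    rw [h] at hi
    norm_num at hi
  have hre : ∀ x u : ℝ, (s + (x + u * I)).re = σ + x := fun x u => by simp [hs]
  have him : ∀ x u : ℝ, (s + (x + u * I)).im = y + u := fun x u => by simp [hs]
  have hl : 0 ≤ Real.log Z := Real.log_natCast_nonneg Z
  obtain ⟨i1, e1⟩ := Dt.shift_poly (F := dslope (resG Z a s) 0) (σ₁ := 1 / 2 - 30 - σ) (σ₂ := 2)
    (k := 30 + 2) (A := (D * (1 + |y|) ^ (30 + 2) * ((Z ^ 2 : ℕ) : ℝ) ^ (30 + 1) + (32 + |y|)) *
      (2 + Real.exp (Real.log Z * 2)) + ‖resG Z a s 0‖) (Dt.yy Z) (by linarith) (by positivity)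
    ((differentiableOn_dslope Filter.univ_mem).2 (resG_diff Z a s).differentiableOn |>.mono
      (Set.subset_univ _)) fun x hx u hu => by
      have hw : ((x : ℂ) + u * I) ≠ 0 := fun h => by
        have : u = 0 := by simpa using congrArg im h
        rw [this] at hu
        norm_num at hu
      have a2 := hD (s + (x + u * I)) (by
        rw [hre, abs_le]
        push_cast
        constructor <;> linarith [hx.1, hx.2])
      rw [him] at a2
      have a0 : (1 : ℝ) ≤ 1 + |u| := by linarith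
      have a3 : ‖s + (x + u * I) - 1‖ ≤ (32 + |y|) * (1 + |u|) ^ (30 + 2) := by
        refine (norm_le_abs_re_add_abs_im _).trans ?_
        rw [sub_re, sub_im, hre, him, one_re, one_im, sub_zero]
        have b1 : |σ + x - 1| ≤ 31 := abs_le.2 ⟨by linarith [hx.1], by linarith [hx.2]⟩
        have b2 := Dt.abs_add_le_mul y u
        have b3 : 1 + |u| ≤ (1 + |u|) ^ (30 + 2) := le_self_pow₀ a0 (by norm_num)
        nlinarith [abs_nonneg y, mul_le_mul_of_nonneg_left b3 (abs_nonneg y)]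
      have a4 : ‖resG Z a s (x + u * I)‖ ≤ (D * ((1 + |y|) * (1 + |u|)) ^ (30 + 2) *
          ((Z ^ 2 : ℕ) : ℝ) ^ (30 + 1) + (32 + |y|) * (1 + |u|) ^ (30 + 2)) *
          (2 + Real.exp (Real.log Z * 2)) * 1 := by
        rw [resG, norm_mul, norm_mul]
        gcongr
        · refine (norm_sub_le _ _).trans (add_le_add ?_ a3)
          rw [norm_mul]
          gcongr
          · exact a2.trans (by gcongr; exact Dt.abs_add_le_mul y u)
          · exact PL_le ha.1 (by rw [hre]; push_cast; linarith [hx.1])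
        · refine (EW_le _ _).trans ?_
          gcongr
          simpa using hx.2
        · exact Dt.inv_le_one hi
      refine res_ds hw (res_inv_le x hu) (one_le_pow₀ a0) (a4.trans (le_of_eq ?_))
      rw [mul_pow]
      generalize (1 + |u|) ^ (30 + 2) = P
      generalize (1 + |y|) ^ (30 + 2) = Q
      generalize ((Z ^ 2 : ℕ) : ℝ) ^ (30 + 1) = R
      ring
  have hc : (1 / 2 - 30 - σ : ℝ) < 0 := by linarith
  have e2 : ∀ c : ℝ, c ≠ 0 → σ + c ≠ 1 → (fun u : ℝ => DM Z a (s + (c + u * I)) *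
      Dt.kk s (c + u * I) * EW (Real.log Z) (c + u * I) * EE (Dt.yy Z) (c + u * I)) =
      fun u : ℝ => dslope (resG Z a s) 0 (c + u * I) * EE (Dt.yy Z) (c + u * I) +
        DM Z a s * (((c : ℂ) + u * I)⁻¹ * EE (Dt.yy Z) (c + u * I)) := fun c c0 c1 =>
    funext fun u => resG_eq Z a hs1 (res_ne c0 u) (fun h => c1 (by rw [← hre c u, h, one_re])) _
  have j1 := i1 _ ⟨le_rfl, by linarith⟩
  have j2 := i1 2 ⟨by linarith, le_rfl⟩
  have k1 := (res_int hc.ne (Dt.yy Z)).const_mul (DM Z a s)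
  have k2 := (res_int two_ne_zero (Dt.yy Z)).const_mul (DM Z a s)
  refine ⟨?_, by rw [e2 _ hc.ne (by linarith)]; exact j1.add k1⟩
  rw [II, II, e2 _ hc.ne (by linarith), e2 2 two_ne_zero (by linarith), integral_add j1 k1,
    integral_add j2 k2, e1, integral_const_mul, integral_const_mul, res_pos two_pos, res_neg hc]
  have e3 : √(2 * Real.pi) * Dt.VV (Dt.yy Z) + √(2 * Real.pi) * Dt.VV (-Dt.yy Z) = 2 * Real.pi := by
    rw [← mul_add, db_VV, Real.mul_self_sqrt (by positivity)]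
  have e4 := congrArg (fun r : ℝ => (r : ℂ)) e3
  simp only [ofReal_add] at e4
  rw [ofReal_mul 2, ofReal_ofNat] at e4
  linear_combination DM Z a s * e4

end Pool.Agent.Lib.MP_31bf45_nt.Lf
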