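import Pool.Agent.Lib.MP_31bf45_nt.Lf.Right
import Pool.Agent.Lib.MP_31bf45_nt.Lf.Res
import Pool.Agent.Lib.MP_31bf45_nt.Lf.Left
import Pool.Agent.Lib.MP_31bf45_nt.Lf.Mid

/-! The mollified zeta function is bounded by Dirichlet polynomials on the line. -/

set_option autoImplicit false

namespace Pool.Agent.Lib.MP_31bf45_nt.Lf

open Complex Finset MeasureTheory Metric Om Cl Pool.Agent.Lib.MP_b09185_nt.Sh
open Pool.Agent.Lib.MP_b09185_nt.Mai (EE)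
open scoped ComplexConjugate

theorem rp_pow {n : ℕ} (h : n ≠ 0) (σ y : ℝ) : (n : ℂ) ^ (-(σ + y * I : ℂ)) =
    (Real.exp (-(σ - 1 / 2) * Real.log n) : ℝ) * (((√n : ℝ) : ℂ)⁻¹ * ee n y) := by
  have h0 : (0 : ℝ) < n := by positivity
  rw [← da_half h, mul_comm (-(σ - 1 / 2)), ← Real.rpow_def_of_pos h0, ofReal_cpow h0.le,
    ofReal_natCast, ← cpow_add _ _ (by exact_mod_cast h)]
  congr 1
  push_cast
  ring

theorem rp_sum {Z K : ℕ} (b : ℕ → ℂ) (σ y : ℝ) :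
    ∑ n ∈ Ioc Z K, b n * (n : ℂ) ^ (-(σ + y * I : ℂ)) =
      (Real.exp (-Real.log Z * (σ - 1 / 2)) : ℝ) * QP K (sh Z b σ) y := by
  rw [QP, mul_sum, ← sum_subset (s₁ := Ioc Z K) (s₂ := Icc 1 K) (fun n hn => by
    rw [mem_Ioc] at hn
    exact mem_Icc.2 ⟨by omega, hn.2⟩) fun n h1 h2 => by
      rw [sh, if_neg fun h => h2 (mem_Ioc.2 ⟨h, (mem_Icc.1 h1).2⟩)]
      simp]
  refine sum_congr rfl fun n hn => ?_
  have h := (mem_Ioc.1 hn).1
  rw [rp_pow (by omega), sh, if_pos h, show -(σ - 1 / 2) * Real.log n = -Real.log Z * (σ - 1 / 2) +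
    -(σ - 1 / 2) * (Real.log n - Real.log Z) by ring, Real.exp_add, ofReal_mul]
  ring

theorem rp_int (K : ℕ) (c : ℕ → ℂ) {l δ : ℝ} (h : 0 < l) (h' : 0 < δ) (y : ℝ) :
    ∫ u, ‖QP K c (y + u)‖ * om l δ u ≤ ∫ u, (1 + ‖QP K c (y + u)‖ ^ 2) * om l δ u := by
  refine integral_mono_of_nonneg
    (.of_forall fun u => mul_nonneg (norm_nonneg _) (om_nonneg h.le δ u))
    (Integrable.bdd_mul (c := 1 + (∑ n ∈ Icc 1 K, ‖c n / (√n : ℝ)‖) ^ 2) (om_int h h') ?_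
      (.of_forall fun v => ?_))
    (.of_forall fun u => mul_le_mul_of_nonneg_right ?_ (om_nonneg h.le δ u))
  · exact (by unfold QP; fun_prop :
      Continuous fun v => 1 + ‖QP K c (y + v)‖ ^ 2).aestronglyMeasurable
  · rw [Real.norm_of_nonneg (by positivity)]
    gcongr
    exact norm_sum_le_of_le _ fun n _ => by rw [norm_mul, norm_ee, mul_one]
  · nlinarith [sq_nonneg (‖QP K c (y + u)‖ - 1), norm_nonneg (QP K c (y + u))]

theorem rep : ∃ C : ℝ, 1 ≤ C ∧ ∀ Z : ℕ, 3 ≤ Z → ∀ a V : ℕ → ℝ, Mo Z a → Hd Z V → ∃ b : ℕ → ℂ,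
    (∀ n, ‖b n‖ ≤ |c1 a n|) ∧ ∀ δ σ y : ℝ, 0 < δ → 1 / 2 + δ / 2 ≤ σ → σ ≤ 5 →
      (Z : ℝ) ^ 900 ≤ y → y ≤ (Z : ℝ) ^ 1000 → ‖DM Z a (σ + y * I)‖ ≤ C / Z +
        C * Real.exp (-Real.log Z * (σ - 1 / 2)) * Ph0 Z b (fun n => c2 a V n) δ σ y := by
  obtain ⟨C0, c0, hW⟩ := W_bd
  obtain ⟨C1, c1', hR⟩ := right
  obtain ⟨C2, c2', hL⟩ := left
  obtain ⟨C3, c3, hM⟩ := mid
  refine ⟨C0 + C1 + C2 + C3, by linarith, fun Z hZ a V ha hV => ?_⟩
  have hZ' : (3 : ℝ) ≤ Z := by exact_mod_cast hZ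
  have hl : 1 ≤ Real.log Z := by
    rw [Real.le_log_iff_exp_le (by linarith)]
    linarith [Real.exp_one_lt_d9]
  have C0' : (C0 : ℂ) ≠ 0 := ofReal_ne_zero.2 (by linarith)
  refine ⟨fun n => c1 a n * W1 (Real.log Z) (Dt.yy Z - Real.log n) / C0, fun n => ?_,
    fun δ σ y h0 h1 h2 h3 h4 => ?_⟩
  · rw [norm_div, norm_mul, norm_real, norm_real, Real.norm_of_nonneg (by linarith : 0 ≤ C0),
      div_le_iff₀ (by linarith), Real.norm_eq_abs]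
    refine mul_le_mul_of_nonneg_left (((hW _ _ hl).1 ?_).1) (abs_nonneg _)
    rw [Dt.yy]
    linarith [Real.log_natCast_nonneg n]
  have y1 : 1 ≤ y := (one_le_pow₀ (by linarith)).trans h3
  have e1 := (res hZ ha (by linarith : 1 / 2 ≤ σ) h2 y1).1
  have e2 := hR Z hZ a ha σ y (by linarith) h3
  have e3 := hL Z hZ a V ha hV σ y (by linarith) h2 y1 h4
  have e4 := hM Z hZ a V ha hV δ σ y h0 h1 h2 y1
  have e5 := rp_int (Z ^ 560) (fun n => c2 a V n) (by linarith : 0 < Real.log Z) h0 y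
  have e6 : ∑ n ∈ Ioc Z (Z ^ 560), c1 a n * W1 (Real.log Z) (Dt.yy Z - Real.log n) *
      (n : ℂ) ^ (-(σ + y * I : ℂ)) = C0 * ((Real.exp (-Real.log Z * (σ - 1 / 2)) : ℝ) *
        QP (Z ^ 560) (sh Z (fun n => c1 a n * W1 (Real.log Z) (Dt.yy Z - Real.log n) / C0) σ)
          y) := by
    rw [← rp_sum, mul_sum]
    exact sum_congr rfl fun n _ => by field_simp
  have e7 : 0 ≤ ∫ u, ‖QP (Z ^ 560) (fun n => c2 a V n) (y + u)‖ * om (Real.log Z) δ u :=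
    integral_nonneg fun u => mul_nonneg (norm_nonneg _) (om_nonneg (by linarith) δ u)
  rw [e6] at e2
  rw [Ph0]
  have E := Real.exp_pos (-Real.log Z * (σ - 1 / 2))
  generalize Real.exp (-Real.log Z * (σ - 1 / 2)) = e at *
  generalize QP (Z ^ 560) (sh Z _ σ) y = q at *
  generalize ∫ u, (1 + ‖QP (Z ^ 560) (fun n => c2 a V n) (y + u)‖ ^ 2) * om (Real.log Z) δ u = B
    at *
  generalize ∫ u, ‖QP (Z ^ 560) (fun n => c2 a V n) (y + u)‖ * om (Real.log Z) δ u = A at *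
  have n1 : ‖DM Z a (σ + y * I)‖ ≤ ‖2 * Real.pi * DM Z a (σ + y * I)‖ := by
    rw [norm_mul, norm_mul, Complex.norm_two, norm_real, Real.norm_of_nonneg Real.pi_pos.le]
    exact le_mul_of_one_le_left (norm_nonneg _) (by linarith [Real.pi_gt_three])
  have n2 : ‖(C0 * (e * q) : ℂ)‖ = C0 * (e * ‖q‖) := by
    rw [norm_mul, norm_mul, norm_real, norm_real, Real.norm_of_nonneg (by linarith : 0 ≤ C0),
      Real.norm_of_nonneg E.le]
  have n3 := norm_sub_le (II Z a (σ + y * I) 2 - C0 * (e * q) + C0 * (e * q))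
    (II Z a (σ + y * I) (1 / 2 - 30 - σ) - JJ Z a V (σ + y * I) (1 / 2 - σ) +
      JJ Z a V (σ + y * I) (1 / 2 - σ))
  have n4 := norm_add_le (II Z a (σ + y * I) 2 - C0 * (e * q)) (C0 * (e * q))
  have n5 := norm_add_le (II Z a (σ + y * I) (1 / 2 - 30 - σ) - JJ Z a V (σ + y * I) (1 / 2 - σ))
    (JJ Z a V (σ + y * I) (1 / 2 - σ))
  have n6 : C1 / Z + C2 / Z ≤ (C0 + C1 + C2 + C3) / Z := by
    rw [← add_div]
    exact div_le_div_of_nonneg_right (by linarith) (by linarith)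
  have n7 : C0 * (e * ‖q‖) + C3 * e * A ≤ (C0 + C1 + C2 + C3) * e * (1 + ‖q‖ ^ 2 + B) := by
    have a1 : ‖q‖ ≤ 1 + ‖q‖ ^ 2 := by nlinarith [sq_nonneg (‖q‖ - 1), norm_nonneg q]
    have a2 : C0 * (e * ‖q‖) ≤ (C0 + C1 + C2 + C3) * (e * (1 + ‖q‖ ^ 2)) := by
      gcongr
      linarith
    have a3 : C3 * e * A ≤ (C0 + C1 + C2 + C3) * e * B := by
      gcongr
      linarith
    linarith
  rw [sub_add_cancel, sub_add_cancel, e1] at n3
  rw [sub_add_cancel] at n4 n5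
  linarith

end Pool.Agent.Lib.MP_31bf45_nt.Lf
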