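import Pool.Agent.Lib.MP_31bf45_nt.Lf.Ker

/-! The mollified zeta function as a Dirichlet series, and the line to the right. -/

set_option autoImplicit false

namespace Pool.Agent.Lib.MP_31bf45_nt.Lf

open Complex Finset MeasureTheory Metric Om Cl Pool.Agent.Lib.MP_b09185_nt.Sh
open Pool.Agent.Lib.MP_b09185_nt.Mai (EE)
open scoped ComplexConjugate

theorem PL_diff (N : ℕ) (a : ℕ → ℝ) : Differentiable ℂ (PL N a) :=
  Differentiable.fun_sum fun _ hd => (Dt.diff_pow hd).const_mul _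

theorem right_norm {a : ℕ → ℝ} (ha : ∀ d, |a d| ≤ 1) (d : ℕ) : ‖(a d : ℂ)‖ ≤ 1 := by
  rw [norm_real]; exact ha d

theorem PL_le {N k : ℕ} {a : ℕ → ℝ} (ha : ∀ d, |a d| ≤ 1) {w : ℂ} (hw : -(k : ℝ) ≤ w.re) :
    ‖PL N a w‖ ≤ (N : ℝ) ^ (k + 1) := by
  refine (norm_sum_le_of_le _ (n := fun _ => (N : ℝ) ^ k) fun d hd => ?_).trans (by
    simp [pow_succ'])
  rw [norm_mul]
  simpa using mul_le_mul (right_norm ha d) (Dt.norm_pow_le hd hw) (norm_nonneg _) zero_le_one

theorem right_c1_le {a : ℕ → ℝ} (ha : ∀ d, |a d| ≤ 1) (n : ℕ) : |c1 a n| ≤ n := by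
  refine (abs_sum_le_sum_abs _ _).trans ((sum_le_card_nsmul _ _ 1 fun d _ => ha d).trans ?_)
  rw [nsmul_eq_mul, mul_one]
  exact_mod_cast Nat.card_divisors_le_self n

theorem right_small {Z n : ℕ} {a : ℕ → ℝ} (ha : Mo Z a) (h : n ≤ Z) :
    (c1 a n : ℂ) = if n = 1 then 1 else 0 := by
  rw [← Dt.aa_small h, c1, Dt.aa, ofReal_sum]
  refine sum_congr rfl fun d hd => ?_
  have hd' := (Nat.divisor_le hd).trans h
  rw [if_pos hd', ha.2.1 d hd', ofReal_intCast]

theorem right_full {Z : ℕ} {a : ℕ → ℝ} (ha : Mo Z a) {w : ℂ} (hw : 1 < w.re) :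
    LSeriesSummable (fun n => (c1 a n : ℂ)) w ∧
      LSeries (fun n => (c1 a n : ℂ)) w = riemannZeta w * PL (Z ^ 2) a w := by
  have e : (fun n => (c1 a n : ℂ)) = LSeries.convolution (fun d => (a d : ℂ)) 1 := by
    funext n
    rw [LSeries.convolution_def]
    simp only [Pi.one_apply, mul_one, c1, ofReal_sum]
    exact (Nat.sum_divisorsAntidiagonal fun d _ => (a d : ℂ)).symm
  have h1 : LSeriesSummable (fun d => (a d : ℂ)) w :=
    LSeriesSummable_of_bounded_of_one_lt_re (m := 1) (fun n _ => right_norm ha.1 n) hw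
  have h2 := LSeriesSummable_one_iff.2 hw
  rw [e]
  refine ⟨h1.convolution h2, ?_⟩
  rw [LSeries_convolution' h1 h2, LSeries_one_eq_riemannZeta hw, mul_comm, LSeries,
    tsum_eq_sum (s := Icc 1 (Z ^ 2))]
  · congr 1
    refine sum_congr rfl fun d hd => ?_
    rw [mem_Icc] at hd
    rw [LSeries.term_of_ne_zero (by omega), cpow_neg, div_eq_mul_inv]
  · intro d hd
    rcases eq_or_ne d 0 with rfl | h
    · simp
    · rw [mem_Icc] at hd
      rw [LSeries.term_of_ne_zero h, ha.2.2 d (by omega)]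
      simp

theorem ser {Z : ℕ} {a : ℕ → ℝ} (hZ : 1 ≤ Z) (ha : Mo Z a) {w : ℂ} (hw : 1 < w.re) :
    LSeriesSummable (fun n => if Z < n then (c1 a n : ℂ) else 0) w ∧
      LSeries (fun n => if Z < n then (c1 a n : ℂ) else 0) w = DM Z a w := by
  obtain ⟨h1, h2⟩ := right_full ha hw
  have e : (fun n => if Z < n then (c1 a n : ℂ) else 0) =
      (fun n => (c1 a n : ℂ)) - LSeries.delta := by
    funext n
    simp only [Pi.sub_apply, LSeries.delta]
    by_cases h : Z < n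
    · rw [if_pos h, if_neg (by omega), sub_zero]
    · rw [if_neg h, right_small ha (by omega), sub_self]
  have h3 : LSeriesSummable LSeries.delta w :=
    LSeriesSummable_of_bounded_of_one_lt_re (m := 1) (fun n _ => by
      simp only [LSeries.delta]; split_ifs <;> simp) hw
  rw [e]
  refine ⟨h1.sub h3, ?_⟩
  rw [LSeries_sub h1 h3, h2, LSeries_delta, DM, Pi.one_apply]

theorem right_term {Z n : ℕ} {a : ℕ → ℝ} (ha : Mo Z a) (hn : n ≠ 0) (s : ℂ) :
    ‖LSeries.term (fun n => if Z < n then (c1 a n : ℂ) else 0) s n‖ ≤ n / (n : ℝ) ^ s.re := by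
  rw [LSeries.norm_term_eq, if_neg hn]
  refine div_le_div_of_nonneg_right ?_ (by positivity)
  split_ifs
  · rw [norm_real]; exact right_c1_le ha.1 n
  · simp

theorem right_zero {Z n : ℕ} {a : ℕ → ℝ} (hn : n ≤ Z) (s : ℂ) :
    LSeries.term (fun n => if Z < n then (c1 a n : ℂ) else 0) s n = 0 := by
  rcases eq_or_ne n 0 with rfl | h
  · simp
  · rw [LSeries.term_of_ne_zero h, if_neg (by omega), zero_div]

theorem far {Z : ℕ} {a : ℕ → ℝ} (hZ : 1 ≤ Z) (ha : Mo Z a) {s : ℂ} (hs : 4 ≤ s.re) :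
    ‖DM Z a s‖ ≤ 2 / Z := by
  obtain ⟨h1, h2⟩ := ser hZ ha (w := s) (by linarith)
  have ht := Dt.tail_le (A := 1) (N := Z) (j := 1) hZ h1.hasSum fun n hn => by
    have hn1 : (1 : ℝ) ≤ n := by exact_mod_cast (by omega : 1 ≤ n)
    refine (right_term ha (by omega) s).trans ?_
    have h4 : (n : ℝ) ^ 4 ≤ (n : ℝ) ^ s.re := by
      rw [← Real.rpow_natCast]
      exact Real.rpow_le_rpow_of_exponent_le hn1 (by exact_mod_cast hs)
    calc _ ≤ n / (n : ℝ) ^ 4 := by gcongr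
      _ = _ := by field_simp
  rw [sum_eq_zero fun n hn => right_zero (by have := mem_range.1 hn; omega) s, sub_zero] at ht
  rw [← h2, LSeries]
  exact ht.trans (le_of_eq (by ring))

theorem right_int (s : ℂ) (l x : ℝ) :
    ∫ u : ℝ, Dt.kk s ((2 : ℝ) + u * I) * EW l ((2 : ℝ) + u * I) * EE x ((2 : ℝ) + u * I) =
      W1 l x + (s - 1)⁻¹ * W2 l x := by
  have hne : ∀ u : ℝ, (((2 : ℝ) : ℂ) + u * I) ≠ 0 := fun u h => by
    simpa using congrArg re h
  have c0 : Continuous fun u : ℝ => EW l ((2 : ℝ) + u * I) :=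
    (EW_diff l).continuous.comp (by fun_prop)
  have b0 : ∀ u : ℝ, ‖EW l ((2 : ℝ) + u * I)‖ ≤ 2 + Real.exp (l * 2) := fun u => by
    simpa using EW_le l ((2 : ℝ) + u * I)
  have i1 := Pool.Agent.Lib.MP_b09185_nt.Mai.integrable_line
    (F := fun u : ℝ => (((2 : ℝ) : ℂ) + u * I)⁻¹ * EW l ((2 : ℝ) + u * I))
    ((Continuous.inv₀ (by fun_prop) hne).mul c0) (K := 1 * (2 + Real.exp (l * 2))) (fun u => by
      rw [norm_mul, norm_inv]
      exact mul_le_mul (inv_le_one_of_one_le₀ (le_trans (by simp) (abs_re_le_norm _))) (b0 u)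
        (norm_nonneg _) zero_le_one) x 2
  have i2 := (Pool.Agent.Lib.MP_b09185_nt.Mai.integrable_line c0 b0 x 2).const_mul (s - 1)⁻¹
  rw [W1, W2, ← integral_const_mul, ← integral_add i1 i2]
  congr 1
  funext u
  rw [Dt.kk]
  ring

theorem right : ∃ C : ℝ, 0 ≤ C ∧ ∀ Z : ℕ, 3 ≤ Z → ∀ a : ℕ → ℝ, Mo Z a → ∀ σ y : ℝ, 1 / 2 ≤ σ →
    (Z : ℝ) ^ 900 ≤ y → ‖II Z a (σ + y * I) 2 - ∑ n ∈ Ioc Z (Z ^ 560), c1 a n *
      W1 (Real.log Z) (Dt.yy Z - Real.log n) * (n : ℂ) ^ (-(σ + y * I : ℂ))‖ ≤ C / Z := by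
  obtain ⟨E, hE1, hE⟩ := W_bd
  refine ⟨5 * E, by linarith, fun Z hZ3 a ha σ y hσ hy => ?_⟩
  have hZ : 1 ≤ Z := by omega
  have hZ' : (1 : ℝ) ≤ Z := by exact_mod_cast hZ
  have hL : 1 ≤ Real.log Z := by
    have h3 : (3 : ℝ) ≤ Z := by exact_mod_cast hZ3
    rw [Real.le_log_iff_exp_le (by linarith)]
    linarith [Real.exp_one_lt_d9]
  set s : ℂ := σ + y * I with hs
  have sre : s.re = σ := by simp [hs]
  have sim : s.im = y := by simp [hs]
  have y1 : 1 ≤ y := (one_le_pow₀ hZ').trans hy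
  have h1 : 1 ≤ |s.im| := by rw [sim]; exact y1.trans (le_abs_self y)
  set f : ℕ → ℂ := fun n => if Z < n then (c1 a n : ℂ) else 0 with hf
  have hre : ∀ u : ℝ, 1 < (s + ((2 : ℝ) + u * I)).re := fun u => by
    simp [sre]
    linarith
  have hsum : LSeriesSummable (LSeries.term f s) (2 : ℝ) := by
    have := (ser hZ ha (hre 0)).1
    simp only [LSeriesSummable, ofReal_zero, zero_mul, add_zero] at this ⊢
    exact this.congr fun n => (Pool.Agent.Lib.MP_b09185_nt.Mai.term_term _ _ _ n).symm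
  have hk : Continuous fun u : ℝ => Dt.kk s ((2 : ℝ) + u * I) :=
    (Continuous.inv₀ (by fun_prop) fun u h => by simpa using congrArg re h).add continuous_const
  have hS := ker_LSeries (LSeries.term_zero _ _) hsum (Dt.yy Z)
    (k := fun u : ℝ => Dt.kk s ((2 : ℝ) + u * I) * EW (Real.log Z) ((2 : ℝ) + u * I))
    (hk.mul ((EW_diff _).continuous.comp (by fun_prop)))
    (K := 19 * (2 + Real.exp (Real.log Z * 2))) (fun u => by
      rw [norm_mul]
      exact mul_le_mul (Dt.kk_le h1 (by norm_num))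
        (by simpa using EW_le (Real.log Z) ((2 : ℝ) + u * I)) (norm_nonneg _) (by norm_num))
  have e : ∀ u : ℝ, LSeries (LSeries.term f s) ((2 : ℝ) + u * I) =
      DM Z a (s + ((2 : ℝ) + u * I)) := fun u => by
    rw [← (ser hZ ha (hre u)).2]
    simp only [LSeries, Pool.Agent.Lib.MP_b09185_nt.Mai.term_term, hf]
  simp only [e, right_int, ← mul_assoc] at hS
  change HasSum _ (II Z a s 2) at hS
  have hi := Dt.inv_le_one h1
  have hN : Z ≤ Z ^ 560 := Nat.le_self_pow (by decide) Z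
  have ht := Dt.tail_le (A := 2 * E * (Z : ℝ) ^ (551 * 200)) (N := Z ^ 560) (j := 197)
    (hZ.trans hN) hS fun n hn => by
      have hn0 : n ≠ 0 := by omega
      have hn1 : (1 : ℝ) ≤ n := by exact_mod_cast Nat.one_le_iff_ne_zero.2 hn0
      have a1 : ‖LSeries.term f s n‖ ≤ n := (right_term ha hn0 s).trans
        (div_le_self (by linarith) (Real.one_le_rpow hn1 (by linarith)))
      have a2 : Real.exp (200 * (Dt.yy Z - Real.log n + Real.log Z)) =
          (Z : ℝ) ^ (551 * 200) / (n : ℝ) ^ 200 := by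
        rw [show 200 * (Dt.yy Z - Real.log n + Real.log Z) =
          (551 * 200 : ℕ) * Real.log Z - (200 : ℕ) * Real.log n by unfold Dt.yy; push_cast; ring,
          Real.exp_sub, Real.exp_nat_mul, Real.exp_nat_mul, Real.exp_log (by linarith),
          Real.exp_log (by linarith)]
      obtain ⟨-, a3, a4⟩ := hE (Real.log Z) (Dt.yy Z - Real.log n) hL
      rw [a2] at a3 a4
      have a5 : ‖W1 (Real.log Z) (Dt.yy Z - Real.log n) +
          (s - 1)⁻¹ * W2 (Real.log Z) (Dt.yy Z - Real.log n)‖ ≤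
          2 * (E * ((Z : ℝ) ^ (551 * 200) / (n : ℝ) ^ 200)) := by
        refine (norm_add_le _ _).trans ?_
        rw [norm_mul]
        have := mul_le_mul hi a4 (norm_nonneg _) zero_le_one
        linarith
      rw [norm_mul]
      calc _ ≤ n * (2 * (E * ((Z : ℝ) ^ (551 * 200) / (n : ℝ) ^ 200))) := by gcongr
        _ = _ := by
          generalize (Z : ℝ) ^ (551 * 200) = W
          field_simp
          ring
  have ht2 : 2 * (2 * E * (Z : ℝ) ^ (551 * 200) / ((Z ^ 560 : ℕ) : ℝ) ^ 197) ≤ 4 * E / Z := by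
    rw [Nat.cast_pow, ← pow_mul, ← mul_div_assoc, div_le_div_iff₀ (by positivity) (by positivity),
      show 2 * (2 * E * (Z : ℝ) ^ (551 * 200)) * Z = 4 * E * (Z : ℝ) ^ (551 * 200 + 1) by
        rw [pow_succ]; ring]
    exact mul_le_mul_of_nonneg_left (pow_le_pow_right₀ hZ' (by norm_num)) (by positivity)
  rw [← sum_range_add_sum_Ico _ (Nat.add_le_add_right hN 1), sum_eq_zero (s := range (Z + 1))
    (fun n hn => by rw [right_zero (by have := mem_range.1 hn; omega), zero_mul]), zero_add,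
    Ico_add_one_add_one_eq_Ioc] at ht
  have e2 : ∑ n ∈ Ioc Z (Z ^ 560), LSeries.term f s n * (W1 (Real.log Z) (Dt.yy Z - Real.log n) +
      (s - 1)⁻¹ * W2 (Real.log Z) (Dt.yy Z - Real.log n)) =
      ∑ n ∈ Ioc Z (Z ^ 560), c1 a n * W1 (Real.log Z) (Dt.yy Z - Real.log n) * (n : ℂ) ^ (-s) +
      (s - 1)⁻¹ * ∑ n ∈ Ioc Z (Z ^ 560),
        LSeries.term f s n * W2 (Real.log Z) (Dt.yy Z - Real.log n) := by
    rw [mul_sum, ← sum_add_distrib]
    refine sum_congr rfl fun n hn => ?_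
    have hn1 := (mem_Ioc.1 hn).1
    rw [LSeries.term_of_ne_zero (by omega), hf, cpow_neg]
    simp only [if_pos hn1]
    ring
  have g1 : ‖(s - 1)⁻¹‖ ≤ ((Z : ℝ) ^ 900)⁻¹ := by
    rw [norm_inv]
    refine inv_anti₀ (by positivity) (hy.trans ((le_abs_self y).trans ?_))
    simpa [sim] using abs_im_le_norm (s - 1)
  have g2 : ‖∑ n ∈ Ioc Z (Z ^ 560), LSeries.term f s n * W2 (Real.log Z) (Dt.yy Z - Real.log n)‖ ≤
      (Z : ℝ) ^ 560 * ((Z : ℝ) ^ 280 * E) := by
    refine (norm_sum_le_of_le _ (n := fun _ => (Z : ℝ) ^ 280 * E) fun n hn => ?_).trans ?_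
    · obtain ⟨hn1, hn2⟩ := mem_Ioc.1 hn
      have n1 : (1 : ℝ) ≤ n := by exact_mod_cast (by omega : 1 ≤ n)
      have n2 : (n : ℝ) ≤ ((Z : ℝ) ^ 280) ^ 2 := by rw [← pow_mul]; exact_mod_cast hn2
      have b1 := ((hE (Real.log Z) (Dt.yy Z - Real.log n) hL).1
        (by unfold Dt.yy; linarith [Real.log_nonneg n1])).2
      have b2 : √n ≤ (n : ℝ) ^ s.re := by
        rw [Real.sqrt_eq_rpow, sre]
        exact Real.rpow_le_rpow_of_exponent_le n1 hσ
      have b3 : ‖LSeries.term f s n‖ ≤ (Z : ℝ) ^ 280 := by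
        refine (right_term ha (by omega) s).trans ?_
        calc _ ≤ n / √n := div_le_div_of_nonneg_left (by linarith) (by positivity) b2
          _ = √n := Real.div_sqrt
          _ ≤ _ := Real.sqrt_le_iff.2 ⟨by positivity, n2⟩
      rw [norm_mul]
      exact mul_le_mul b3 b1 (norm_nonneg _) (by positivity)
    · rw [sum_const, nsmul_eq_mul, Nat.card_Ioc]
      refine mul_le_mul_of_nonneg_right ?_ (by positivity)
      exact_mod_cast Nat.sub_le _ _
  have g3 : ((Z : ℝ) ^ 900)⁻¹ * ((Z : ℝ) ^ 560 * ((Z : ℝ) ^ 280 * E)) ≤ E / Z := by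
    rw [inv_mul_eq_div, div_le_div_iff₀ (by positivity) (by positivity),
      show (Z : ℝ) ^ 560 * ((Z : ℝ) ^ 280 * E) * Z = E * (Z : ℝ) ^ 841 by ring]
    exact mul_le_mul_of_nonneg_left (pow_le_pow_right₀ hZ' (by norm_num)) (by linarith)
  have g4 := (norm_mul_le _ _).trans ((mul_le_mul g1 g2 (norm_nonneg _) (by positivity)).trans g3)
  rw [e2, ← sub_sub] at ht
  have g5 := (norm_add_le _ _).trans (add_le_add (ht.trans ht2) g4)
  rw [sub_add_cancel] at g5
  exact g5.trans (le_of_eq (by ring))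

end Pool.Agent.Lib.MP_31bf45_nt.Lf
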