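import Pool.Agent.Lib.MP_31bf45_nt.Lf.Def
import Pool.Agent.Lib.MP_31bf45_nt.Om.Core

/-! Averages of bounded continuous functions with small weighted means. -/

set_option autoImplicit false

namespace Pool.Agent.Lib.MP_31bf45_nt.Lf

open Complex Finset MeasureTheory Metric Om Cl Pool.Agent.Lib.MP_b09185_nt.Sh
open Pool.Agent.Lib.MP_b09185_nt.Mai (EE)
open scoped ComplexConjugate

theorem conv {r s : ℝ → ℝ} (hr : Continuous r) (hs : Continuous s) {R M E A : ℝ}
    (r0 : ∀ x, 0 ≤ r x ∧ r x ≤ R) {μ : Measure ℝ} [SFinite μ] {Φ : ℝ → ℝ → ℝ}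
    (hΦ : Continuous fun p : ℝ × ℝ => Φ p.1 p.2) (hM : ∀ θ y, 0 ≤ Φ θ y ∧ Φ θ y ≤ M)
    (hE : ∀ θ v, ∫ x, r x * Φ θ (s x + v) * gs x ≤ E) {w : ℝ → ℝ} (w0 : ∀ θ, 0 ≤ w θ)
    (wi : Integrable w μ) (hA : ∫ θ, w θ ∂μ ≤ A) :
    Sm r s (A * E) fun y => ∫ θ, Φ θ y * w θ ∂μ := by
  have c1 : ∀ y, Continuous fun θ => Φ θ y := fun y =>
    hΦ.comp (continuous_id.prodMk continuous_const)
  have c2 : ∀ θ, Continuous fun y => Φ θ y := fun θ =>
    hΦ.comp (continuous_const.prodMk continuous_id)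
  have m1 : ∀ y, AEStronglyMeasurable (fun θ => Φ θ y * w θ) μ := fun y =>
    (c1 y).aestronglyMeasurable.mul wi.aestronglyMeasurable
  have b1 : ∀ y θ, ‖Φ θ y * w θ‖ ≤ M * w θ := fun y θ => by
    rw [Real.norm_of_nonneg (mul_nonneg (hM θ y).1 (w0 θ))]
    exact mul_le_mul_of_nonneg_right (hM θ y).2 (w0 θ)
  have hE0 : 0 ≤ E := le_trans (integral_nonneg fun x =>
    mul_nonneg (mul_nonneg (r0 x).1 (hM _ _).1) (gs_pos x).le) (hE 0 0)
  refine ⟨continuous_of_dominated m1 (fun y => Filter.Eventually.of_forall (b1 y)) (wi.const_mul M)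
    (Filter.Eventually.of_forall fun θ => (c2 θ).mul continuous_const),
    ⟨∫ θ, M * w θ ∂μ, fun y => ⟨integral_nonneg fun θ => mul_nonneg (hM θ y).1 (w0 θ),
      (le_abs_self _).trans (norm_integral_le_of_norm_le (wi.const_mul M)
        (Filter.Eventually.of_forall (b1 y)))⟩⟩, fun v => ?_⟩
  have c3 : Continuous fun z : ℝ × ℝ => r z.1 * Φ z.2 (s z.1 + v) * gs z.1 :=
    ((hr.comp continuous_fst).mul (hΦ.comp (continuous_snd.prodMk
      ((hs.comp continuous_fst).add continuous_const)))).mul (cont_gs.comp continuous_fst)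
  have hi : Integrable (Function.uncurry fun x θ : ℝ =>
      r x * Φ θ (s x + v) * gs x * w θ) (volume.prod μ) := by
    refine ((co_gs.mul_prod wi).const_mul (R * M)).mono'
      (c3.aestronglyMeasurable.mul wi.aestronglyMeasurable.comp_snd)
      (Filter.Eventually.of_forall fun z => ?_)
    have h1 := r0 z.1
    have h2 := hM z.2 (s z.1 + v)
    have h3 := (gs_pos z.1).le
    have h4 : 0 ≤ r z.1 * Φ z.2 (s z.1 + v) := mul_nonneg h1.1 h2.1
    have h5 := w0 z.2
    change ‖r z.1 * Φ z.2 (s z.1 + v) * gs z.1 * w z.2‖ ≤ _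
    rw [Real.norm_of_nonneg (by positivity), mul_assoc]
    exact mul_le_mul_of_nonneg_right (mul_le_mul h1.2 h2.2 h2.1 (h1.1.trans h1.2)) (by positivity)
  have e : (fun x => r x * (∫ θ, Φ θ (s x + v) * w θ ∂μ) * gs x) =
      fun x => ∫ θ, r x * Φ θ (s x + v) * gs x * w θ ∂μ := by
    funext x
    rw [mul_right_comm, ← integral_const_mul]
    congr 1
    funext θ
    ring
  beta_reduce
  rw [e, integral_integral_swap hi]
  calc _ ≤ ∫ θ, E * w θ ∂μ := by
        refine integral_mono hi.integral_prod_right (wi.const_mul E) fun θ => ?_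
        simp only
        rw [integral_mul_const]
        exact mul_le_mul_of_nonneg_right (hE θ v) (w0 θ)
    _ ≤ A * E := by
        rw [integral_const_mul, mul_comm]
        exact mul_le_mul_of_nonneg_right hA hE0

theorem core {P : Finset ℕ} {k N : ℕ} {a H : ℝ} {θ : ℂ} (hP : ∀ p ∈ P, p.Prime) (ha : 0 ≤ a)
    (hN : ∀ S ∈ SS P k, mS S ≤ N) (hθ : ‖θ‖ = 1) (h : N * gs (H / N) ≤ 1) {F Φ : ℝ → ℝ}
    (hF : Continuous F) {W A B X E : ℝ} (hW : ∀ t, |F t| ≤ W) (hA : 0 ≤ A) (hB : 0 ≤ B)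
    (hX : 0 ≤ X) (t₀ : ℝ)
    (hΦ : Sm (fun x => ‖RR P k a θ (t₀ + H * x)‖ ^ 2) (fun x => t₀ + H * x) E Φ)
    (hpt : ∀ x : ℝ, |x| ≤ X → F (t₀ + H * x) ≤ A + B * Φ (t₀ + H * x)) :
    ∫ x : ℝ, ‖RR P k a θ (t₀ + H * x)‖ ^ 2 * F (t₀ + H * x) * gs x ≤
      QQ P k a * (2 * √(2 * Real.pi) * A + 4 * W * N * Real.exp (-X ^ 2 / 4)) + B * E := by
  obtain ⟨r, er⟩ : ∃ r : ℝ → ℝ, r = fun x => ‖RR P k a θ (t₀ + H * x)‖ ^ 2 := ⟨_, rfl⟩
  have hR := co_RR P k a θ
  have hr : Continuous r := by rw [er]; fun_prop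
  have r0 : ∀ x, 0 ≤ r x ∧ r x ≤ N * QQ P k a := fun x => by
    rw [er]; exact ⟨by positivity, sup_RR hP ha hN hθ _⟩
  have hW0 : 0 ≤ W := (abs_nonneg _).trans (hW 0)
  have hQ : 0 ≤ QQ P k a := zero_le_one.trans (one_le_QQ P k a)
  rw [← er] at hΦ
  obtain ⟨cΦ, ⟨M, hM⟩, hE⟩ := hΦ
  have m2 : ∫ x, r x * Φ (t₀ + H * x) * gs x ≤ E := by simpa only [add_zero] using hE 0
  have i1 : Integrable fun x => r x * gs x :=
    co_int hr fun x => (abs_of_nonneg (r0 x).1).trans_le (r0 x).2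
  have m1 : ∫ x, r x * gs x ≤ 2 * √(2 * Real.pi) * QQ P k a := by
    rw [er]; exact mass hP ha hN hθ h t₀
  have i2 : Integrable fun x => r x * Φ (t₀ + H * x) * gs x :=
    co_int (R := N * QQ P k a * M) (by fun_prop) fun x => by
      rw [abs_of_nonneg (mul_nonneg (r0 x).1 (hM _).1)]
      exact mul_le_mul (r0 x).2 (hM _).2 (hM _).1 (by positivity)
  have i0 : Integrable fun x => r x * F (t₀ + H * x) * gs x :=
    co_int (R := N * QQ P k a * W) (by fun_prop) fun x => by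
      rw [abs_mul, abs_of_nonneg (r0 x).1]
      exact mul_le_mul (r0 x).2 (hW _) (abs_nonneg _) (by positivity)
  have pt : ∀ x, r x * F (t₀ + H * x) * gs x ≤ A * (r x * gs x) +
      B * (r x * Φ (t₀ + H * x) * gs x) +
      W * (N * QQ P k a) * Real.exp (-X ^ 2 / 4) * Real.exp (-(1 / 4) * x ^ 2) := fun x => by
    have g0 := (gs_pos x).le
    have h1 : 0 ≤ r x * gs x := mul_nonneg (r0 x).1 g0
    have h2 : 0 ≤ r x * Φ (t₀ + H * x) * gs x := mul_nonneg (mul_nonneg (r0 x).1 (hM _).1) g0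
    rcases le_or_gt |x| X with hx | hx
    · have h4 := mul_le_mul_of_nonneg_left (hpt x hx) h1
      have h5 : 0 ≤ W * (N * QQ P k a) * Real.exp (-X ^ 2 / 4) * Real.exp (-(1 / 4) * x ^ 2) := by
        positivity
      nlinarith
    · have h3 : gs x ≤ Real.exp (-X ^ 2 / 4) * Real.exp (-(1 / 4) * x ^ 2) := by
        rw [← Real.exp_add, gs, Real.exp_le_exp]
        have := sq_le_sq' (by linarith) hx.le
        rw [sq_abs] at this
        linarith
      have h4 : r x * F (t₀ + H * x) ≤ W * (N * QQ P k a) := by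
        rw [mul_comm W]
        exact (mul_le_mul_of_nonneg_left ((le_abs_self _).trans (hW _)) (r0 x).1).trans
          (mul_le_mul_of_nonneg_right (r0 x).2 hW0)
      have h5 := (mul_le_mul_of_nonneg_right h4 g0).trans
        (mul_le_mul_of_nonneg_left h3 (by positivity))
      have h6 := mul_nonneg hA h1
      have h7 := mul_nonneg hB h2
      rw [← mul_assoc] at h5
      linarith
  have key := integral_mono i0 (((i1.const_mul A).add (i2.const_mul B)).add
    (co_g4.const_mul (W * (N * QQ P k a) * Real.exp (-X ^ 2 / 4)))) pt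
  rw [integral_add' ((i1.const_mul A).add (i2.const_mul B)) (co_g4.const_mul _),
    integral_add' (i1.const_mul A) (i2.const_mul B), integral_const_mul, integral_const_mul,
    integral_const_mul] at key
  have k1 := mul_le_mul_of_nonneg_left m1 hA
  have k2 := mul_le_mul_of_nonneg_left m2 hB
  have k3 := mul_le_mul_of_nonneg_left co_g4_le
    (by positivity : 0 ≤ W * (N * QQ P k a) * Real.exp (-X ^ 2 / 4))
  simp only [er] at key k1 k2
  linarith

end Pool.Agent.Lib.MP_31bf45_nt.Lf
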